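import Pool.Agent.P.MP_8fb1ed_pr.Common

/-! Mass transport, measurability of closures, elementary facts on `shift`. -/

open MeasureTheory Filter Topology Relation
open scoped ENNReal

namespace Pool.Agent.FusfTree

section shift
variable {Γ : Type*} [Group Γ]

lemma shift_apply (g : Γ) (η : Cfg Γ) (x y : Γ) : shift g η s(g * x, g * y) = η s(x, y) := by
  simp [shift]

lemma shift_apply' (g : Γ) (η : Cfg Γ) (x y : Γ) :
    shift g η s(x, y) = η s(g⁻¹ * x, g⁻¹ * y) := by
  simp [shift]

lemma measurable_shift (g : Γ) : Measurable (shift g : Cfg Γ → Cfg Γ) :=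
  measurable_pi_lambda _ fun _ => measurable_pi_apply _

lemma continuous_shift (g : Γ) : Continuous (shift g : Cfg Γ → Cfg Γ) :=
  continuous_pi fun _ => continuous_apply _

omit [Group Γ] in
lemma graphOf_adj (η : Cfg Γ) (x y : Γ) : (graphOf η).Adj x y ↔ η s(x, y) = true ∧ x ≠ y := by
  simp [graphOf]

lemma graphOf_shift_adj (g : Γ) (η : Cfg Γ) (x y : Γ) :
    (graphOf (shift g η)).Adj (g * x) (g * y) ↔ (graphOf η).Adj x y := by
  simp [graphOf_adj, shift_apply]

omit [Group Γ] in
lemma measurable_edge (e : Sym2 Γ) : Measurable fun η : Cfg Γ => η e = true :=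
  (Measurable.of_discrete (f := fun b : Bool => b = true)).comp (measurable_pi_apply e)

lemma rrel_adj : RRel (shift : Γ → Cfg Γ → Cfg Γ) (fun η (x y : Γ) => (graphOf η).Adj x y) :=
  ⟨fun x y => by
    simp only [graphOf_adj]
    exact (measurable_edge _).and measurable_const,
   fun g η x y => graphOf_shift_adj g η x y⟩

end shift

lemma rtg_lift {ι κ : Type*} (f : ι → κ) {R : ι → ι → Prop} {R' : κ → κ → Prop}
    (h : ∀ p q, R p q → R' (f p) (f q)) {x y : ι} (hxy : ReflTransGen R x y) :
    ReflTransGen R' (f x) (f y) := by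
  induction hxy with
  | refl => exact .refl
  | tail _ h2 ih => exact ih.tail (h _ _ h2)

lemma rtg_mono {ι : Type*} {R R' : ι → ι → Prop} (h : ∀ p q, R p q → R' p q) {x y : ι}
    (hxy : ReflTransGen R x y) : ReflTransGen R' x y := rtg_lift id h hxy

lemma rtg_symm {ι : Type*} {R : ι → ι → Prop} (h : ∀ p q, R p q → R q p) {x y : ι}
    (hxy : ReflTransGen R x y) : ReflTransGen R y x := by
  induction hxy with
  | refl => exact .refl
  | tail _ h2 ih => exact ih.head (h _ _ h2)

lemma eqvGen_mono {ι : Type*} {R R' : ι → ι → Prop} (h : ∀ p q, R p q → EqvGen R' p q) {x y : ι}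
    (hxy : EqvGen R x y) : EqvGen R' x y := by
  induction hxy with
  | rel _ _ h1 => exact h _ _ h1
  | refl => exact .refl _
  | symm _ _ _ ih => exact .symm _ _ ih
  | trans _ _ _ _ _ ih1 ih2 => exact .trans _ _ _ ih1 ih2

section closure
variable {Ω ι : Type*} [MeasurableSpace Ω] [Countable ι]

omit [Countable ι] in
lemma rtg_iff_iter {R : ι → ι → Prop} {x y : ι} :
    ReflTransGen R x y ↔ ∃ n : ℕ, (fun (Q : ι → Prop) z => ∃ p, Q p ∧ R p z)^[n] (· = x) y := by
  constructor
  · intro h
    induction h with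
    | refl => exact ⟨0, rfl⟩
    | tail _ h2 ih =>
      obtain ⟨n, hn⟩ := ih
      exact ⟨n + 1, by rw [Function.iterate_succ_apply']; exact ⟨_, hn, h2⟩⟩
  · rintro ⟨n, hn⟩
    induction n generalizing y with
    | zero => obtain rfl : y = x := hn; exact .refl
    | succ n ih =>
      rw [Function.iterate_succ_apply'] at hn
      obtain ⟨p, hp, h2⟩ := hn
      exact (ih hp).tail h2

lemma measurable_rtg {R : Ω → ι → ι → Prop} (hR : ∀ i j, Measurable fun ω => R ω i j)
    (x y : ι) : Measurable fun ω => ReflTransGen (R ω) x y := by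
  simp only [rtg_iff_iter]
  refine Measurable.exists fun n => ?_
  induction n generalizing y with
  | zero => exact measurable_const
  | succ n ih =>
    simp only [Function.iterate_succ_apply']
    exact Measurable.exists fun p => (ih p).and (hR p y)

omit [Countable ι] in
lemma eqvGen_iff_rtg {R : ι → ι → Prop} {x y : ι} :
    EqvGen R x y ↔ ReflTransGen (fun p q => R p q ∨ R q p) x y := by
  constructor
  · intro h
    induction h with
    | rel _ _ h => exact .single (.inl h)
    | refl => exact .refl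
    | symm _ _ _ ih =>
      exact rtg_symm (fun p q h => h.symm) ih
    | trans _ _ _ _ _ ih1 ih2 => exact ih1.trans ih2
  · intro h
    induction h with
    | refl => exact .refl _
    | tail _ h2 ih =>
      rcases h2 with h2 | h2
      · exact .trans _ _ _ ih (.rel _ _ h2)
      · exact .trans _ _ _ ih (.symm _ _ (.rel _ _ h2))

lemma measurable_eqvGen {R : Ω → ι → ι → Prop} (hR : ∀ i j, Measurable fun ω => R ω i j)
    (x y : ι) : Measurable fun ω => EqvGen (R ω) x y := by
  simp only [eqvGen_iff_rtg]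
  exact measurable_rtg (fun i j => (hR i j).or (hR j i)) x y

lemma measurable_encard_set {U : Ω → ι → Prop} (hU : ∀ i, Measurable fun ω => U ω i) :
    Measurable fun ω => {i | U ω i}.encard :=
  measurable_encard.comp (measurable_set_iff.2 hU)

lemma measurable_encard_ennreal {U : Ω → ι → Prop} (hU : ∀ i, Measurable fun ω => U ω i) :
    Measurable fun ω => ({i | U ω i}.encard : ℝ≥0∞) :=
  (Measurable.of_discrete (f := fun n : ℕ∞ => (n : ℝ≥0∞))).comp (measurable_encard_set hU)

end closure

/-- Transport of a reflexive transitive closure along a bijection. -/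
lemma rtg_equiv {ι κ : Type*} (e : ι ≃ κ) {R : ι → ι → Prop} {R' : κ → κ → Prop}
    (h : ∀ p q, R' (e p) (e q) ↔ R p q) (x y : ι) :
    ReflTransGen R' (e x) (e y) ↔ ReflTransGen R x y := by
  constructor
  · intro h1
    have := rtg_lift (R' := R) e.symm
      (fun p q (hpq : R' p q) => (h _ _).1 (by simpa using hpq)) h1
    simpa using this
  · exact fun h1 => rtg_lift e (fun p q hpq => (h _ _).2 hpq) h1

lemma eqvGen_equiv {ι κ : Type*} (e : ι ≃ κ) {R : ι → ι → Prop} {R' : κ → κ → Prop}
    (h : ∀ p q, R' (e p) (e q) ↔ R p q) (x y : ι) :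
    EqvGen R' (e x) (e y) ↔ EqvGen R x y := by
  simp only [eqvGen_iff_rtg]
  exact rtg_equiv e (fun p q => by rw [h, h]) x y

section rrel
variable {Γ Ω ι κ : Type*} [Group Γ] [MeasurableSpace Ω] [MulAction Γ ι] [MulAction Γ κ]
  {a : Γ → Ω → Ω}

lemma RRel.rtg [Countable ι] {R : Ω → ι → ι → Prop} (h : RRel a R) :
    RRel a fun ω => ReflTransGen (R ω) :=
  ⟨measurable_rtg h.meas, fun g ω x y => rtg_equiv (MulAction.toPerm g) (h.eqv g ω) x y⟩

lemma RRel.eqvGen [Countable ι] {R : Ω → ι → ι → Prop} (h : RRel a R) :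
    RRel a fun ω => EqvGen (R ω) :=
  ⟨measurable_eqvGen h.meas, fun g ω x y => eqvGen_equiv (MulAction.toPerm g) (h.eqv g ω) x y⟩

lemma RRel.comp {Ω' : Type*} [MeasurableSpace Ω'] {a' : Γ → Ω' → Ω'} {R : Ω → ι → κ → Prop}
    (h : RRel a R) {π : Ω' → Ω} (hπ : Measurable π) (he : ∀ g ω, π (a' g ω) = a g (π ω)) :
    RRel a' fun ω => R (π ω) :=
  ⟨fun i j => (h.meas i j).comp hπ, fun g ω i j => by rw [he]; exact h.eqv g _ i j⟩

lemma forall_smul (g : Γ) {p : ι → Prop} : (∀ i, p i) ↔ ∀ i, p (g • i) :=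
  (MulAction.toPerm g).forall_congr_right.symm

lemma exists_smul (g : Γ) {p : ι → Prop} : (∃ i, p i) ↔ ∃ i, p (g • i) :=
  (MulAction.toPerm g).exists_congr_right.symm

lemma encard_smul (g : Γ) (p : ι → Prop) : {i | p (g • i)}.encard = {i | p i}.encard := by
  have : {i | p i} = (MulAction.toPerm g) '' {i | p (g • i)} := by
    ext i
    constructor
    · intro h; exact ⟨g⁻¹ • i, by simpa using h, by simp⟩
    · rintro ⟨j, hj, rfl⟩; exact hj
  rw [this, (MulAction.toPerm g).injective.encard_image]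

end rrel

section mtp
variable {Γ Ω : Type*} [Group Γ] [Countable Γ] [MeasurableSpace Ω] {P : Measure Ω}
  {a : Γ → Ω → Ω}

omit [Countable Γ] [Group Γ] in
lemma lintegral_act (ha : ∀ g, MeasurePreserving (a g) P P) (g : Γ) {f : Ω → ℝ≥0∞}
    (hf : Measurable f) : ∫⁻ ω, f (a g ω) ∂P = ∫⁻ ω, f ω ∂P :=
  (ha g).lintegral_comp hf

/-- The mass transport principle. -/
theorem mtp (ha : ∀ g, MeasurePreserving (a g) P P) {f : Ω → Γ → Γ → ℝ≥0∞}
    (hm : ∀ x y, Measurable fun ω => f ω x y)
    (he : ∀ g ω x y, f (a g ω) (g * x) (g * y) = f ω x y) :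
    ∫⁻ ω, ∑' y, f ω 1 y ∂P = ∫⁻ ω, ∑' y, f ω y 1 ∂P := by
  rw [lintegral_tsum fun y => (hm 1 y).aemeasurable, lintegral_tsum fun y => (hm y 1).aemeasurable,
    ← (Equiv.inv Γ).tsum_eq]
  refine tsum_congr fun y => ?_
  rw [← lintegral_act ha y (hm y 1)]
  refine lintegral_congr fun ω => ?_
  have := he y ω 1 y⁻¹
  simpa using this.symm

omit [Countable Γ] in
/-- The probability that `x` lies in an invariant random subset does not depend on `x`. -/
lemma RSet.prob_eq (ha : ∀ g, MeasurePreserving (a g) P P) {U : Ω → Γ → Prop} (hU : RSet a U)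
    (x : Γ) : P {ω | U ω x} = P {ω | U ω 1} := by
  rw [← (ha x).measure_preimage (hU.meas x).setOf.nullMeasurableSet]
  congr 1
  ext ω
  simpa using hU.eqv x ω 1

omit [Countable Γ] in
lemma RRel.prob_eq (ha : ∀ g, MeasurePreserving (a g) P P) {R : Ω → Γ → Γ → Prop} (hR : RRel a R)
    (g x y : Γ) : P {ω | R ω (g * x) (g * y)} = P {ω | R ω x y} := by
  rw [← (ha g).measure_preimage (hR.meas _ _).setOf.nullMeasurableSet]
  congr 1
  ext ω
  simpa using hR.eqv g ω x y

end mtp

lemma encard_eq_tsum {ι : Type*} (p : ι → Prop) [DecidablePred p] :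
    ({i | p i}.encard : ℝ≥0∞) = ∑' i, if p i then 1 else 0 := by
  rw [← ENNReal.tsum_set_one, tsum_subtype {i | p i} (fun _ => (1 : ℝ≥0∞))]
  refine tsum_congr fun i => ?_
  simp [Set.indicator_apply]

end Pool.Agent.FusfTree
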