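import Pool.Agent.P.MP_8fb1ed_pr.Basic

/-! Deterministic facts on forests and tree decompositions. -/

open Relation

namespace Pool.Agent.FusfTree

variable {Γ : Type*} {t : Γ → Γ → Prop}

lemma side.rtg {u w z : Γ} (h : side t u w z) : ReflTransGen t w z :=
  rtg_mono (fun _ _ h => h.1) h

lemma side_self (u w : Γ) : side t u w w := ReflTransGen.refl

lemma side.step {u w p q : Γ} (h : side t u w p) (hpq : t p q) (hne : s(p, q) ≠ s(u, w)) :
    side t u w q := ReflTransGen.tail h ⟨hpq, hne⟩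

lemma side_cross (hac : ∀ u w, t u w → ¬ side t u w u) {u w p q : Γ} (huw : t u w)
    (hp : side t u w p) (hpq : t p q) (hq : ¬ side t u w q) : p = w ∧ q = u := by
  by_cases hne : s(p, q) = s(u, w)
  · rcases Sym2.eq_iff.1 hne with ⟨rfl, rfl⟩ | ⟨rfl, rfl⟩
    · exact absurd hp (hac _ _ huw)
    · exact ⟨rfl, rfl⟩
  · exact absurd (hp.step hpq hne) hq

lemma side_or {u w z : Γ} (h : ReflTransGen t u z) : side t u w z ∨ side t w u z := by
  induction h with
  | refl => exact .inr (side_self _ _)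
  | @tail p q _ hpq ih =>
    by_cases hne : s(p, q) = s(u, w)
    · rcases Sym2.eq_iff.1 hne with ⟨rfl, rfl⟩ | ⟨rfl, rfl⟩
      · exact .inl (side_self _ _)
      · exact .inr (side_self _ _)
    · rcases ih with ih | ih
      · exact .inl (ih.step hpq hne)
      · exact .inr (ih.step hpq (by rwa [Sym2.eq_swap (a := w)]))

lemma side_disj (hs : ∀ u w, t u w → t w u) (hac : ∀ u w, t u w → ¬ side t u w u) {u w z : Γ}
    (huw : t u w) (h1 : side t u w z) : ¬ side t w u z := by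
  intro h2
  apply hac u w huw
  have h3 : ReflTransGen (fun p q => t p q ∧ s(p, q) ≠ s(u, w)) z u := by
    refine rtg_symm (fun p q h => ⟨hs _ _ h.1, by rw [Sym2.eq_swap]; exact h.2⟩) ?_
    exact rtg_mono (fun p q h => ⟨h.1, by rw [Sym2.eq_swap (a := u)]; exact h.2⟩) h2
  exact ReflTransGen.trans h1 h3

lemma side_sub (hac : ∀ u w, t u w → ¬ side t u w u) {o w w' z : Γ} (hw : t o w) (hw' : t o w')
    (hne : w ≠ w') (h : side t o w' z) : side t w o z := by
  induction h with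
  | refl =>
    refine (side_self w o).step hw' fun h => ?_
    rcases Sym2.eq_iff.1 h with ⟨rfl, rfl⟩ | ⟨-, rfl⟩
    · exact hne rfl
    · exact hne rfl
  | @tail p q hp hpq ih =>
    refine side.step ih hpq.1 fun h => ?_
    have hq : side t o w' q := ReflTransGen.tail hp hpq
    rcases Sym2.eq_iff.1 h with ⟨rfl, rfl⟩ | ⟨rfl, rfl⟩
    · exact hac _ _ hw' hq
    · exact hac _ _ hw' hp

/-- An antisymmetric function on the edges of a forest is a gradient. -/
theorem exists_potential {A : Type*} [AddCommGroup A] (hs : ∀ u w, t u w → t w u)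
    (hac : ∀ u w, t u w → ¬ side t u w u) (c : Γ → Γ → A)
    (hc : ∀ u w, t u w → c w u = - c u w) :
    ∃ p : Γ → A, ∀ u w, t u w → p w - p u = c u w := by
  classical
  let S : Setoid Γ := ⟨ReflTransGen t, fun _ => .refl, rtg_symm hs, .trans⟩
  let root : Γ → Γ := fun x => (Quotient.mk S x).out
  have hroot : ∀ x, ReflTransGen t (root x) x := fun x => Quotient.mk_out (s := S) x
  have hroot' : ∀ x y, t x y → root x = root y := fun x y h => by
    simp only [root]; rw [Quotient.sound (s := S) (ReflTransGen.single h)]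
  let D : Γ → Γ → Set (Γ × Γ) := fun o x => {e | t e.1 e.2 ∧ side t e.1 e.2 x ∧ ¬ side t e.1 e.2 o}
  have hstep : ∀ o p q, t p q → D o q ⊆ insert (p, q) (D o p) := by
    rintro o p q hpq ⟨u, w⟩ ⟨h1, h2, h3⟩
    by_cases h : side t u w p
    · exact .inr ⟨h1, h, h3⟩
    · obtain ⟨rfl, rfl⟩ := side_cross hac h1 h2 (hs _ _ hpq) h
      exact .inl rfl
  have hfin : ∀ o x, ReflTransGen t o x → (D o x).Finite := by
    intro o x h
    induction h with
    | refl => exact Set.finite_empty.subset fun e he => he.2.2 he.2.1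
    | tail _ hpq ih => exact (ih.insert _).subset (hstep _ _ _ hpq)
  let p : Γ → A := fun x => ∑ e ∈ (hfin _ _ (hroot x)).toFinset, c e.1 e.2
  have key : ∀ u w, t u w → side t w u (root u) → p w - p u = c u w := by
    intro u w huw hsd
    have hns : ¬ side t u w (root u) := fun h => side_disj hs hac huw h hsd
    have h1 : (hfin _ _ (hroot w)).toFinset = insert (u, w) (hfin _ _ (hroot u)).toFinset := by
      ext e
      simp only [Set.Finite.mem_toFinset, Finset.mem_insert, ← hroot' u w huw]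
      constructor
      · exact fun he => hstep _ _ _ huw he
      · rintro (rfl | he)
        · exact ⟨huw, side_self _ _, hns⟩
        · rcases hstep _ _ _ (hs _ _ huw) he with rfl | h
          · exact absurd hsd he.2.2
          · exact h
    simp only [p]
    rw [h1, Finset.sum_insert]
    · simp
    · simp only [Set.Finite.mem_toFinset]
      exact fun h => hac _ _ huw h.2.1
  refine ⟨p, fun u w huw => ?_⟩
  rcases side_or (w := w) (rtg_symm hs (hroot u)) with h | h
  · have := key w u (hs _ _ huw) (by rwa [← hroot' u w huw])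
    rw [hc _ _ huw] at this
    rw [← neg_sub, this, neg_neg]
  · exact key u w huw h

lemma potential_rtg {A : Type*} {R : Γ → Γ → Prop} {f : Γ → A} (h : ∀ u w, R u w → f u = f w)
    {x y : Γ} (hxy : ReflTransGen R x y) : f x = f y := by
  induction hxy with
  | refl => rfl
  | tail _ h2 ih => exact ih.trans (h _ _ h2)

lemma eq_of_eqvGen {A : Type*} {R : Γ → Γ → Prop} {f : Γ → A} (h : ∀ u w, R u w → f u = f w)
    {x y : Γ} (hxy : EqvGen R x y) : f x = f y := by
  induction hxy with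
  | rel _ _ h1 => exact h _ _ h1
  | refl => rfl
  | symm _ _ _ ih => exact ih.symm
  | trans _ _ _ _ _ ih1 ih2 => exact ih1.trans ih2

section td
variable {G : SimpleGraph Γ} {r : ℕ} {b φ : Γ → Γ → Prop}

lemma IsTD.walk (h : IsTD G r t b φ) {v x : Γ} (hv : b v x) :
    ReflTransGen (fun p q => t p q ∧ b p x ∧ b q x) x v := by
  have : ∀ v, ReflTransGen (fun p q => t p q ∧ b q x) x v →
      ReflTransGen (fun p q => t p q ∧ b p x ∧ b q x) x v ∧ b v x := by
    intro v hv
    induction hv with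
    | refl => exact ⟨.refl, h.b_self _⟩
    | tail _ h2 ih => exact ⟨ih.1.tail ⟨h2.1, ih.2, h2.2⟩, h2.2⟩
  exact (this v (h.b_walk v x hv)).1

lemma IsTD.bag_conn (h : IsTD G r t b φ) {v x : Γ} (hv : b v x) : ReflTransGen t v x :=
  rtg_symm h.t_symm (rtg_mono (fun _ _ h => h.1) (h.b_walk v x hv))

lemma IsTD.φ_conn (h : IsTD G r t b φ) {x y : Γ} (hxy : φ x y) : ReflTransGen t x y :=
  h.bag_conn (h.φ_bag _ _ hxy)

lemma IsTD.sep_of_sides (h : IsTD G r t b φ) {u w v₁ v₂ x : Γ} (huw : t u w)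
    (h1 : side t u w v₁) (h2 : side t w u v₂) (hb1 : b v₁ x) (hb2 : b v₂ x) : x ∈ sep b u w := by
  have hw : ReflTransGen (fun p q => t p q ∧ b p x ∧ b q x) v₁ v₂ :=
    (rtg_symm (fun p q h' => ⟨h.t_symm _ _ h'.1, h'.2.2, h'.2.1⟩) (h.walk hb1)).trans (h.walk hb2)
  have h2' : ¬ side t u w v₂ := fun h' => side_disj h.t_symm h.acyc huw h' h2
  clear hb2 h2
  induction hw with
  | refl => exact absurd h1 h2'
  | @tail p q _ hpq ih =>
    by_cases hp : side t u w p
    · obtain ⟨rfl, rfl⟩ := side_cross h.acyc huw hp hpq.1 h2'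
      exact ⟨hpq.2.2, hpq.2.1⟩
    · exact ih hp

lemma IsTD.bag_finite (h : IsTD G r t b φ) (v : Γ) : {x | b v x}.Finite :=
  Set.finite_of_encard_le_coe (h.b_card v)

lemma IsTD.nbr_finite (h : IsTD G r t b φ) (v : Γ) : {w | t v w}.Finite :=
  Set.finite_of_encard_le_coe (h.t_deg v)

lemma sep_subset (b : Γ → Γ → Prop) (u w : Γ) : sep b u w ⊆ {x | b u x} := fun _ h => h.1

lemma sep_comm (b : Γ → Γ → Prop) (u w : Γ) : sep b u w = sep b w u := by
  ext x; exact and_comm

lemma IsTD.sep_finite (h : IsTD G r t b φ) (u w : Γ) : (sep b u w).Finite :=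
  (h.bag_finite u).subset (sep_subset b u w)

lemma IsTD.bag_ncard (h : IsTD G r t b φ) (v : Γ) : {x | b v x}.ncard ≤ r := by
  have := h.b_card v
  rw [← (h.bag_finite v).cast_ncard_eq] at this
  exact_mod_cast this

lemma IsTD.sep_ncard (h : IsTD G r t b φ) (u w : Γ) : (sep b u w).ncard ≤ r :=
  (Set.ncard_le_ncard (sep_subset b u w) (h.bag_finite u)).trans (h.bag_ncard u)

end td

lemma eqvGen_mem {R : Γ → Γ → Prop} {V : Set Γ} (hR : ∀ p q, R p q → p ∈ V ∧ q ∈ V) {x y : Γ}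
    (h : EqvGen R x y) : x = y ∨ (x ∈ V ∧ y ∈ V) := by
  induction h with
  | rel _ _ h => exact .inr (hR _ _ h)
  | refl => exact .inl rfl
  | symm _ _ _ ih => exact ih.imp Eq.symm And.symm
  | trans _ _ _ _ _ ih1 ih2 =>
    rcases ih1 with rfl | h1
    · exact ih2
    · rcases ih2 with rfl | h2
      · exact .inr h1
      · exact .inr ⟨h1.1, h2.2⟩

/-- Two-sided gluing: if neither side changes its trace on the separator, the union does not. -/
theorem glue {R₁ R₂ R₁' R₂' : Γ → Γ → Prop} {V₁ V₂ S : Set Γ}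
    (h1 : ∀ p q, R₁' p q → p ∈ V₁ ∧ q ∈ V₁) (h2 : ∀ p q, R₂' p q → p ∈ V₂ ∧ q ∈ V₂)
    (hS : ∀ x, x ∈ V₁ → x ∈ V₂ → x ∈ S)
    (e1 : ∀ x ∈ S, ∀ y ∈ S, EqvGen R₁' x y → EqvGen R₁ x y)
    (e2 : ∀ x ∈ S, ∀ y ∈ S, EqvGen R₂' x y → EqvGen R₂ x y)
    {x y : Γ} (hx : x ∈ S) (hy : y ∈ S) (h : EqvGen (fun p q => R₁' p q ∨ R₂' p q) x y) :
    EqvGen (fun p q => R₁ p q ∨ R₂ p q) x y := by
  have l1 : ∀ {p q}, EqvGen R₁ p q → EqvGen (fun p q => R₁ p q ∨ R₂ p q) p q :=
    fun h => eqvGen_mono (fun _ _ h => .rel _ _ (.inl h)) h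
  have l2 : ∀ {p q}, EqvGen R₂ p q → EqvGen (fun p q => R₁ p q ∨ R₂ p q) p q :=
    fun h => eqvGen_mono (fun _ _ h => .rel _ _ (.inr h)) h
  have key : ∀ y, ReflTransGen (fun p q => (R₁' p q ∨ R₂' p q) ∨ (R₁' q p ∨ R₂' q p)) x y →
      ∃ s ∈ S, EqvGen (fun p q => R₁ p q ∨ R₂ p q) x s ∧ (EqvGen R₁' s y ∨ EqvGen R₂' s y) := by
    intro y hy
    induction hy with
    | refl => exact ⟨x, hx, .refl _, .inl (.refl _)⟩
    | @tail p q _ hpq ih =>
      obtain ⟨s, hs, hxs, hsp⟩ := ih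
      have hpq' : (EqvGen R₁' p q ∧ p ∈ V₁) ∨ (EqvGen R₂' p q ∧ p ∈ V₂) := by
        rcases hpq with (h | h) | (h | h)
        · exact .inl ⟨.rel _ _ h, (h1 _ _ h).1⟩
        · exact .inr ⟨.rel _ _ h, (h2 _ _ h).1⟩
        · exact .inl ⟨.symm _ _ (.rel _ _ h), (h1 _ _ h).2⟩
        · exact .inr ⟨.symm _ _ (.rel _ _ h), (h2 _ _ h).2⟩
      rcases hsp with hsp | hsp <;> rcases hpq' with ⟨h, hp⟩ | ⟨h, hp⟩
      · exact ⟨s, hs, hxs, .inl (.trans _ _ _ hsp h)⟩
      · rcases eqvGen_mem h1 hsp with rfl | hm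
        · exact ⟨s, hs, hxs, .inr h⟩
        · have hpS := hS p hm.2 hp
          exact ⟨p, hpS, .trans _ _ _ hxs (l1 (e1 _ hs _ hpS hsp)), .inr h⟩
      · rcases eqvGen_mem h2 hsp with rfl | hm
        · exact ⟨s, hs, hxs, .inl h⟩
        · have hpS := hS p hp hm.2
          exact ⟨p, hpS, .trans _ _ _ hxs (l2 (e2 _ hs _ hpS hsp)), .inl h⟩
      · exact ⟨s, hs, hxs, .inr (.trans _ _ _ hsp h)⟩
  obtain ⟨s, hs, hxs, hsy⟩ := key y (eqvGen_iff_rtg.1 h)
  rcases hsy with h | h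
  · exact .trans _ _ _ hxs (l1 (e1 _ hs _ hy h))
  · exact .trans _ _ _ hxs (l2 (e2 _ hs _ hy h))

end Pool.Agent.FusfTree
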