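import Pool.Agent.P.MP_8fb1ed_pr.Basic

/-! Counting classes of an equivalence relation inside a finite set. -/

open Relation MeasureTheory
open scoped ENNReal

namespace Pool.Agent.FusfTree

variable {Γ : Type*}

/-- `y` is the `n`-least point of its class in `A`. -/
def Rep {L : Type*} [LinearOrder L] (n : Γ → L) (ρ : Γ → Γ → Prop) (A : Set Γ) (y : Γ) : Prop :=
  y ∈ A ∧ ∀ z, z ∈ A → ρ y z → n y ≤ n z

section rep
variable {L : Type*} [LinearOrder L] {n : Γ → L} {ρ ρ' : Γ → Γ → Prop} {A B : Set Γ}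

lemma exists_rep (n : Γ → L) (hρ : Equivalence ρ) (hA : A.Finite) {x : Γ} (hx : x ∈ A) :
    ∃ y, Rep n ρ A y ∧ ρ x y := by
  obtain ⟨y, hy, hmin⟩ := Set.exists_min_image {z | z ∈ A ∧ ρ x z} n
    (hA.subset fun _ h => h.1) ⟨x, hx, hρ.refl x⟩
  exact ⟨y, ⟨hy.1, fun z hz hyz => hmin z ⟨hz, hρ.trans hy.2 hyz⟩⟩, hy.2⟩

lemma Rep.unique (hn : Function.Injective n) (hρ : Equivalence ρ) {y y' : Γ} (h : Rep n ρ A y)
    (h' : Rep n ρ A y') (hyy : ρ y y') : y = y' :=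
  hn (le_antisymm (h.2 _ h'.1 hyy) (h'.2 _ h.1 (hρ.symm hyy)))

lemma Rep.of_le (hle : ∀ x ∈ A, ∀ y ∈ A, ρ x y → ρ' x y) {y : Γ} (h : Rep n ρ' A y) :
    Rep n ρ A y := ⟨h.1, fun z hz hyz => h.2 z hz (hle _ h.1 _ hz hyz)⟩

lemma rep_finite (hA : A.Finite) : {y | Rep n ρ A y}.Finite := hA.subset fun _ h => h.1

lemma ncl_eq_rep (hn : Function.Injective n) (hρ : Equivalence ρ) (hA : A.Finite) :
    ncl ρ A = {y | Rep n ρ A y}.ncard := by
  have h1 : (fun x => {y | y ∈ A ∧ ρ x y}) '' A =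
      (fun x => {y | y ∈ A ∧ ρ x y}) '' {y | Rep n ρ A y} := by
    apply Set.Subset.antisymm
    · rintro _ ⟨x, hx, rfl⟩
      obtain ⟨y, hy, hxy⟩ := exists_rep n hρ hA hx
      refine ⟨y, hy, ?_⟩
      ext z
      exact and_congr_right fun _ => ⟨fun h => hρ.trans hxy h, fun h => hρ.trans (hρ.symm hxy) h⟩
    · exact Set.image_mono fun _ h => h.1
  rw [ncl, h1, Set.InjOn.ncard_image]
  intro y hy y' hy' h
  have : y' ∈ {z | z ∈ A ∧ ρ y' z} := ⟨hy'.1, hρ.refl _⟩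
  have h2 : {z | z ∈ A ∧ ρ y z} = {z | z ∈ A ∧ ρ y' z} := h
  rw [← h2] at this
  exact Rep.unique hn hρ hy hy' this.2

lemma ncl_sub_eq (hn : Function.Injective n) (hρ : Equivalence ρ) (hρ' : Equivalence ρ')
    (hA : A.Finite) (hle : ∀ x ∈ A, ∀ y ∈ A, ρ x y → ρ' x y) :
    ncl ρ A - ncl ρ' A = {y | Rep n ρ A y ∧ ¬ Rep n ρ' A y}.ncard := by
  rw [ncl_eq_rep hn hρ hA, ncl_eq_rep hn hρ' hA,
    ← Set.ncard_sdiff (s := {y | Rep n ρ' A y}) (t := {y | Rep n ρ A y})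
      (fun y hy => Rep.of_le hle hy) (rep_finite hA)]
  rfl

end rep

variable [Countable Γ] {ρ ρ' : Γ → Γ → Prop} {A B : Set Γ}

omit [Countable Γ] in
lemma ncl_congr (h : ∀ x ∈ A, ∀ y ∈ A, ρ x y ↔ ρ' x y) : ncl ρ A = ncl ρ' A := by
  unfold ncl
  congr 1
  refine Set.image_congr fun x hx => ?_
  ext y
  exact and_congr_right fun hy => h x hx y hy

omit [Countable Γ] in
lemma ncl_le (hA : A.Finite) : ncl ρ A ≤ A.ncard := Set.ncard_image_le hA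

lemma ncl_anti (hρ : Equivalence ρ) (hρ' : Equivalence ρ') (hA : A.Finite)
    (hle : ∀ x ∈ A, ∀ y ∈ A, ρ x y → ρ' x y) : ncl ρ' A ≤ ncl ρ A := by
  obtain ⟨n, hn⟩ := exists_injective_nat Γ
  rw [ncl_eq_rep hn hρ hA, ncl_eq_rep hn hρ' hA]
  exact Set.ncard_le_ncard (fun y hy => Rep.of_le hle hy) (rep_finite hA)

lemma ncl_lt (hρ : Equivalence ρ) (hρ' : Equivalence ρ') (hA : A.Finite)
    (hle : ∀ x ∈ A, ∀ y ∈ A, ρ x y → ρ' x y) {x y : Γ} (hx : x ∈ A) (hy : y ∈ A) (h' : ρ' x y)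
    (h : ¬ ρ x y) : ncl ρ' A < ncl ρ A := by
  obtain ⟨n, hn⟩ := exists_injective_nat Γ
  rw [ncl_eq_rep hn hρ hA, ncl_eq_rep hn hρ' hA]
  refine Set.ncard_lt_ncard ⟨fun y hy => Rep.of_le hle hy, fun hsub => ?_⟩ (rep_finite hA)
  obtain ⟨x', hx', hxx⟩ := exists_rep n hρ hA hx
  obtain ⟨y', hy', hyy⟩ := exists_rep n hρ hA hy
  have : x' = y' := Rep.unique hn hρ' (hsub hx') (hsub hy')
    (hρ'.trans (hρ'.symm (hle _ hx _ hx'.1 hxx)) (hρ'.trans h' (hle _ hy _ hy'.1 hyy)))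
  subst this
  exact h (hρ.trans hxx (hρ.symm hyy))

lemma ncl_sub_mono (hρ : Equivalence ρ) (hρ' : Equivalence ρ') (hB : B.Finite) (hAB : A ⊆ B)
    (hle : ∀ x ∈ B, ∀ y ∈ B, ρ x y → ρ' x y) : ncl ρ A - ncl ρ' A ≤ ncl ρ B - ncl ρ' B := by
  classical
  obtain ⟨n, hn⟩ := exists_injective_nat Γ
  let m : Γ → ℕ ×ₗ ℕ := fun y => toLex (if y ∈ A then 0 else 1, n y)
  have hm : Function.Injective m := fun y z h => hn (congrArg (fun p => (ofLex p).2) h)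
  rw [ncl_sub_eq hm hρ hρ' (hB.subset hAB) fun x hx y hy => hle x (hAB hx) y (hAB hy),
    ncl_sub_eq hm hρ hρ' hB hle]
  refine Set.ncard_le_ncard ?_ (hB.subset fun _ h => h.1.1)
  rintro y ⟨h1, h2⟩
  refine ⟨⟨hAB h1.1, fun z hz hyz => ?_⟩, fun h => h2 ⟨h1.1, fun z hz hyz => h.2 z (hAB hz) hyz⟩⟩
  by_cases hzA : z ∈ A
  · exact h1.2 z hzA hyz
  · simp only [m, if_pos h1.1, if_neg hzA]
    exact le_of_lt (Prod.Lex.toLex_lt_toLex.2 (.inl zero_lt_one))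

lemma measurable_ncl {Ω : Type*} [MeasurableSpace Ω] {ρ : Ω → Γ → Γ → Prop} {A : Ω → Set Γ}
    (hρ : ∀ ω, Equivalence (ρ ω)) (hA : ∀ ω, (A ω).Finite)
    (hm : ∀ x y, Measurable fun ω => ρ ω x y) (hAm : ∀ x, Measurable fun ω => x ∈ A ω) :
    Measurable fun ω => ncl (ρ ω) (A ω) := by
  obtain ⟨n, hn⟩ := exists_injective_nat Γ
  have : (fun ω => ncl (ρ ω) (A ω)) = fun ω => {y | Rep n (ρ ω) (A ω) y}.ncard :=
    funext fun ω => ncl_eq_rep hn (hρ ω) (hA ω)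
  rw [this]
  refine measurable_ncard.comp (measurable_set_iff.2 fun y => ?_)
  exact (hAm y).and (Measurable.forall fun z => (hAm z).imp ((hm y z).imp measurable_const))

lemma ncl_equiv (e : Γ ≃ Γ) (hρ : Equivalence ρ) (hρ' : Equivalence ρ') (hA : A.Finite)
    (h : ∀ x y, ρ' (e x) (e y) ↔ ρ x y) (hAB : ∀ x, e x ∈ B ↔ x ∈ A) : ncl ρ' B = ncl ρ A := by
  obtain ⟨n, hn⟩ := exists_injective_nat Γ
  have hB : B.Finite := (hA.image e).subset fun y hy =>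
    ⟨e.symm y, (hAB _).1 (by simpa using hy), by simp⟩
  rw [ncl_eq_rep hn hρ' hB, ncl_eq_rep (n := n ∘ e) (hn.comp e.injective) hρ hA,
    ← Set.ncard_image_of_injective {y | Rep (n ∘ e) ρ A y} e.injective]
  congr 1
  ext y
  obtain ⟨x, rfl⟩ := e.surjective y
  simp only [Set.mem_ofPred_eq, e.injective.mem_set_image, Rep, hAB, Function.comp]
  refine and_congr_right fun _ => ?_
  rw [e.surjective.forall]
  simp only [hAB, h]

end Pool.Agent.FusfTree
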