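import Pool.Agent.P.MP_8fb1ed_pr.Kappa
import Pool.Agent.P.MP_8fb1ed_pr.Forest
import Pool.Agent.P.MP_8fb1ed_pr.Ncl

/-! The dimension count on a tree decomposition. -/

open Relation Filter MeasureTheory Topology
open scoped ENNReal

namespace Pool.Agent.FusfTree

variable {Γ : Type*}

/-- Functions on the bags that agree up to constants on separators glue to a global function. -/
lemma glue_bags {G : SimpleGraph Γ} {r : ℕ} {t b φ σ : Γ → Γ → Prop} (h : IsTD G r t b φ)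
    (hσ : Equivalence σ) (f : Γ → Γ → ℝ)
    (hf : ∀ u w, t u w → ∀ x ∈ sep b u w, ∀ y ∈ sep b u w, σ x y →
      f u x - f w x = f u y - f w y) :
    ∃ F : Γ → ℝ, ∀ v x y, b v x → b v y → σ x y → f v x - f v y = F x - F y := by
  classical
  rcases isEmpty_or_nonempty Γ with hΓ | hΓ
  · exact ⟨fun _ => 0, fun v => isEmptyElim v⟩
  let e : (Γ → Prop) → Set Γ → Γ := fun C A => Classical.epsilon fun x => x ∈ A ∧ C x
  have he : ∀ C A x, x ∈ A → C x → e C A ∈ A ∧ C (e C A) := fun C A x h1 h2 =>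
    Classical.epsilon_spec (p := fun x => x ∈ A ∧ C x) ⟨x, h1, h2⟩
  choose p hp using fun C : Γ → Prop => exists_potential h.t_symm h.acyc
    (fun u w => f u (e C (sep b u w)) - f w (e C (sep b u w))) fun u w _ => by
      rw [sep_comm b w u]; ring
  have key : ∀ v x, b v x → f x x + p (σ x) x = f v x + p (σ x) v := by
    intro v x hv
    refine potential_rtg (f := fun q => f q x + p (σ x) q) (fun u w huw => ?_) (h.walk hv)
    have h1 := hp (σ x) u w huw.1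
    have h2 := he (σ x) (sep b u w) x huw.2 (hσ.refl x)
    have h3 := hf u w huw.1 x huw.2 _ h2.1 h2.2
    linarith
  refine ⟨fun x => f x x + p (σ x) x, fun v x y hx hy hxy => ?_⟩
  have : σ x = σ y := by
    ext z
    exact ⟨fun h' => hσ.trans (hσ.symm hxy) h', fun h' => hσ.trans hxy h'⟩
  have h1 := key v x hx
  have h2 := key v y hy
  rw [← this] at h2
  change _ = f x x + p (σ x) x - (f y y + p (σ y) y)
  rw [← this]
  linarith

lemma encard_pairs_le {ι : Type*} {r : ℕ} {A B : Set Γ} (hA : A.encard ≤ r) (hB : B.encard ≤ r)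
    {S : Set ι} (f : ι → Γ × Γ) (hf : Set.InjOn f S) (hS : ∀ i ∈ S, (f i).1 ∈ A ∧ (f i).2 ∈ B) :
    S.encard ≤ (r * r : ℕ) := by
  refine (Set.encard_le_encard_of_injOn (t := A ×ˢ B) hS hf).trans ?_
  rw [Set.encard_prod, Nat.cast_mul]
  exact mul_le_mul' hA hB

variable {Ω : Type*} [Group Γ] [Countable Γ] [MeasurableSpace Ω] {a : Γ → Ω → Ω}

/-- The order on `Γ` seen from `v`. -/
def ord (en : Γ → ℕ) (v y : Γ) : ℕ := en (v⁻¹ * y)

omit [Countable Γ] in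
lemma ord_inj {en : Γ → ℕ} (hen : Function.Injective en) (v : Γ) :
    Function.Injective (ord en v) := fun _ _ h => mul_left_cancel (hen h)

omit [Group Γ] in
lemma rep_meas {ρ : Ω → Γ → Γ → Prop} (hρ : ∀ x y, Measurable fun ω => ρ ω x y) {A : Ω → Set Γ}
    (hA : ∀ x, Measurable fun ω => x ∈ A ω) (n : Γ → ℕ) (y : Γ) :
    Measurable fun ω => Rep n (ρ ω) (A ω) y :=
  (hA y).and (Measurable.forall fun z => (hA z).imp ((hρ y z).imp measurable_const))

omit [Countable Γ] in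
lemma rep_eqv {ρ ρ' : Γ → Γ → Prop} {A A' : Set Γ} (g : Γ)
    (hρ : ∀ x y, ρ' (g * x) (g * y) ↔ ρ x y) (hA : ∀ x, g * x ∈ A' ↔ x ∈ A) (en : Γ → ℕ)
    (v y : Γ) : Rep (ord en (g * v)) ρ' A' (g * y) ↔ Rep (ord en v) ρ A y := by
  unfold Rep
  rw [hA, forall_smul g]
  simp only [smul_eq_mul, hA, hρ, ord, mul_inv_rev, mul_assoc, inv_mul_cancel_left]

open Classical in
theorem bethe_core {G : SimpleGraph Γ} (hG : Cay G) {P : Measure Ω} [IsProbabilityMeasure P]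
    (ha : ∀ g, MeasurePreserving (a g) P P) {r : ℕ} {t b φ ρ o : Ω → Γ → Γ → Prop}
    (td : ∀ ω, IsTD G r (t ω) (b ω) (φ ω)) (ht : RRel a t) (hb : RRel a b) (hφ : RRel a φ)
    (hρ : RRel a ρ) (ho : RRel a o) {F : Ω → Cfg Γ} (Fm : Measurable F)
    (Fe : ∀ g ω, F (a g ω) = shift g (F ω)) (hρe : ∀ ω, Equivalence (ρ ω))
    (hρ1 : ∀ ω x y, ρ ω x y → EqvGen (φ ω) x y)
    (hρ2 : ∀ ω x y, φ ω x y → F ω s(x, y) = true → ρ ω x y)
    (hor : ∀ ω u w, t ω u w → o ω u w ∨ o ω w u) {ε : ℝ≥0∞}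
    (hε : ∀ y, G.Adj 1 y → P {ω | ¬ φ ω 1 y} ≤ ε)
    {cyc : ℕ → List (Γ × Γ)} {C : ℕ → L2 (Γ × Γ) →L[ℝ] L2 Γ} (hcyc : ∀ k, IsCyc G (cyc k))
    (hC : ∀ k, ROp (fun (_ : Γ) (u : Unit) => u) fun _ => C k)
    (hC' : ∀ k θ x, C k θ x = ((cyc k).map fun e => θ (x * e.1, x * e.2)).sum) (n : ℕ) :
    ∫⁻ ω, ((ncl (ρ ω) {x | b ω 1 x} - ncl (EqvGen (φ ω)) {x | b ω 1 x} : ℕ) : ℝ≥0∞) ∂P ≤
      ∫⁻ ω, ∑' w, (if t ω 1 w ∧ o ω 1 w then
        ((ncl (ρ ω) (sep (b ω) 1 w) - ncl (EqvGen (φ ω)) (sep (b ω) 1 w) : ℕ) : ℝ≥0∞) else 0) ∂P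
      + (∑ k ∈ Finset.range n, ((cyc k).length : ℝ≥0∞)) * ε
      + dim (P.map F) (Prod.fst : Γ × Γ → Γ) (kap G C n) := by
  obtain ⟨en, hen⟩ := exists_injective_nat Γ
  set σ : Ω → Γ → Γ → Prop := fun ω => EqvGen (φ ω) with hσdef
  have hσ : RRel a σ := hφ.eqvGen
  have hσe : ∀ ω, Equivalence (σ ω) := fun ω => EqvGen.is_equivalence _
  have hsm : ∀ u w x, Measurable fun ω => x ∈ sep (b ω) u w :=
    fun u w x => (hb.meas u x).and (hb.meas w x)
  have hse : ∀ g ω u w x, g * x ∈ sep (b (a g ω)) (g * u) (g * w) ↔ x ∈ sep (b ω) u w :=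
    fun g ω u w x => and_congr (hb.eqv g ω u x) (hb.eqv g ω w x)
  -- representatives in bags and separators
  have mB : ∀ {τ : Ω → Γ → Γ → Prop}, RRel a τ →
      RRel a fun ω v y => Rep (ord en v) (τ ω) {x | b ω v x} y := fun hτ =>
    ⟨fun v y => rep_meas hτ.meas (hb.meas v) _ y,
      fun g ω v y => rep_eqv g (hτ.eqv g ω) (hb.eqv g ω v) en v y⟩
  have mS : ∀ {τ : Ω → Γ → Γ → Prop}, RRel a τ →
      RRel a fun ω (p : Γ × Γ) y => Rep (ord en p.1) (τ ω) (sep (b ω) p.1 p.2) y := fun hτ =>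
    ⟨fun p y => rep_meas hτ.meas (hsm p.1 p.2) _ y,
      fun g ω p y => rep_eqv g (hτ.eqv g ω) (hse g ω p.1 p.2) en p.1 y⟩
  let U : Ω → Γ × Γ → Prop := fun ω i =>
    Rep (ord en i.1) (ρ ω) {x | b ω i.1 x} i.2 ∧ ¬ Rep (ord en i.1) (σ ω) {x | b ω i.1 x} i.2
  let V : Ω → (Γ × Γ) × Γ → Prop := fun ω j => (t ω j.1.1 j.1.2 ∧ o ω j.1.1 j.1.2) ∧
    Rep (ord en j.1.1) (ρ ω) (sep (b ω) j.1.1 j.1.2) j.2 ∧
      ¬ Rep (ord en j.1.1) (σ ω) (sep (b ω) j.1.1 j.1.2) j.2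
  have hU : RSet a U := ⟨fun i => ((mB hρ).meas _ _).and ((mB hσ).meas _ _).not,
    fun g ω i => and_congr ((mB hρ).eqv g ω _ _) (not_congr ((mB hσ).eqv g ω _ _))⟩
  have hV : RSet a V := ⟨fun j => ((ht.meas _ _).and (ho.meas _ _)).and
      (((mS hρ).meas j.1 _).and ((mS hσ).meas j.1 _).not),
    fun g ω j => and_congr (and_congr (ht.eqv g ω _ _) (ho.eqv g ω _ _))
      (and_congr ((mS hρ).eqv g ω j.1 _) (not_congr ((mS hσ).eqv g ω j.1 _)))⟩
  -- the extension operator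
  obtain ⟨E, hE, hE1, -⟩ := exists_pull (a := a) (R := fun ω (j i : Γ × Γ) => i.1 = j.1 ∧
      b ω j.1 j.2 ∧ Rep (ord en j.1) (ρ ω) {x | b ω j.1 x} i.2 ∧ ρ ω j.2 i.2)
    ⟨fun j i => measurable_const.and ((hb.meas _ _).and (((mB hρ).meas _ _).and (hρ.meas _ _))),
      fun g ω j i => and_congr (by simp) (and_congr (hb.eqv g ω _ _)
        (and_congr ((mB hρ).eqv g ω _ _) (hρ.eqv g ω _ _)))⟩
    (fun ω j i i' h h' => Prod.ext (h.1.trans h'.1.symm) (Rep.unique (ord_inj hen _) (hρe ω)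
      h.2.2.1 h'.2.2.1 ((hρe ω).trans ((hρe ω).symm h.2.2.2) h'.2.2.2))) r
    fun ω i => (Set.encard_le_encard_of_injOn (f := Prod.snd) (t := {x | b ω i.1 x})
      (fun j hj => by have := hj.2.1; rwa [← hj.1] at this)
      fun j hj j' hj' h => Prod.ext (hj.1.symm.trans hj'.1) h).trans ((td ω).b_card _)
  -- the four evaluation operators on separators
  have fibL : ∀ ω (u : Γ) (S : Set ((Γ × Γ) × Γ)), (∀ j ∈ S, V ω j ∧ u = j.1.1) →
      S.encard ≤ (r * r : ℕ) := fun ω u S hS =>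
    encard_pairs_le ((td ω).t_deg u) ((td ω).b_card u) (fun j => (j.1.2, j.2))
      (fun j hj j' hj' h => Prod.ext (Prod.ext ((hS j hj).2.symm.trans (hS j' hj').2)
        (Prod.mk.inj h).1) (Prod.mk.inj h).2)
      fun j hj => by
        obtain ⟨h1, rfl⟩ := hS j hj
        exact ⟨h1.1.1, h1.2.1.1.1⟩
  have fibR : ∀ ω (u : Γ) (S : Set ((Γ × Γ) × Γ)), (∀ j ∈ S, V ω j ∧ u = j.1.2) →
      S.encard ≤ (r * r : ℕ) := fun ω u S hS =>
    encard_pairs_le ((td ω).t_deg u) ((td ω).b_card u) (fun j => (j.1.1, j.2))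
      (fun j hj j' hj' h => Prod.ext (Prod.ext (Prod.mk.inj h).1
        ((hS j hj).2.symm.trans (hS j' hj').2)) (Prod.mk.inj h).2)
      fun j hj => by
        obtain ⟨h1, rfl⟩ := hS j hj
        exact ⟨(td ω).t_symm _ _ h1.1.1, h1.2.1.1.2⟩
  obtain ⟨A1, hA1, hA1a, hA1b⟩ := exists_pull (a := a)
    (R := fun ω (j : (Γ × Γ) × Γ) (i : Γ × Γ) => V ω j ∧ i.1 = j.1.1 ∧ i.2 = j.2)
    ⟨fun j i => (hV.meas j).and measurable_const,
      fun g ω j i => and_congr (hV.eqv g ω j) (by simp)⟩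
    (fun ω j i i' h h' => Prod.ext (h.2.1.trans h'.2.1.symm) (h.2.2.trans h'.2.2.symm)) (r * r)
    fun ω i => fibL ω i.1 _ fun j hj => ⟨hj.1, hj.2.1⟩
  obtain ⟨A2, hA2, hA2a, hA2b⟩ := exists_pull (a := a)
    (R := fun ω (j : (Γ × Γ) × Γ) (i : Γ × Γ) => V ω j ∧ i.1 = j.1.2 ∧ i.2 = j.2)
    ⟨fun j i => (hV.meas j).and measurable_const,
      fun g ω j i => and_congr (hV.eqv g ω j) (by simp)⟩
    (fun ω j i i' h h' => Prod.ext (h.2.1.trans h'.2.1.symm) (h.2.2.trans h'.2.2.symm)) (r * r)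
    fun ω i => fibR ω i.1 _ fun j hj => ⟨hj.1, hj.2.1⟩
  obtain ⟨A3, hA3, hA3a, hA3b⟩ := exists_pull (a := a)
    (R := fun ω (j : (Γ × Γ) × Γ) (i : Γ × Γ) => V ω j ∧ i.1 = j.1.1 ∧
      Rep (ord en j.1.1) (σ ω) (sep (b ω) j.1.1 j.1.2) i.2 ∧ σ ω j.2 i.2)
    ⟨fun j i => (hV.meas j).and (measurable_const.and (((mS hσ).meas j.1 _).and (hσ.meas _ _))),
      fun g ω j i => and_congr (hV.eqv g ω j) (and_congr (by simp)
        (and_congr ((mS hσ).eqv g ω j.1 _) (hσ.eqv g ω _ _)))⟩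
    (fun ω j i i' h h' => Prod.ext (h.2.1.trans h'.2.1.symm) (Rep.unique (ord_inj hen _) (hσe ω)
      h.2.2.1 h'.2.2.1 ((hσe ω).trans ((hσe ω).symm h.2.2.2) h'.2.2.2))) (r * r)
    fun ω i => fibL ω i.1 _ fun j hj => ⟨hj.1, hj.2.1⟩
  obtain ⟨A4, hA4, hA4a, hA4b⟩ := exists_pull (a := a)
    (R := fun ω (j : (Γ × Γ) × Γ) (i : Γ × Γ) => V ω j ∧ i.1 = j.1.2 ∧
      Rep (ord en j.1.1) (σ ω) (sep (b ω) j.1.1 j.1.2) i.2 ∧ σ ω j.2 i.2)
    ⟨fun j i => (hV.meas j).and (measurable_const.and (((mS hσ).meas j.1 _).and (hσ.meas _ _))),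
      fun g ω j i => and_congr (hV.eqv g ω j) (and_congr (by simp)
        (and_congr ((mS hσ).eqv g ω j.1 _) (hσ.eqv g ω _ _)))⟩
    (fun ω j i i' h h' => Prod.ext (h.2.1.trans h'.2.1.symm) (Rep.unique (ord_inj hen _) (hσe ω)
      h.2.2.1 h'.2.2.1 ((hσe ω).trans ((hσe ω).symm h.2.2.2) h'.2.2.2))) (r * r)
    fun ω i => fibR ω i.1 _ fun j hj => ⟨hj.1, hj.2.1⟩
  -- the coboundary
  obtain ⟨B1, hB1, hB1a, hB1b⟩ := exists_pull (a := a)
    (R := fun ω (j i : Γ × Γ) => φ ω j.1 j.2 ∧ i.1 = j.1 ∧ i.2 = j.1)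
    ⟨fun j i => (hφ.meas _ _).and measurable_const,
      fun g ω j i => and_congr (hφ.eqv g ω _ _) (by simp)⟩
    (fun ω j i i' h h' => Prod.ext (h.2.1.trans h'.2.1.symm) (h.2.2.trans h'.2.2.symm)) r
    fun ω i => (Set.encard_le_encard_of_injOn (f := Prod.snd) (t := {x | b ω i.1 x})
      (fun j hj => by have := (td ω).φ_bag _ _ hj.1; rwa [← hj.2.1] at this)
      fun j hj j' hj' h => Prod.ext (hj.2.1.symm.trans hj'.2.1) h).trans ((td ω).b_card _)
  obtain ⟨B2, hB2, hB2a, hB2b⟩ := exists_pull (a := a)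
    (R := fun ω (j i : Γ × Γ) => φ ω j.1 j.2 ∧ i = j)
    ⟨fun j i => (hφ.meas _ _).and measurable_const,
      fun g ω j i => and_congr (hφ.eqv g ω _ _) (by simp)⟩
    (fun ω j i i' h h' => h.2.trans h'.2.symm) 1
    fun ω i => Set.encard_le_one_iff.2 fun j j' hj hj' => hj.2.symm.trans hj'.2
  let X : Ω → L2 (Γ × Γ) →L[ℝ] L2 ((Γ × Γ) × Γ) := fun ω =>
    (A1 ω - A2 ω - (A3 ω - A4 ω)).comp (E ω)
  have hX : ROp a X := ((hA1.sub hA2).sub (hA3.sub hA4)).comp hE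
  let D : Ω → L2 (Γ × Γ) →L[ℝ] L2 (Γ × Γ) := fun ω => (B1 ω - B2 ω).comp (E ω)
  have hD : ROp a D := (hB1.sub hB2).comp hE
  have hD1 : ∀ ω f x y, φ ω x y → D ω f (x, y) = E ω f (x, x) - E ω f (x, y) := by
    intro ω f x y h
    rw [← hB1a ω (E ω f) (x, y) (x, x) ⟨h, rfl, rfl⟩, ← hB2a ω (E ω f) (x, y) (x, y) ⟨h, rfl⟩]
    rfl
  have hD0 : ∀ ω f x y, ¬ φ ω x y → D ω f (x, y) = 0 := by
    intro ω f x y h
    have : D ω f (x, y) = B1 ω (E ω f) (x, y) - B2 ω (E ω f) (x, y) := rfl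
    rw [this, hB1b ω _ _ fun i hi => h hi.1, hB2b ω _ _ fun i hi => h hi.1, sub_zero]
  have hXe : ∀ ω f j, X ω f j =
      A1 ω (E ω f) j - A2 ω (E ω f) j - (A3 ω (E ω f) j - A4 ω (E ω f) j) := fun _ _ _ => rfl
  have hEρ : ∀ ω f v x y, b ω v x → b ω v y → ρ ω x y → E ω f (v, x) = E ω f (v, y) := by
    intro ω f v x y hx hy hxy
    obtain ⟨z, hz, hxz⟩ := exists_rep (ord en v) (hρe ω) ((td ω).bag_finite v) hx
    rw [hE1 ω f (v, x) (v, z) ⟨rfl, hx, hz, hxz⟩,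
      hE1 ω f (v, y) (v, z) ⟨rfl, hy, hz, (hρe ω).trans ((hρe ω).symm hxy) hxz⟩]
  -- gluing
  have hglue : ∀ ω f, X ω f = 0 → ∃ f' : Γ → ℝ, ∀ v x y, b ω v x → b ω v y → σ ω x y →
      E ω f (v, x) - E ω f (v, y) = f' x - f' y := by
    intro ω f hf
    refine glue_bags (td ω) (hσe ω) (fun v x => E ω f (v, x)) ?_
    have key : ∀ u w, t ω u w → o ω u w → ∀ x ∈ sep (b ω) u w, ∀ z,
        Rep (ord en u) (σ ω) (sep (b ω) u w) z → σ ω x z →
        E ω f (u, x) - E ω f (w, x) = E ω f (u, z) - E ω f (w, z) := by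
      intro u w huw hou x hx z hz hxz
      obtain ⟨y, hy, hxy⟩ := exists_rep (ord en u) (hρe ω) ((td ω).sep_finite u w) hx
      rw [hEρ ω f u x y hx.1 hy.1.1 hxy, hEρ ω f w x y hx.2 hy.1.2 hxy]
      have hyz : σ ω y z := (hσe ω).trans ((hσe ω).symm (hρ1 ω _ _ hxy)) hxz
      by_cases hys : Rep (ord en u) (σ ω) (sep (b ω) u w) y
      · rw [Rep.unique (ord_inj hen u) (hσe ω) hys hz hyz]
      · have hVj : V ω ((u, w), y) := ⟨⟨huw, hou⟩, hy, hys⟩
        have := hXe ω f ((u, w), y)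
        rw [hf, hA1a ω _ _ (u, y) ⟨hVj, rfl, rfl⟩, hA2a ω _ _ (w, y) ⟨hVj, rfl, rfl⟩,
          hA3a ω _ _ (u, z) ⟨hVj, rfl, hz, hyz⟩, hA4a ω _ _ (w, z) ⟨hVj, rfl, hz, hyz⟩] at this
        have h0 : (0 : L2 ((Γ × Γ) × Γ)) ((u, w), y) = 0 := rfl
        linarith
    have key2 : ∀ u w, t ω u w → o ω u w → ∀ x ∈ sep (b ω) u w, ∀ y ∈ sep (b ω) u w, σ ω x y →
        E ω f (u, x) - E ω f (w, x) = E ω f (u, y) - E ω f (w, y) := by
      intro u w huw hou x hx y hy hxy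
      obtain ⟨z, hz, hxz⟩ := exists_rep (ord en u) (hσe ω) ((td ω).sep_finite u w) hx
      rw [key u w huw hou x hx z hz hxz,
        key u w huw hou y hy z hz ((hσe ω).trans ((hσe ω).symm hxy) hxz)]
    intro u w huw x hx y hy hxy
    rcases hor ω u w huw with h | h
    · exact key2 u w huw h x hx y hy hxy
    · rw [sep_comm] at hx hy
      have := key2 w u ((td ω).t_symm _ _ huw) h x hx y hy hxy
      linarith
  -- the chain of subspaces
  have bfst : IsBase (Prod.fst : Γ × Γ → Γ) := fun _ _ => rfl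
  have hCD : ∀ k, ROp a fun ω => (C k).comp (D ω) := fun k =>
    ((hC k).factor (π := fun _ => ()) measurable_const fun _ _ => rfl).comp hD
  let K : ℕ → Ω → Submodule ℝ (L2 (Γ × Γ)) := fun k => Nat.rec
    (fun ω => coord (U ω) ⊓ LinearMap.ker (X ω : L2 (Γ × Γ) →ₗ[ℝ] L2 ((Γ × Γ) × Γ)))
    (fun k K ω => K ω ⊓ LinearMap.ker ((C k).comp (D ω) : L2 (Γ × Γ) →ₗ[ℝ] L2 Γ)) k
  have hK : ∀ k, RSub a (K k) := fun k => by
    induction k with
    | zero => exact hU.coord.inf_ker hX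
    | succ k ih => exact ih.inf_ker (hCD k)
  have hKmem : ∀ k ω f, f ∈ K k ω →
      (f ∈ coord (U ω) ∧ X ω f = 0) ∧ ∀ j < k, C j (D ω f) = 0 := fun k ω f => by
    induction k with
    | zero => exact fun h => ⟨h, fun j hj => absurd hj (Nat.not_lt_zero j)⟩
    | succ k ih =>
      intro h
      exact ⟨(ih h.1).1, Nat.forall_lt_succ_right.2 ⟨(ih h.1).2, h.2⟩⟩
  have s1 : dim P Prod.fst (fun ω => coord (U ω)) ≤
      dim P (fun j : (Γ × Γ) × Γ => j.1.1) (fun ω => coord (V ω)) + dim P Prod.fst (K 0) := by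
    refine dim_le ha bfst (fun _ _ => rfl) hU.coord hV.coord hX fun ω f _ j hj => ?_
    rw [hXe, hA1b ω _ _ fun i hi => hj hi.1, hA2b ω _ _ fun i hi => hj hi.1,
      hA3b ω _ _ fun i hi => hj hi.1, hA4b ω _ _ fun i hi => hj hi.1]
    simp
  have s2 : ∀ k, dim P Prod.fst (K k) ≤ (cyc k).length * ε + dim P Prod.fst (K (k + 1)) := by
    intro k
    let Bad : Ω → Γ → Prop := fun ω x => ∃ e, e ∈ cyc k ∧ ¬ φ ω (x * e.1) (x * e.2)
    have hBad : RSet a Bad := ⟨fun x => Measurable.exists fun e =>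
        measurable_const.and (hφ.meas _ _).not, fun g ω x => exists_congr fun e =>
        and_congr_right fun _ => not_congr (by
          simpa only [smul_eq_mul, mul_assoc] using hφ.eqv g ω (x * e.1) (x * e.2))⟩
    refine (dim_le ha bfst (β' := id) (fun _ _ => rfl) (hK k) hBad.coord (hCD k)
      fun ω f hf x hx => ?_).trans (add_le_add ?_ le_rfl)
    · obtain ⟨f', hf'⟩ := hglue ω f (hKmem k ω f hf).1.2
      have := (hcyc k).2 fun z => f' (x * z)
      rw [← this]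
      change C k (D ω f) x = _
      rw [hC']
      congr 1
      refine List.map_congr_left fun e he => ?_
      have h1 : φ ω (x * e.1) (x * e.2) := by
        by_contra h
        exact hx ⟨e, he, h⟩
      rw [hD1 ω f _ _ h1]
      exact hf' _ _ _ ((td ω).b_self _) ((td ω).φ_bag _ _ h1) (.rel _ _ h1)
    · rw [dim_coord]
      have h1 : ∀ ω, ({x | id x = 1 ∧ Bad ω x}.encard : ℝ≥0∞) ≤
          {ω | Bad ω 1}.indicator 1 ω := by
        intro ω
        by_cases h : Bad ω 1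
        · rw [Set.indicator_of_mem (show ω ∈ {ω | Bad ω 1} from h), Pi.one_apply]
          have : {x | id x = 1 ∧ Bad ω x}.encard ≤ 1 :=
            Set.encard_le_one_iff.2 fun x y hx hy => hx.1.trans hy.1.symm
          exact_mod_cast this
        · have : {x | id x = 1 ∧ Bad ω x} = ∅ := by
            ext x
            exact iff_of_false (fun hx => h (by have := hx.2; rwa [show x = 1 from hx.1] at this))
              id
          rw [this]
          simp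
      refine (lintegral_mono h1).trans ?_
      rw [lintegral_indicator_one (hBad.meas 1).setOf]
      have h2 : {ω | Bad ω 1} = ⋃ e ∈ (cyc k).toFinset, {ω | ¬ φ ω e.1 e.2} := by
        ext ω
        simp [Bad]
      rw [h2]
      refine (measure_biUnion_finset_le _ _).trans ((Finset.sum_le_card_nsmul _ _ ε ?_).trans ?_)
      · intro e he
        have h3 := (hcyc k).1 e (List.mem_toFinset.1 he)
        have hn : RRel a fun ω x y => ¬ φ ω x y :=
          ⟨fun x y => (hφ.meas x y).not, fun g ω x y => not_congr (hφ.eqv g ω x y)⟩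
        have h4 := hn.prob_eq ha e.1 1 (e.1⁻¹ * e.2)
        simp only [mul_one, mul_inv_cancel_left] at h4
        rw [h4]
        refine hε _ ((hG.inv e.1 _ _).1 ?_)
        simpa using h3
      · rw [nsmul_eq_mul]
        gcongr
        exact List.toFinset_card_le _
  have s3 : dim P Prod.fst (K n) ≤ dim (P.map F) (Prod.fst : Γ × Γ → Γ) (kap G C n) := by
    have hL := (kap_rsub hG hC n).factor Fm Fe
    refine (dim_le ha bfst bfst (hK n) hL hD fun ω f hf => ?_).trans ?_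
    · refine mem_kap.2 ⟨fun ⟨x, y⟩ he => ?_, (hKmem n ω f hf).2⟩
      by_cases h : φ ω x y
      · have h1 : F ω s(x, y) = true := by
          by_contra h'
          exact he ⟨(td ω).φ_adj _ _ h, h'⟩
        rw [hD1 ω f x y h, hEρ ω f x x y ((td ω).b_self _) ((td ω).φ_bag _ _ h) (hρ2 ω x y h h1),
          sub_self]
      · exact hD0 ω f x y h
    · rw [dim_factor _ (kap_rsub hG hC n) Fm,
        dim_bot (K := fun ω => K n ω ⊓ LinearMap.ker (D ω : L2 (Γ × Γ) →ₗ[ℝ] L2 (Γ × Γ))),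
        add_zero]
      intro ω
      refine (Submodule.eq_bot_iff _).2 fun f hf => ?_
      have hf0 : D ω f = 0 := hf.2
      obtain ⟨⟨hfU, hfX⟩, -⟩ := hKmem n ω f hf.1
      obtain ⟨f', hf'⟩ := hglue ω f hfX
      have hconst : ∀ x y, σ ω x y → f' x = f' y := fun x y h =>
        eq_of_eqvGen (fun u w huw => by
          have h1 := hD1 ω f u w huw
          rw [hf0, hf' _ _ _ ((td ω).b_self _) ((td ω).φ_bag _ _ huw) (.rel _ _ huw)] at h1
          have h0 : (0 : L2 (Γ × Γ)) (u, w) = 0 := rfl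
          linarith) h
      ext ⟨v, y⟩
      by_cases hy : U ω (v, y)
      · obtain ⟨z, hz, hyz⟩ := exists_rep (ord en v) (hσe ω) ((td ω).bag_finite v) hy.1.1
        have hz' : Rep (ord en v) (ρ ω) {x | b ω v x} z := hz.of_le fun x _ y _ => hρ1 ω x y
        have h1 := hf' v y z hy.1.1 hz.1 hyz
        rw [hE1 ω f (v, y) (v, y) ⟨rfl, hy.1.1, hy.1, (hρe ω).refl _⟩,
          hE1 ω f (v, z) (v, z) ⟨rfl, hz.1, hz', (hρe ω).refl _⟩, hconst y z hyz,
          hfU (v, z) fun h => h.2 hz] at h1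
        simpa using h1
      · exact hfU _ hy
  have s4 : ∀ k, dim P Prod.fst (K 0) ≤
      (∑ j ∈ Finset.range k, ((cyc j).length : ℝ≥0∞)) * ε + dim P Prod.fst (K k) := by
    intro k
    induction k with
    | zero => simp
    | succ k ih =>
      rw [Finset.sum_range_succ, add_mul, add_assoc]
      exact ih.trans (add_le_add le_rfl (s2 k))
  have e1 : dim P Prod.fst (fun ω => coord (U ω)) =
      ∫⁻ ω, ((ncl (ρ ω) {x | b ω 1 x} - ncl (σ ω) {x | b ω 1 x} : ℕ) : ℝ≥0∞) ∂P := by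
    rw [dim_coord]
    refine lintegral_congr fun ω => ?_
    rw [ncl_sub_eq (ord_inj hen 1) (hρe ω) (hσe ω) ((td ω).bag_finite 1) fun x _ y _ => hρ1 ω x y,
      ← ENat.toENNReal_coe, Set.Finite.cast_ncard_eq
        (((td ω).bag_finite 1).subset fun _ h => h.1.1),
      ← (Prod.mk_right_injective (1 : Γ)).encard_image {y : Γ | _}]
    refine congrArg (fun S : Set (Γ × Γ) => (S.encard : ℝ≥0∞)) ?_
    ext ⟨v, y⟩
    constructor
    · rintro ⟨rfl, h⟩
      exact ⟨y, h, rfl⟩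
    · rintro ⟨z, h, h'⟩
      obtain ⟨rfl, rfl⟩ := Prod.mk.inj h'
      exact ⟨rfl, h⟩
  have e2 : dim P (fun j : (Γ × Γ) × Γ => j.1.1) (fun ω => coord (V ω)) =
      ∫⁻ ω, ∑' w, (if t ω 1 w ∧ o ω 1 w then
        ((ncl (ρ ω) (sep (b ω) 1 w) - ncl (σ ω) (sep (b ω) 1 w) : ℕ) : ℝ≥0∞) else 0) ∂P := by
    rw [dim_coord]
    refine lintegral_congr fun ω => ?_
    rw [encard_eq_tsum, ENNReal.tsum_prod', ENNReal.tsum_prod', tsum_eq_single 1]
    · refine tsum_congr fun w => ?_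
      split_ifs with h
      · rw [ncl_sub_eq (ord_inj hen 1) (hρe ω) (hσe ω) ((td ω).sep_finite 1 w)
          fun x _ y _ => hρ1 ω x y, ← ENat.toENNReal_coe, Set.Finite.cast_ncard_eq
          (((td ω).sep_finite 1 w).subset fun _ h => h.1.1), encard_eq_tsum]
        refine tsum_congr fun y => ?_
        simp only [V, h, true_and, and_self]
      · simp [V, h]
    · intro u hu
      simp [hu]
  rw [← e1, ← e2, add_assoc]
  exact s1.trans (add_le_add le_rfl ((s4 n).trans (add_le_add le_rfl s3)))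

end Pool.Agent.FusfTree
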