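import Pool.Agent.P.MP_8fb1ed_pr.Defs

/-! Shared internal definitions and basic tools: random equivariant relations, mass transport,
tree decompositions, class counts. -/

open MeasureTheory Filter Topology Relation
open scoped ENNReal

namespace Pool.Agent.FusfTree

/-- Abstract Cayley graph: invariant, locally finite, connected. -/
structure Cay {Γ : Type*} [Group Γ] (G : SimpleGraph Γ) : Prop where
  inv : ∀ g x y, G.Adj (g * x) (g * y) ↔ G.Adj x y
  fin : {y | G.Adj 1 y}.Finite
  conn : G.Connected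

open Classical in
/-- No nonconstant function of finite Dirichlet energy is constant along the edges of `η`. -/
def Complete {Γ : Type*} (G : SimpleGraph Γ) (η : Cfg Γ) : Prop :=
  ∀ f : Γ → ℝ, Summable (fun p : Γ × Γ => if G.Adj p.1 p.2 then (f p.1 - f p.2) ^ 2 else 0) →
    (∀ x y, η s(x, y) = true → f x = f y) → ∀ x y, f x = f y

section rrel
variable {Γ Ω ι κ : Type*} [Group Γ] [MeasurableSpace Ω] [MulAction Γ ι] [MulAction Γ κ]

/-- A measurable equivariant random subset of a `Γ`-set. -/
structure RSet (a : Γ → Ω → Ω) (U : Ω → ι → Prop) : Prop where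
  meas : ∀ i, Measurable fun ω => U ω i
  eqv : ∀ g ω i, U (a g ω) (g • i) ↔ U ω i

/-- A measurable equivariant random relation. -/
structure RRel (a : Γ → Ω → Ω) (R : Ω → ι → κ → Prop) : Prop where
  meas : ∀ i j, Measurable fun ω => R ω i j
  eqv : ∀ g ω i j, R (a g ω) (g • i) (g • j) ↔ R ω i j

end rrel

/-- The vertices reachable from `w` in `t` without using the edge `uw`. -/
def side {Γ : Type*} (t : Γ → Γ → Prop) (u w : Γ) : Γ → Prop :=
  ReflTransGen (fun p q => t p q ∧ s(p, q) ≠ s(u, w)) w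

/-- A tree decomposition of the subgraph `φ` of `G`, indexed by a forest `t` on `Γ` itself:
`b v x` means that `x` lies in the bag of the node `v`. -/
structure IsTD {Γ : Type*} (G : SimpleGraph Γ) (r : ℕ) (t b φ : Γ → Γ → Prop) : Prop where
  t_symm : ∀ u w, t u w → t w u
  acyc : ∀ u w, t u w → ¬ side t u w u
  t_deg : ∀ u, {w | t u w}.encard ≤ r
  b_self : ∀ v, b v v
  b_card : ∀ v, {x | b v x}.encard ≤ r
  b_walk : ∀ v x, b v x → ReflTransGen (fun p q => t p q ∧ b q x) x v
  φ_symm : ∀ x y, φ x y → φ y x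
  φ_adj : ∀ x y, φ x y → G.Adj x y
  φ_bag : ∀ x y, φ x y → b x y

/-- Number of classes of `ρ` that meet `A`. -/
noncomputable def ncl {Γ : Type*} (ρ : Γ → Γ → Prop) (A : Set Γ) : ℕ :=
  ((fun x => {y | y ∈ A ∧ ρ x y}) '' A).ncard

/-- The separator of the tree edge `uw`. -/
def sep {Γ : Type*} (b : Γ → Γ → Prop) (u w : Γ) : Set Γ := {x | b u x ∧ b w x}

/-- Edges of `φ` that are active at time `s` seen from the root `o`: those in `η` and those
whose first end has level below `s`. -/
def act {Γ : Type*} (φ cn : Γ → Γ → Prop) (η : Cfg Γ) (lev : Γ → Γ → ℤ) (o : Γ) (s : ℤ)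
    (x y : Γ) : Prop :=
  cn o x ∧ φ x y ∧ (η s(x, y) = true ∨ lev o x < s)

/-- Some edge of `φ` at `o` is not spanned by `η` and the vertices of lower level. -/
def Needed {Γ : Type*} (φ cn : Γ → Γ → Prop) (η : Cfg Γ) (lev : Γ → Γ → ℤ) (o : Γ) : Prop :=
  ∃ y, φ o y ∧ ¬ EqvGen (act φ cn η lev o 0) o y

end Pool.Agent.FusfTree
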