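import Pool.Agent.P.MP_8fb1ed_pr.OpAlg

/-! Coordinate subspaces, continuity of dimension. -/

open MeasureTheory Filter Topology
open scoped ENNReal

namespace Pool.Agent.FusfTree

set_option linter.unusedSectionVars false

section aux

lemma isClosed_coord {ι : Type*} (U : ι → Prop) : IsClosed (coord U : Set (L2 ι)) := by
  have h : (coord U : Set (L2 ι)) = ⋂ i, ⋂ (_ : ¬ U i), {f : L2 ι | f i = 0} := by
    ext f
    simp only [Set.mem_iInter, Set.mem_ofPred_eq]
    rfl
  rw [h]
  refine isClosed_iInter fun i => isClosed_iInter fun _ => ?_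
  have hc : Continuous fun f : L2 ι => f i :=
    (continuous_apply i).comp lp.uniformContinuous_coe.continuous
  exact isClosed_eq hc continuous_const

open Classical in
lemma dl_apply' {ι : Type*} (i j : ι) :
    (dl i : L2 ι) j = if j = i then 1 else 0 := by
  unfold dl
  rw [lp.single_apply]
  by_cases h : j = i
  · subst h; simp
  · simp [h]

lemma inner_dl' {ι : Type*} (i : ι) (f : L2 ι) : inner ℝ (dl i : L2 ι) f = f i := by
  classical
  unfold dl
  rw [lp.inner_single_left]
  simp

lemma norm_dl' {ι : Type*} (i : ι) : ‖(dl i : L2 ι)‖ = 1 := by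
  classical
  unfold dl
  rw [lp.norm_single (by norm_num)]
  simp

variable {E : Type*} [NormedAddCommGroup E] [InnerProductSpace ℝ E] [CompleteSpace E]

lemma proj_norm_le' (K : Submodule ℝ E) : ‖proj K‖ ≤ 1 :=
  Submodule.starProjection_norm_le _

lemma proj_of_mem' {K : Submodule ℝ E} {v : E} (hv : v ∈ K) : proj K v = v :=
  Submodule.starProjection_eq_self_iff.mpr (K.le_topologicalClosure hv)

lemma proj_of_orth' {K : Submodule ℝ E} (hK : IsClosed (K : Set E)) {v : E}
    (hv : ∀ w ∈ K, inner ℝ v w = 0) : proj K v = 0 := by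
  unfold proj
  rw [Submodule.starProjection_apply_eq_zero_iff, Submodule.mem_orthogonal']
  intro w hw
  rw [hK.submodule_topologicalClosure_eq] at hw
  exact hv w hw

open Classical in
lemma proj_coord_dl {ι : Type*} (U : ι → Prop) (i : ι) :
    proj (coord U) (dl i : L2 ι) = if U i then dl i else 0 := by
  split_ifs with h
  · refine proj_of_mem' ?_
    intro j hj
    rw [dl_apply', if_neg]
    rintro rfl
    exact hj h
  · refine proj_of_orth' (isClosed_coord U) fun w hw => ?_
    rw [inner_dl']
    exact hw i h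

lemma norm_proj_anti' {K L : Submodule ℝ E} (h : K ≤ L) (v : E) : ‖proj K v‖ ≤ ‖proj L v‖ := by
  have h' : K.topologicalClosure ≤ L.topologicalClosure := Submodule.topologicalClosure_mono h
  have h2 := Submodule.starProjection_comp_starProjection_of_le h'
  have h3 : proj K v = K.topologicalClosure.starProjection (proj L v) := by
    exact (congrArg (fun T : E →L[ℝ] E => T v) h2).symm
  rw [h3]
  exact Submodule.norm_starProjection_apply_le _ _

lemma proj_tendsto_zero' {K : ℕ → Submodule ℝ E} (hc : ∀ n, IsClosed (K n : Set E))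
    (hanti : ∀ n, K (n + 1) ≤ K n) (hbot : ∀ v, (∀ n, v ∈ K n) → v = 0) (v : E) :
    Tendsto (fun n => proj (K n) v) atTop (𝓝 0) := by
  have hA : Antitone K := antitone_nat_of_succ_le hanti
  let U : ℕ → Submodule ℝ E := fun n => ((K n).topologicalClosure)ᗮ
  have hU : Monotone U := fun m n hmn =>
    Submodule.orthogonal_le (Submodule.topologicalClosure_mono (hA hmn))
  have htop : ⊤ ≤ (⨆ n, U n).topologicalClosure := by
    rw [top_le_iff, Submodule.topologicalClosure_eq_top_iff, eq_bot_iff]
    intro w hw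
    rw [Submodule.mem_bot]
    refine hbot w fun n => ?_
    have h1 : w ∈ (U n)ᗮ := Submodule.orthogonal_le (le_iSup U n) hw
    have h2 : (U n)ᗮ = K n := by
      simp only [U]
      rw [Submodule.orthogonal_orthogonal, (hc n).submodule_topologicalClosure_eq]
    rwa [h2] at h1
  have h := Submodule.starProjection_tendsto_self U hU v htop
  have h2 : ∀ n, proj (K n) v = v - (U n).starProjection v := by
    intro n
    simp only [U]
    rw [Submodule.starProjection_orthogonal_val]
    unfold proj
    abel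
  simp only [h2]
  have h3 := (tendsto_const_nhds (x := v)).sub h
  rwa [sub_self] at h3

lemma tsum_tendsto_zero' {ι : Type*} {f : ℕ → ι → ℝ≥0∞} (hle : ∀ n i, f n i ≤ f 0 i)
    (hfin : ∑' i, f 0 i ≠ ⊤) (h0 : ∀ i, Tendsto (fun n => f n i) atTop (𝓝 0)) :
    Tendsto (fun n => ∑' i, f n i) atTop (𝓝 0) := by
  let _ : MeasurableSpace ι := ⊤
  have h := tendsto_lintegral_of_dominated_convergence (μ := Measure.count) (F := f)
    (f := fun _ => 0) (f 0) (fun _ => measurable_from_top)
    (fun n => Eventually.of_forall (hle n)) (by rwa [lintegral_count])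
    (Eventually.of_forall h0)
  simpa only [lintegral_count, tsum_zero] using h

end aux

variable {Γ Ω ι : Type*} [Group Γ] [MeasurableSpace Ω] [MulAction Γ ι] [Countable ι]
  {a : Γ → Ω → Ω} {P : Measure Ω}

theorem RSet.coord {U : Ω → ι → Prop} (hU : RSet a U) : RSub a fun ω => coord (U ω) := by
  classical
  refine ⟨fun ω => isClosed_coord _, ⟨1, fun ω => proj_norm_le' _⟩, fun i j => ?_,
    fun g ω i j => ?_⟩
  · have h : (fun ω => (proj (Pool.Agent.FusfTree.coord (U ω)) (dl i : L2 ι)) j) =
        fun ω => if U ω i then (dl i : L2 ι) j else 0 := by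
      funext ω
      rw [proj_coord_dl]
      split_ifs <;> simp
    rw [h]
    exact Measurable.ite (measurableSet_setOfPred.mpr (hU.meas i)) measurable_const measurable_const
  · rw [proj_coord_dl, proj_coord_dl]
    have h := hU.eqv g ω i
    by_cases hi : U ω i
    · rw [if_pos hi, if_pos (h.mpr hi), dl_apply', dl_apply']
      simp
    · rw [if_neg hi, if_neg (fun h' => hi (h.mp h'))]
      simp

theorem dim_coord (β : ι → Γ) (U : Ω → ι → Prop) :
    dim P β (fun ω => coord (U ω)) = ∫⁻ ω, ({i | β i = 1 ∧ U ω i}.encard : ℝ≥0∞) ∂P := by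
  classical
  unfold dim hs
  refine lintegral_congr fun ω => ?_
  rw [encard_eq_tsum]
  refine tsum_congr fun i => ?_
  rw [proj_coord_dl]
  by_cases h1 : β i = 1
  · by_cases h2 : U ω i
    · rw [if_pos h1, if_pos h2, if_pos ⟨h1, h2⟩, ← ofReal_norm, norm_dl']
      simp
    · rw [if_pos h1, if_neg h2, if_neg (fun h => h2 h.2)]
      simp
  · rw [if_neg h1, if_neg (fun h => h1 h.1)]

theorem dim_bot (β : ι → Γ) {K : Ω → Submodule ℝ (L2 ι)} (hK : ∀ ω, K ω = ⊥) :
    dim P β K = 0 := by
  classical
  unfold dim hs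
  have h : ∀ ω i, proj (K ω) (dl i : L2 ι) = 0 := by
    intro ω i
    rw [hK ω]
    refine proj_of_orth' (by simp) fun w hw => ?_
    rw [Submodule.mem_bot] at hw
    simp [hw]
  simp [h]

open Classical in
lemma measurable_hs_integrand {κ : Type*} [MulAction Γ κ] [Countable κ] (β : ι → Γ)
    {X : Ω → L2 ι →L[ℝ] L2 κ} (hX : ROp a X) :
    Measurable fun ω => ∑' i, if β i = 1 then ‖X ω (dl i)‖ₑ ^ 2 else 0 := by
  refine Measurable.tsum fun i => ?_
  by_cases h : β i = 1
  · simpa only [if_pos h] using hX.measurable_col i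
  · simp only [if_neg h]
    exact measurable_const

theorem dim_tendsto_zero (β : ι → Γ) {K : ℕ → Ω → Submodule ℝ (L2 ι)} (hK : ∀ n, RSub a (K n))
    (hanti : ∀ n ω, K (n + 1) ω ≤ K n ω) (hbot : ∀ᵐ ω ∂P, ∀ v, (∀ n, v ∈ K n ω) → v = 0)
    (hfin : dim P β (K 0) ≠ ⊤) : Tendsto (fun n => dim P β (K n)) atTop (𝓝 0) := by
  classical
  unfold dim hs at *
  have hmeas := fun n => measurable_hs_integrand β (hK n).rop
  have hle : ∀ n ω i, (if β i = 1 then ‖proj (K n ω) (dl i : L2 ι)‖ₑ ^ 2 else 0) ≤
      (if β i = 1 then ‖proj (K 0 ω) (dl i : L2 ι)‖ₑ ^ 2 else 0) := by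
    intro n ω i
    split_ifs
    · have hA : Antitone fun n => K n ω := antitone_nat_of_succ_le fun n => hanti n ω
      have h := norm_proj_anti' (hA (Nat.zero_le n)) (dl i : L2 ι)
      gcongr
      rw [← ofReal_norm, ← ofReal_norm]
      exact ENNReal.ofReal_le_ofReal h
    · exact le_rfl
  have hae := ae_lt_top (hmeas 0) hfin
  have h := tendsto_lintegral_of_dominated_convergence (μ := P) (f := fun _ => 0) _ hmeas
    (fun n => Eventually.of_forall fun ω => ENNReal.tsum_le_tsum (hle n ω)) hfin ?_
  · simpa using h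
  · filter_upwards [hae, hbot] with ω h1 h2
    refine tsum_tendsto_zero' (fun n i => hle n ω i) h1.ne fun i => ?_
    by_cases hi : β i = 1
    · simp only [if_pos hi]
      have h3 := proj_tendsto_zero' (fun n => (hK n).closed ω) (fun n => hanti n ω) h2
        (dl i : L2 ι)
      have h4 : Tendsto (fun n => ‖proj (K n ω) (dl i : L2 ι)‖ₑ) atTop (𝓝 0) := by
        simpa using h3.enorm
      have h5 := ENNReal.Tendsto.pow (n := 2) h4
      simpa using h5
    · simp only [if_neg hi]
      exact tendsto_const_nhds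

theorem RSub.factor {Ω' : Type*} [MeasurableSpace Ω'] {a' : Γ → Ω' → Ω'}
    {K : Ω → Submodule ℝ (L2 ι)} (hK : RSub a K) {π : Ω' → Ω} (hπ : Measurable π)
    (he : ∀ g ω, π (a' g ω) = a g (π ω)) : RSub a' fun ω => K (π ω) :=
  ⟨fun ω => hK.closed (π ω), hK.rop.factor hπ he⟩

theorem dim_factor {Ω' : Type*} [MeasurableSpace Ω'] {P' : Measure Ω'} (β : ι → Γ)
    {K : Ω → Submodule ℝ (L2 ι)} (hK : RSub a K) {π : Ω' → Ω} (hπ : Measurable π) :
    dim P' β (fun ω => K (π ω)) = dim (P'.map π) β K := by
  unfold dim hs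
  rw [lintegral_map (measurable_hs_integrand β hK.rop) hπ]

end Pool.Agent.FusfTree
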