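import Mathlib

/-! Definitions used in the statement: random edge sets on a group, uniform spanning trees,
the free uniform spanning forest, approximately treeable groups. -/

open MeasureTheory Filter Topology
open scoped ENNReal

namespace Pool.Agent.FusfTree

/-- Edge configurations on `Γ`: a set of unordered pairs, coded by its indicator
(product topology and product sigma-algebra). -/
abbrev Cfg (Γ : Type*) := Sym2 Γ → Bool

/-- The simple graph on `Γ` whose edges are the pairs present in `η`. -/
def graphOf {Γ : Type*} (η : Cfg Γ) : SimpleGraph Γ :=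
  SimpleGraph.fromEdgeSet {e | η e = true}

/-- Left translation of a configuration: `{x,y}` is in `shift g η` iff `{g⁻¹x, g⁻¹y}` is in `η`. -/
def shift {Γ : Type*} [Group Γ] (g : Γ) (η : Cfg Γ) : Cfg Γ :=
  fun e => η (e.map fun x => g⁻¹ * x)

/-- The spanning trees of the induced subgraph `G[V]`, as edge sets of `G`. -/
def treeSet {Γ : Type*} (G : SimpleGraph Γ) (V : Finset Γ) : Set (Cfg Γ) :=
  {η | (∀ e, η e = true → e ∈ G.edgeSet ∧ ∀ v ∈ e, v ∈ V) ∧
    ((graphOf η).induce (V : Set Γ)).IsTree}

/-- The law of a uniform spanning tree of `G[V]`. -/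
noncomputable def ust {Γ : Type*} (G : SimpleGraph Γ) (V : Finset Γ) : Measure (Cfg Γ) :=
  ProbabilityTheory.uniformOn (treeSet G V)

/-- An exhaustion of `G` by finite vertex sets inducing connected subgraphs. -/
def IsExhaustion {Γ : Type*} (G : SimpleGraph Γ) (V : ℕ → Finset Γ) : Prop :=
  Monotone V ∧ (∀ x, ∃ n, x ∈ V n) ∧ ∀ n, (G.induce (V n : Set Γ)).Connected

/-- `μ` is the free uniform spanning forest measure of `G`: the weak limit of the uniform
spanning trees of `G[V n]` along every exhaustion. -/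
def IsFUSF {Γ : Type*} (G : SimpleGraph Γ) (μ : Measure (Cfg Γ)) : Prop :=
  IsProbabilityMeasure μ ∧ ∀ V : ℕ → Finset Γ, IsExhaustion G V →
    ∀ f : BoundedContinuousFunction (Cfg Γ) ℝ,
      Tendsto (fun n => ∫ η, f η ∂(ust G (V n))) atTop (𝓝 (∫ η, f η ∂μ))

/-- `Γ` is approximately treeable: for every finite `A` and `ε > 0` there is a translation
invariant random forest on the vertex set `Γ` in which each `a ∈ A` lies in the tree of `1`
with probability at least `1 - ε`. -/
def ApproxTreeable (Γ : Type*) [Group Γ] : Prop :=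
  ∀ (A : Finset Γ) (ε : ℝ≥0∞), 0 < ε → ∃ τ : Measure (Cfg Γ), IsProbabilityMeasure τ ∧
    (∀ g : Γ, τ.map (shift g) = τ) ∧ (∀ᵐ η ∂τ, (graphOf η).IsAcyclic) ∧
    ∀ a ∈ A, τ {η | ¬ (graphOf η).Reachable 1 a} ≤ ε

end Pool.Agent.FusfTree
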