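import Pool.Agent.P.MP_8fb1ed_pr.GroundAux

/-! From an integer cocycle with few needed vertices to a sparse connecting percolation. -/

open MeasureTheory Filter Topology
open scoped ENNReal

namespace Pool.Agent.FusfTree

namespace GroundAux

open Relation

/-- The edges usable from `o` when only pins of depth at most `D` are allowed. -/
def actD {Γ : Type*} (φ cn : Γ → Γ → Prop) (η : Cfg Γ) (lev : Γ → Γ → ℤ) (o : Γ) (D : ℕ)
    (p q : Γ) : Prop :=
  cn o p ∧ φ p q ∧ (η s(p, q) = true ∨ (-(D : ℤ) ≤ lev o p ∧ lev o p < 0))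

lemma actD_mono {Γ : Type*} {φ cn : Γ → Γ → Prop} {η : Cfg Γ} {lev : Γ → Γ → ℤ} {o : Γ} {D D' : ℕ}
    (h : D ≤ D') {x y : Γ} (e : EqvGen (actD φ cn η lev o D) x y) :
    EqvGen (actD φ cn η lev o D') x y :=
  eqvGen_mono (fun _ _ k => .rel _ _ ⟨k.1, k.2.1, k.2.2.imp id fun l => ⟨by omega, l.2⟩⟩) e

lemma eventually_actD {Γ : Type*} {φ cn : Γ → Γ → Prop} {η : Cfg Γ} {lev : Γ → Γ → ℤ} {o x y : Γ}
    (e : EqvGen (act φ cn η lev o 0) x y) :
    ∀ᶠ D in atTop, EqvGen (actD φ cn η lev o D) x y := by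
  induction e with
  | rel p q k =>
    filter_upwards [eventually_ge_atTop (lev o p).natAbs] with D hD
    exact .rel _ _ ⟨k.1, k.2.1, k.2.2.imp id fun l => ⟨by omega, l⟩⟩
  | refl => exact Eventually.of_forall fun _ => .refl _
  | symm _ _ _ ih => exact ih.mono fun _ => .symm _ _
  | trans _ _ _ _ _ ih1 ih2 => exact (ih1.and ih2).mono fun _ k => .trans _ _ _ k.1 k.2

lemma val_lt {K : ℕ} [NeZero K] {u v : ZMod K} {l : ℤ} (e : v = u + (l : ZMod K))
    (h1 : -(u.val : ℤ) ≤ l) (h2 : l < 0) : v.val < u.val := by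
  obtain ⟨m, hm⟩ := Int.eq_ofNat_of_zero_le (show 0 ≤ (u.val : ℤ) + l by omega)
  have : v = (m : ZMod K) := by
    rw [e, ← Int.cast_natCast (R := ZMod K) m, ← hm]
    simp
  rw [this, ZMod.val_natCast]
  have := Nat.mod_le m K
  omega

end GroundAux

open GroundAux Relation in
theorem ground {Γ Ω : Type*} [Group Γ] [Countable Γ] {G : SimpleGraph Γ} (hG : Cay G)
    [MeasurableSpace Ω] {P : Measure Ω} [IsProbabilityMeasure P] {a : Γ → Ω → Ω}
    (ha : ∀ g, MeasurePreserving (a g) P P) {F : Ω → Cfg Γ} (hFm : Measurable F)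
    (hFe : ∀ g ω, F (a g ω) = shift g (F ω)) (hFG : ∀ᵐ ω ∂P, ∀ e, F ω e = true → e ∈ G.edgeSet)
    {φ cn : Ω → Γ → Γ → Prop} (hφ : RRel a φ) (hcn : RRel a cn)
    (hφs : ∀ ω x y, φ ω x y → φ ω y x) (hφG : ∀ ω x y, φ ω x y → G.Adj x y)
    (heq : ∀ ω, Equivalence (cn ω)) {lev : Ω → Γ → Γ → ℤ}
    (hlm : ∀ x y, Measurable fun ω => lev ω x y)
    (hle : ∀ g ω x y, lev (a g ω) (g * x) (g * y) = lev ω x y)
    (hlc : ∀ ω x y z, cn ω x y → cn ω y z → lev ω x z = lev ω x y + lev ω y z)
    {ε δ : ℝ≥0∞} (h1 : ∀ y, G.Adj 1 y → P {ω | ¬ φ ω 1 y} ≤ ε)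
    (h2 : P {ω | Needed (φ ω) (cn ω) (F ω) (lev ω) 1} ≤ ε) (hδ : 0 < δ) :
    ∃ ν : Measure (Cfg Γ × Cfg Γ), IsProbabilityMeasure ν ∧
      (∀ g : Γ, ν.map (fun p => (shift g p.1, shift g p.2)) = ν) ∧ ν.map Prod.fst = P.map F ∧
      ∫⁻ p, ({y | (graphOf p.2).Adj 1 y}.encard : ℝ≥0∞) ∂ν ≤
        ({y | G.Adj 1 y}.encard : ℝ≥0∞) * (3 * ε + δ) ∧
      ∀ᵐ p ∂ν, graphOf p.1 ⊔ graphOf p.2 ≤ G ∧ (graphOf p.1 ⊔ graphOf p.2).Connected := by
  classical
  have d4 : 0 < δ / 4 := ENNReal.div_pos hδ.ne' (by norm_num)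
  have mA : ∀ (o : Γ) (D : ℕ) (y : Γ),
      Measurable fun ω => EqvGen (actD (φ ω) (cn ω) (F ω) (lev ω) o D) o y := fun o D y =>
    measurable_eqvGen (fun p q => (hcn.meas o p).and ((hφ.meas p q).and
      (((measurable_edge _).comp hFm).or ((Measurable.of_discrete
        (f := fun n : ℤ => -(D : ℤ) ≤ n ∧ n < 0)).comp (hlm o p))))) o y
  have eA : ∀ (g : Γ) (ω : Ω) (o : Γ) (D : ℕ) (y : Γ),
      EqvGen (actD (φ (a g ω)) (cn (a g ω)) (F (a g ω)) (lev (a g ω)) (g * o) D) (g * o) (g * y) ↔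
        EqvGen (actD (φ ω) (cn ω) (F ω) (lev ω) o D) o y := fun g ω o D y =>
    eqvGen_equiv (Equiv.mulLeft g) (fun p q => by
      have e1 : cn (a g ω) (g * o) (g * p) ↔ cn ω o p := hcn.eqv g ω o p
      have e2 : φ (a g ω) (g * p) (g * q) ↔ φ ω p q := hφ.eqv g ω p q
      simp only [actD, Equiv.coe_mulLeft, e1, e2, hFe, shift_apply, hle]) o y
  have mN : Measurable fun ω => Needed (φ ω) (cn ω) (F ω) (lev ω) 1 :=
    Measurable.exists fun y => (hφ.meas 1 y).and (measurable_eqvGen (fun p q =>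
      (hcn.meas 1 p).and ((hφ.meas p q).and (((measurable_edge _).comp hFm).or
        ((Measurable.of_discrete (f := fun n : ℤ => n < 0)).comp (hlm 1 p))))) 1 y).not
  let E : ℕ → Set Ω := fun D => {ω | ¬Needed (φ ω) (cn ω) (F ω) (lev ω) 1 ∧
    ∃ y, φ ω 1 y ∧ ¬EqvGen (actD (φ ω) (cn ω) (F ω) (lev ω) 1 D) 1 y}
  have mE : ∀ D, MeasurableSet (E D) := fun D =>
    (mN.not.and (Measurable.exists fun y => (hφ.meas 1 y).and (mA 1 D y).not)).setOf
  obtain ⟨D, hD⟩ : ∃ D, P (E D) ≤ δ / 4 := by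
    have t := tendsto_measure_iInter_atTop (μ := P) (fun D => (mE D).nullMeasurableSet)
      (fun D D' h ω k => ⟨k.1, k.2.imp fun y l => ⟨l.1, fun e => l.2 (actD_mono h e)⟩⟩)
      ⟨0, measure_ne_top _ _⟩
    have e0 : ⋂ D, E D = ∅ := by
      refine Set.eq_empty_of_forall_notMem fun ω hω => ?_
      rw [Set.mem_iInter] at hω
      have n := (hω 0).1
      simp only [Needed, not_exists, not_and, not_not] at n
      have : ∀ᶠ D in atTop, ∀ y ∈ {y | φ ω 1 y},
          EqvGen (actD (φ ω) (cn ω) (F ω) (lev ω) 1 D) 1 y :=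
        (eventually_all_finite (hG.fin.subset fun y => hφG ω 1 y)).2 fun y hy =>
          eventually_actD (n y hy)
      obtain ⟨D, hD⟩ := this.exists
      obtain ⟨y, a1, a2⟩ := (hω D).2
      exact a2 (hD y a1)
    rw [e0, measure_empty] at t
    exact (ENNReal.tendsto_nhds_zero.1 t _ d4).exists
  obtain ⟨K, K0, hK⟩ : ∃ K : ℕ, K ≠ 0 ∧ (D : ℝ≥0∞) * (K : ℝ≥0∞)⁻¹ ≤ δ / 4 := by
    have t := ENNReal.Tendsto.const_mul (a := (D : ℝ≥0∞)) ENNReal.tendsto_inv_nat_nhds_zero
      (Or.inr (ENNReal.natCast_ne_top D))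
    rw [mul_zero] at t
    exact ((eventually_ne_atTop 0).and (ENNReal.tendsto_nhds_zero.1 t _ d4)).exists
  have : NeZero K := ⟨K0⟩
  obtain ⟨P', _, ha', hf, hco, hu⟩ := exists_levels ha hcn heq hlm hle hlc K
  let a' : Γ → Ω × (Γ → ZMod K) → Ω × (Γ → ZMod K) := fun g q =>
    (a g q.1, fun x => q.2 (g⁻¹ * x))
  let U : Ω × (Γ → ZMod K) → Γ → Prop := fun q x => ∃ y, φ q.1 x y ∧
    ¬EqvGen (actD (φ q.1) (cn q.1) (F q.1) (lev q.1) x (q.2 x).val) x y
  have hU : RSet a' U := by
    refine ⟨fun x => Measurable.exists fun y => ((hφ.meas x y).comp measurable_fst).and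
      (Measurable.not ?_), fun g q x => ?_⟩
    · have : (fun q : Ω × (Γ → ZMod K) =>
          EqvGen (actD (φ q.1) (cn q.1) (F q.1) (lev q.1) x (q.2 x).val) x y) =
          fun q => ∃ c, q.2 x = c ∧ EqvGen (actD (φ q.1) (cn q.1) (F q.1) (lev q.1) x c.val) x y := by
        ext q
        simp
      rw [this]
      exact Measurable.exists fun c => (Measurable.eq_const (by fun_prop) c).and
        ((mA x c.val y).comp measurable_fst)
    · simp only [U, a', smul_eq_mul, inv_mul_cancel_left]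
      rw [exists_smul g]
      refine exists_congr fun y => ?_
      have e2 : φ (a g q.1) (g * x) (g * y) ↔ φ q.1 x y := hφ.eqv g q.1 x y
      rw [smul_eq_mul, e2, eA]
  have pf : ∀ S, MeasurableSet S → P' (Prod.fst ⁻¹' S) = P S := fun S hS => by
    rw [← hf, Measure.map_apply measurable_fst hS]
  have pU : ∀ x, P' {q | U q x} ≤ ε + δ / 4 + δ / 4 := fun x => by
    rw [hU.prob_eq ha' x]
    have sub : {q | U q 1} ⊆ (Prod.fst ⁻¹' {ω | Needed (φ ω) (cn ω) (F ω) (lev ω) 1} ∪
        Prod.fst ⁻¹' E D) ∪ ⋃ j ∈ Finset.range D, {q | q.2 1 = (j : ZMod K)} := by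
      rintro q ⟨y, a1, a2⟩
      by_cases n : Needed (φ q.1) (cn q.1) (F q.1) (lev q.1) 1
      · exact Or.inl (Or.inl n)
      by_cases l : D ≤ (q.2 1).val
      · exact Or.inl (Or.inr ⟨n, y, a1, fun e => a2 (actD_mono l e)⟩)
      · exact Or.inr (Set.mem_biUnion (Finset.mem_range.2 (not_le.1 l))
          (ZMod.natCast_zmod_val _).symm)
    refine (measure_mono sub).trans ((measure_union_le _ _).trans (add_le_add
      ((measure_union_le _ _).trans (add_le_add ?_ ?_)) ?_))
    · rwa [pf _ mN.setOf]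
    · rwa [pf _ (mE D)]
    · refine (measure_biUnion_finset_le _ _).trans ?_
      simpa only [hu, Finset.sum_const, Finset.card_range, nsmul_eq_mul] using hK
  let om : Ω × (Γ → ZMod K) → Cfg Γ := fun q e =>
    decide (∃ x y, e = s(x, y) ∧ G.Adj x y ∧ (¬φ q.1 x y ∨ U q x))
  have om1 : ∀ q e, om q e = true ↔ ∃ x y, e = s(x, y) ∧ G.Adj x y ∧ (¬φ q.1 x y ∨ U q x) :=
    fun q e => decide_eq_true_iff
  have mom : Measurable om := measurable_pi_lambda _ fun e =>
    (Measurable.of_discrete (f := fun b : Prop => decide b)).comp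
      (Measurable.exists fun x => Measurable.exists fun y => measurable_const.and
        (measurable_const.and (((hφ.meas x y).comp measurable_fst).not.or (hU.meas x))))
  have eom : ∀ g q, om (a' g q) = shift g (om q) := fun g q => by
    funext e
    rw [Bool.eq_iff_iff, om1, shift, om1, exists_smul g]
    refine exists_congr fun x => ?_
    rw [exists_smul g]
    refine exists_congr fun y => ?_
    have e2 : φ (a' g q).1 (g • x) (g • y) ↔ φ q.1 x y := hφ.eqv g q.1 x y
    rw [e2, hU.eqv, smul_eq_mul, smul_eq_mul, hG.inv]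
    refine and_congr_left' ⟨fun h => by simp [h], fun h => ?_⟩
    have := congrArg (Sym2.map fun x => g * x) h
    simpa [Sym2.map_map] using this
  let Φ : Ω × (Γ → ZMod K) → Cfg Γ × Cfg Γ := fun q => (F q.1, om q)
  have mΦ : Measurable Φ := (hFm.comp measurable_fst).prodMk mom
  have madj : ∀ x y : Γ, Measurable fun η : Cfg Γ => (graphOf η).Adj x y := rrel_adj.meas
  refine ⟨P'.map Φ, Measure.isProbabilityMeasure_map mΦ.aemeasurable, fun g => ?_, ?_, ?_, ?_⟩
  · have ms : Measurable fun p : Cfg Γ × Cfg Γ => (shift g p.1, shift g p.2) :=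
      ((measurable_shift g).comp measurable_fst).prodMk ((measurable_shift g).comp measurable_snd)
    rw [Measure.map_map ms mΦ]
    conv_rhs => rw [← (ha' g).map_eq, Measure.map_map mΦ (ha' g).measurable]
    congr 1
    funext q
    exact Prod.ext (hFe g q.1).symm (eom g q).symm
  · rw [Measure.map_map measurable_fst mΦ, ← hf, Measure.map_map hFm measurable_fst]
    rfl
  · have me : Measurable fun p : Cfg Γ × Cfg Γ => ({y | (graphOf p.2).Adj 1 y}.encard : ℝ≥0∞) :=
      measurable_encard_ennreal fun y => (madj 1 y).comp measurable_snd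
    rw [lintegral_map me mΦ]
    simp only [encard_eq_tsum]
    have my : ∀ y, MeasurableSet {q | (graphOf (om q)).Adj 1 y} := fun y =>
      ((madj 1 y).comp mom).setOf
    rw [lintegral_tsum fun y =>
      (Measurable.ite (my y) measurable_const measurable_const).aemeasurable,
      ← ENNReal.tsum_mul_right]
    refine ENNReal.tsum_le_tsum fun y => ?_
    have e : ∫⁻ q, (if (graphOf (Φ q).2).Adj 1 y then (1 : ℝ≥0∞) else 0) ∂P' =
        P' {q | (graphOf (om q)).Adj 1 y} := by
      rw [← lintegral_indicator_one (my y)]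
      refine lintegral_congr fun q => ?_
      simp only [Set.indicator_apply, Set.mem_ofPred_eq, Pi.one_apply, Φ]
    rw [e]
    have key : ∀ q, (graphOf (om q)).Adj 1 y → G.Adj 1 y ∧ ((¬φ q.1 1 y ∨ U q 1) ∨ U q y) := by
      intro q hq
      obtain ⟨u, v, e, a1, a2⟩ := (om1 _ _).1 ((graphOf_adj _ _ _).1 hq).1
      rcases Sym2.eq_iff.1 e with ⟨rfl, rfl⟩ | ⟨rfl, rfl⟩
      · exact ⟨a1, Or.inl a2⟩
      · exact ⟨a1.symm, a2.elim (fun n => Or.inl (Or.inl fun k => n (hφs _ _ _ k))) Or.inr⟩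
    split_ifs with hy
    · have sub : {q | (graphOf (om q)).Adj 1 y} ⊆
          (Prod.fst ⁻¹' {ω | ¬φ ω 1 y} ∪ {q | U q 1}) ∪ {q | U q y} := fun q hq => (key q hq).2
      refine (measure_mono sub).trans ((measure_union_le _ _).trans ((add_le_add
        ((measure_union_le _ _).trans (add_le_add ((pf _ (hφ.meas 1 y).not.setOf).trans_le
          (h1 y hy)) (pU 1))) (pU y)).trans_eq ?_))
      have : δ = 4 * (δ / 4) := (ENNReal.mul_div_cancel (by norm_num) (by norm_num)).symm
      generalize δ / 4 = d at this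
      rw [this]
      ring
    · have e0 : {q | (graphOf (om q)).Adj 1 y} = ∅ :=
        Set.eq_empty_of_forall_notMem fun q hq => hy (key q hq).1
      rw [e0]
      simp
  · refine (ae_map_iff mΦ.aemeasurable ?_).2 ?_
    · simp only [SimpleGraph.connected_iff, SimpleGraph.Preconnected,
        SimpleGraph.reachable_iff_reflTransGen, SimpleGraph.le_iff_adj]
      have m2 : ∀ x y : Γ, Measurable fun p : Cfg Γ × Cfg Γ =>
          (graphOf p.1 ⊔ graphOf p.2).Adj x y := fun x y =>
        ((madj x y).comp measurable_fst).or ((madj x y).comp measurable_snd)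
      exact ((Measurable.forall fun x => Measurable.forall fun y =>
        (m2 x y).imp measurable_const).and ((Measurable.forall fun x => Measurable.forall fun y =>
          measurable_rtg m2 x y).and measurable_const)).setOf
    rw [← hf] at hFG
    filter_upwards [ae_of_ae_map measurable_fst.aemeasurable hFG, hco] with q q1 q2
    refine ⟨sup_le (fun x y k => q1 _ ((graphOf_adj _ _ _).1 k).1) fun x y k => ?_, ?_⟩
    · obtain ⟨u, v, e, a1, -⟩ := (om1 _ _).1 ((graphOf_adj _ _ _).1 k).1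
      rwa [← G.mem_edgeSet, e]
    have edge : ∀ x y, G.Adj x y → (¬φ q.1 x y ∨ U q x) →
        (graphOf (Φ q).1 ⊔ graphOf (Φ q).2).Reachable x y := fun x y a1 a2 =>
      SimpleGraph.Adj.reachable
        (Or.inr ((graphOf_adj _ _ _).2 ⟨(om1 _ _).2 ⟨x, y, rfl, a1, a2⟩, a1.ne⟩))
    have claim : ∀ n x, (q.2 x).val = n → ∀ y, φ q.1 x y →
        (graphOf (Φ q).1 ⊔ graphOf (Φ q).2).Reachable x y := by
      intro n
      induction n using Nat.strong_induction_on with
      | _ n ih =>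
        intro x hx y hy
        by_cases hu : U q x
        · exact edge x y (hφG _ _ _ hy) (Or.inr hu)
        simp only [U, not_exists, not_and, not_not] at hu
        have step : ∀ u v, EqvGen (actD (φ q.1) (cn q.1) (F q.1) (lev q.1) x (q.2 x).val) u v →
            (graphOf (Φ q).1 ⊔ graphOf (Φ q).2).Reachable u v := fun u v e => by
          induction e with
          | rel u v k =>
            rcases k.2.2 with l | l
            · exact SimpleGraph.Adj.reachable
                (Or.inl ((graphOf_adj _ _ _).2 ⟨l, (hφG _ _ _ k.2.1).ne⟩))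
            · exact ih _ (hx ▸ val_lt (q2 x u k.1) l.1 l.2) u rfl v k.2.1
          | refl => exact .refl _
          | symm _ _ _ ih => exact ih.symm
          | trans _ _ _ _ _ ih1 ih2 => exact ih1.trans ih2
        exact step x y (hu y hy)
    refine (SimpleGraph.connected_iff _).2 ⟨fun x y => ?_, inferInstance⟩
    have r := (SimpleGraph.reachable_iff_reflTransGen x y).1 (hG.conn.preconnected x y)
    induction r with
    | refl => exact .refl _
    | @tail u v _ k ih =>
      refine ih.trans ?_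
      by_cases l : φ q.1 u v
      · exact claim _ _ rfl _ l
      · exact edge _ _ k (Or.inl l)

end Pool.Agent.FusfTree
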