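import Pool.Agent.P.MP_8fb1ed_pr.Basic

/-! Invariant random lifts of an integer cocycle to `ZMod K`-valued levels. -/

open MeasureTheory Filter Topology ProbabilityTheory
open scoped ENNReal

namespace Pool.Agent.FusfTree

namespace GroundAux

variable {K : ℕ} [NeZero K]

/-- The uniform law on `ZMod K`. -/
noncomputable abbrev unif (K : ℕ) : Measure (ZMod K) := uniformOn Set.univ

lemma unif_single (c : ZMod K) : unif K {c} = (K : ℝ≥0∞)⁻¹ := by
  simp [uniformOn_univ, ZMod.card]

lemma unif_map_add (c : ZMod K) : (unif K).map (fun z => z + c) = unif K := by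
  refine Measure.ext_of_singleton fun d => ?_
  rw [Measure.map_apply (Measurable.of_discrete) (measurableSet_singleton d)]
  have : (fun z => z + c) ⁻¹' {d} = {d - c} := by
    ext z
    exact eq_sub_iff_add_eq.symm
  rw [this, unif_single, unif_single]

/-- Independent uniform labels. -/
noncomputable abbrev iid (K : ℕ) (I : Type*) : Measure (I → ZMod K) :=
  Measure.infinitePi fun _ => unif K

lemma iid_map {I J : Type*} {e : I → J} (he : Function.Injective e) (k : I → ZMod K) :
    (iid K J).map (fun Z i => Z (e i) + k i) = iid K I := by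
  have h1 := Measure.map_infinitePi_infinitePi_of_inj (P := fun _ : J => unif K) he
  have h2 := Measure.infinitePi_map_pi (μ := fun _ : I => unif K)
    (f := fun i z => z + k i) fun _ => Measurable.of_discrete
  simp only [unif_map_add] at h2
  rw [iid, iid, ← h2, ← h1, Measure.map_map (by fun_prop) (by fun_prop)]
  rfl

lemma law_eq {I : Type*} {r r' : I → I} {k k' : I → ZMod K}
    (hr : ∀ x y, r x = r y ↔ r' x = r' y) (hk : ∀ x y, r x = r y → k x - k y = k' x - k' y) :
    (iid K I).map (fun Z x => Z (r x) + k x) = (iid K I).map fun Z x => Z (r' x) + k' x := by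
  let c : I → Set.range r := Set.rangeFactorization r
  let σ : Set.range r → I := Set.rangeSplitting r
  have hσ : ∀ x, r (σ (c x)) = r x := fun x => Set.apply_rangeSplitting r (c x)
  have i1 : Function.Injective fun i => r (σ i) := fun i j e =>
    Subtype.ext ((Set.apply_rangeSplitting r i).symm.trans (e.trans (Set.apply_rangeSplitting r j)))
  have i2 : Function.Injective fun i => r' (σ i) := fun i j e => i1 ((hr _ _).2 e)
  let Ψ : (Set.range r → ZMod K) → I → ZMod K := fun Y x => Y (c x) + (k x - k (σ (c x)))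
  have mΨ : Measurable Ψ := by fun_prop
  have e1 : (fun (Z : I → ZMod K) x => Z (r x) + k x) =
      Ψ ∘ fun Z i => Z (r (σ i)) + k (σ i) := by
    funext Z x
    simp only [Function.comp, Ψ, hσ]
    ring
  have e2 : (fun (Z : I → ZMod K) x => Z (r' x) + k' x) =
      Ψ ∘ fun Z i => Z (r' (σ i)) + k' (σ i) := by
    funext Z x
    simp only [Function.comp, Ψ, (hr _ _).1 (hσ x), hk _ _ (hσ x).symm]
    ring
  rw [e1, e2, ← Measure.map_map mΨ (by fun_prop), ← Measure.map_map mΨ (by fun_prop),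
    iid_map i1, iid_map i2]

theorem exists_root {Γ Ω : Type*} [Countable Γ] [MeasurableSpace Ω] {cn : Ω → Γ → Γ → Prop}
    (hm : ∀ x y, Measurable fun ω => cn ω x y) (heq : ∀ ω, Equivalence (cn ω)) :
    ∃ rt : Ω → Γ → Γ, (∀ x y, Measurable fun ω => rt ω x = y) ∧ (∀ ω x, cn ω (rt ω x) x) ∧
      ∀ ω x y, rt ω x = rt ω y ↔ cn ω x y := by
  obtain ⟨enc, henc⟩ := exists_injective_nat Γ
  have ex : ∀ ω x, ∃ y, cn ω x y ∧ ∀ z, cn ω x z → enc y ≤ enc z := fun ω x => by
    obtain ⟨y, hy, hm⟩ := (InvImage.wf enc wellFounded_lt).has_min {y | cn ω x y}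
      ⟨x, (heq ω).refl x⟩
    exact ⟨y, hy, fun z hz => not_lt.1 (hm z hz)⟩
  choose rt h1 h2 using ex
  have ch : ∀ ω x y, rt ω x = y ↔ cn ω x y ∧ ∀ z, cn ω x z → enc y ≤ enc z := fun ω x y =>
    ⟨fun e => e ▸ ⟨h1 ω x, h2 ω x⟩, fun h => henc (le_antisymm (h2 ω x y h.1) (h.2 _ (h1 ω x)))⟩
  refine ⟨rt, fun x y => ?_, fun ω x => (heq ω).symm (h1 ω x), fun ω x y => ⟨fun e => ?_,
    fun h => (ch ω x _).2 ⟨(heq ω).trans h (h1 ω y),
      fun z hz => h2 ω y z ((heq ω).trans ((heq ω).symm h) hz)⟩⟩⟩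
  · simp only [ch]
    exact (hm x y).and (Measurable.forall fun z => (hm x z).imp measurable_const)
  · exact (heq ω).trans (h1 ω x) (e ▸ (heq ω).symm (h1 ω y))

theorem exists_levels {Γ Ω : Type*} [Group Γ] [Countable Γ]
    [MeasurableSpace Ω] {P : Measure Ω} [IsProbabilityMeasure P] {a : Γ → Ω → Ω}
    (ha : ∀ g, MeasurePreserving (a g) P P) {cn : Ω → Γ → Γ → Prop} (hcn : RRel a cn)
    (heq : ∀ ω, Equivalence (cn ω)) {lev : Ω → Γ → Γ → ℤ}
    (hlm : ∀ x y, Measurable fun ω => lev ω x y)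
    (hle : ∀ g ω x y, lev (a g ω) (g * x) (g * y) = lev ω x y)
    (hlc : ∀ ω x y z, cn ω x y → cn ω y z → lev ω x z = lev ω x y + lev ω y z)
    (K : ℕ) [NeZero K] :
    ∃ P' : Measure (Ω × (Γ → ZMod K)), IsProbabilityMeasure P' ∧
      (∀ g, MeasurePreserving (fun q => (a g q.1, fun x => q.2 (g⁻¹ * x))) P' P') ∧
      P'.map Prod.fst = P ∧
      (∀ᵐ q ∂P', ∀ x p, cn q.1 x p → q.2 p = q.2 x + (lev q.1 x p : ZMod K)) ∧
      ∀ c, P' {q | q.2 1 = c} = (K : ℝ≥0∞)⁻¹ := by
  obtain ⟨rt, rm, r1, r2⟩ := exists_root hcn.meas heq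
  let h : Ω → (Γ → ZMod K) → Γ → ZMod K := fun ω Z x =>
    Z (rt ω x) + (lev ω (rt ω x) x : ZMod K)
  have lm : ∀ x y, Measurable fun ω => (lev ω x y : ZMod K) := fun x y =>
    (Measurable.of_discrete (f := fun n : ℤ => (n : ZMod K))).comp (hlm x y)
  have hm : Measurable fun q : Ω × (Γ → ZMod K) => h q.1 q.2 := by
    refine measurable_pi_lambda _ fun x => measurable_to_countable' fun c => ?_
    have : (fun q : Ω × (Γ → ZMod K) => h q.1 q.2 x) ⁻¹' {c} =
        {q | ∃ y, rt q.1 x = y ∧ q.2 y + (lev q.1 y x : ZMod K) = c} := by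
      ext q
      simp [h]
    rw [this]
    refine (Measurable.exists fun y => ((rm x y).comp measurable_fst).and
      (Measurable.eq_const ?_ c)).setOf
    exact ((measurable_pi_apply y).comp measurable_snd).add ((lm y x).comp measurable_fst)
  let T : Ω × (Γ → ZMod K) → Ω × (Γ → ZMod K) := fun q => (q.1, h q.1 q.2)
  have mT : Measurable T := measurable_fst.prodMk hm
  have mh : ∀ ω, Measurable (h ω) := fun ω => by fun_prop
  have app : ∀ S, MeasurableSet S → ((P.prod (iid K Γ)).map T) S =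
      ∫⁻ ω, (iid K Γ).map (h ω) (Prod.mk ω ⁻¹' S) ∂P := fun S hS => by
    rw [Measure.map_apply mT hS, Measure.prod_apply (mT hS)]
    refine lintegral_congr fun ω => ?_
    rw [Measure.map_apply (mh ω) (measurable_prodMk_left hS)]
    rfl
  have mapp : ∀ S, MeasurableSet S →
      Measurable fun ω => (iid K Γ).map (h ω) (Prod.mk ω ⁻¹' S) := fun S hS => by
    have := measurable_measure_prodMk_left (ν := iid K Γ) (mT hS)
    convert this using 2 with ω
    rw [Measure.map_apply (mh ω) (measurable_prodMk_left hS)]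
    rfl
  refine ⟨(P.prod (iid K Γ)).map T, Measure.isProbabilityMeasure_map mT.aemeasurable,
    fun g => ?_, ?_, ?_, fun c => ?_⟩
  · have ma : Measurable fun q : Ω × (Γ → ZMod K) => (a g q.1, fun x => q.2 (g⁻¹ * x)) :=
      ((ha g).measurable.comp measurable_fst).prodMk (by fun_prop)
    refine ⟨ma, Measure.ext fun S hS => ?_⟩
    rw [Measure.map_apply ma hS, app _ (ma hS), app _ hS, ← lintegral_act ha g (mapp S hS)]
    refine lintegral_congr fun ω => ?_
    have ce : ∀ x y, cn (a g ω) x y ↔ cn ω (g⁻¹ * x) (g⁻¹ * y) := fun x y => by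
      simpa using hcn.eqv g ω (g⁻¹ * x) (g⁻¹ * y)
    have law : (iid K Γ).map (h (a g ω)) = (iid K Γ).map fun Z x => h ω Z (g⁻¹ * x) := by
      refine law_eq (fun x y => by rw [r2, r2, ce]) fun x y e => ?_
      have c1 := (r2 _ _ _).1 e
      have c2 := (ce _ _).1 c1
      have l1 := hlc _ _ _ _ (r1 (a g ω) x) c1
      have l2 := hlc _ _ _ _ (r1 ω (g⁻¹ * x)) c2
      have l3 : lev (a g ω) x y = lev ω (g⁻¹ * x) (g⁻¹ * y) := by
        simpa using hle g ω (g⁻¹ * x) (g⁻¹ * y)
      rw [← e, ← (r2 _ _ _).2 c2, l1, l2, l3]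
      push_cast
      ring
    rw [law, Measure.map_apply (mh ω) (measurable_prodMk_left (ma hS)),
      Measure.map_apply (by fun_prop) (measurable_prodMk_left hS)]
    rfl
  · rw [Measure.map_map measurable_fst mT]
    exact Measure.map_fst_prod.trans (by simp)
  · refine (ae_map_iff mT.aemeasurable ?_).2 (ae_of_all _ fun q x p c => ?_)
    · refine (Measurable.forall fun x => Measurable.forall fun p =>
        ((hcn.meas x p).comp measurable_fst).imp (Measurable.eq (by fun_prop) ?_)).setOf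
      exact ((measurable_pi_apply x).comp measurable_snd).add ((lm x p).comp measurable_fst)
    · simp only [T, h]
      rw [← (r2 _ _ _).2 c, hlc _ _ _ _ (r1 q.1 x) c]
      push_cast
      ring
  · have mS : MeasurableSet {q : Ω × (Γ → ZMod K) | q.2 1 = c} :=
      (Measurable.eq_const (by fun_prop) c).setOf
    rw [app _ mS]
    have : ∀ ω, (iid K Γ).map (h ω) (Prod.mk ω ⁻¹' {q : Ω × (Γ → ZMod K) | q.2 1 = c}) =
        (K : ℝ≥0∞)⁻¹ := fun ω => by
      rw [Measure.map_apply (mh ω) (measurable_prodMk_left mS),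
        ← unif_single (c - (lev ω (rt ω 1) 1 : ZMod K)),
        ← Measure.infinitePi_map_eval (fun _ : Γ => unif K) (rt ω 1),
        Measure.map_apply (by fun_prop) (measurableSet_singleton _)]
      congr 1
      ext Z
      exact eq_sub_iff_add_eq.symm
    simp only [this, lintegral_const, measure_univ, mul_one]

end GroundAux

end Pool.Agent.FusfTree
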