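import Pool.Agent.P.MP_8fb1ed_pr.Rank
import Pool.Agent.P.MP_8fb1ed_pr.Coord

/-! The spaces of square summable cochains that vanish on the forest and are closed on finitely
many types of cycles; their dimension tends to zero. -/

open Relation Filter MeasureTheory Topology
open scoped ENNReal

namespace Pool.Agent.FusfTree

variable {Γ : Type*}

/-- A list of oriented edges of `G` with zero boundary. -/
def IsCyc (G : SimpleGraph Γ) (L : List (Γ × Γ)) : Prop :=
  (∀ e ∈ L, G.Adj e.1 e.2) ∧ ∀ f : Γ → ℝ, (L.map fun e => f e.1 - f e.2).sum = 0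

lemma exact_of_closed {G : SimpleGraph Γ} (hG : G.Connected) (θ : Γ × Γ → ℝ)
    (h : ∀ L, IsCyc G L → (L.map θ).sum = 0) :
    ∃ f : Γ → ℝ, ∀ x y, G.Adj x y → θ (x, y) = f x - f y := by
  obtain ⟨o⟩ := hG.nonempty
  have hanti : ∀ x y, G.Adj x y → θ (y, x) = - θ (x, y) := by
    intro x y hxy
    have := h [(x, y), (y, x)] ⟨by simp [hxy, hxy.symm], by simp⟩
    simp only [List.map_cons, List.map_nil, List.sum_cons, List.sum_nil] at this
    linarith
  have hch : ∀ x, ∃ L : List (Γ × Γ), (∀ e ∈ L, G.Adj e.1 e.2) ∧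
      ∀ f : Γ → ℝ, (L.map fun e => f e.1 - f e.2).sum = f o - f x := by
    intro x
    have := (SimpleGraph.reachable_iff_reflTransGen o x).1 (hG.preconnected o x)
    induction this with
    | refl => exact ⟨[], by simp, by simp⟩
    | @tail p q _ hpq ih =>
      obtain ⟨L, h1, h2⟩ := ih
      refine ⟨(p, q) :: L, ?_, fun f => ?_⟩
      · simpa using ⟨hpq, fun a b hab => h1 (a, b) hab⟩
      · simp [h2 f]
  choose L hL1 hL2 using hch
  have hswap : ∀ M : List (Γ × Γ), (∀ e ∈ M, G.Adj e.1 e.2) →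
      ((M.map Prod.swap).map θ).sum = - (M.map θ).sum := by
    intro M hM
    induction M with
    | nil => simp
    | cons e M ih =>
      simp only [List.map_cons, List.sum_cons, ih fun e he => hM e (List.mem_cons_of_mem _ he)]
      have := hanti e.1 e.2 (hM e List.mem_cons_self)
      change θ (e.2, e.1) + _ = _
      rw [this]
      ring
  have hswap' : ∀ (M : List (Γ × Γ)) (f : Γ → ℝ),
      ((M.map Prod.swap).map fun e => f e.1 - f e.2).sum =
        - (M.map fun e => f e.1 - f e.2).sum := by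
    intro M f
    induction M with
    | nil => simp
    | cons e M ih =>
      simp only [List.map_cons, List.sum_cons, ih, Prod.fst_swap, Prod.snd_swap]
      ring
  refine ⟨fun x => - ((L x).map θ).sum, fun x y hxy => ?_⟩
  have := h ((x, y) :: (L x ++ (L y).map Prod.swap)) ⟨?_, fun f => ?_⟩
  · rw [List.map_cons, List.sum_cons, List.map_append, List.sum_append, hswap _ (hL1 y)] at this
    linarith
  · intro e he
    rcases List.mem_cons.1 he with rfl | he
    · exact hxy
    rcases List.mem_append.1 he with he | he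
    · exact hL1 x e he
    · obtain ⟨e', he', rfl⟩ := List.mem_map.1 he
      exact (hL1 y e' he').symm
  · rw [List.map_cons, List.sum_cons, List.map_append, List.sum_append, hswap', hL2, hL2]
    ring

variable [Group Γ] [Countable Γ]

lemma exists_cycOp (L : List (Γ × Γ)) : ∃ X : L2 (Γ × Γ) →L[ℝ] L2 Γ,
    ROp (fun (_ : Γ) (u : Unit) => u) (fun _ => X) ∧
      ∀ θ x, X θ x = (L.map fun e => θ (x * e.1, x * e.2)).sum := by
  induction L with
  | nil => exact ⟨0, ROp.zero, fun θ x => by simp⟩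
  | cons e L ih =>
    obtain ⟨X, hX, hX'⟩ := ih
    obtain ⟨Y, hY, hY', -⟩ := exists_pull (a := fun (_ : Γ) (u : Unit) => u)
      (R := fun _ (x : Γ) (i : Γ × Γ) => i = (x * e.1, x * e.2))
      ⟨fun _ _ => measurable_const, fun g _ x i => by
        simp [Prod.ext_iff, mul_assoc]⟩
      (fun _ _ _ _ h h' => h.trans h'.symm) 1 fun _ i => by
        refine Set.encard_le_one_iff.2 fun x y hx hy => ?_
        have h1 : i = (x * e.1, x * e.2) := hx
        have h2 : i = (y * e.1, y * e.2) := hy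
        exact mul_right_cancel (Prod.mk.inj (h1.symm.trans h2)).1
    refine ⟨Y () + X, hY.add hX, fun θ x => ?_⟩
    rw [List.map_cons, List.sum_cons, ← hX', ← hY' () θ x _ rfl]
    rfl

/-- Cochains supported on the edges of `G` outside `η` and killed by the first `n` operators. -/
noncomputable def kap (G : SimpleGraph Γ) (C : ℕ → L2 (Γ × Γ) →L[ℝ] L2 Γ) :
    ℕ → Cfg Γ → Submodule ℝ (L2 (Γ × Γ))
  | 0 => fun η => coord fun e => G.Adj e.1 e.2 ∧ ¬ η s(e.1, e.2) = true
  | n + 1 => fun η => kap G C n η ⊓ LinearMap.ker (C n : L2 (Γ × Γ) →ₗ[ℝ] L2 Γ)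

omit [Group Γ] [Countable Γ] in
lemma mem_kap {G : SimpleGraph Γ} {C : ℕ → L2 (Γ × Γ) →L[ℝ] L2 Γ} {n : ℕ} {η : Cfg Γ}
    {θ : L2 (Γ × Γ)} : θ ∈ kap G C n η ↔
      (∀ e : Γ × Γ, ¬ (G.Adj e.1 e.2 ∧ ¬ η s(e.1, e.2) = true) → θ e = 0) ∧ ∀ k < n, C k θ = 0 := by
  induction n with
  | zero => simp only [Nat.not_lt_zero, false_imp_iff, implies_true, and_true]; rfl
  | succ n ih =>
    rw [kap, Submodule.mem_inf, ih, Nat.forall_lt_succ_right, and_assoc]
    rfl

lemma kap_rsub {G : SimpleGraph Γ} (hG : Cay G) {C : ℕ → L2 (Γ × Γ) →L[ℝ] L2 Γ}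
    (hC : ∀ k, ROp (fun (_ : Γ) (u : Unit) => u) fun _ => C k) (n : ℕ) :
    RSub (shift : Γ → _) (kap G C n) := by
  induction n with
  | zero =>
    refine RSet.coord ⟨fun e => measurable_const.and (measurable_edge _).not, fun g η e => ?_⟩
    simp only [Prod.smul_fst, Prod.smul_snd, smul_eq_mul, hG.inv, shift_apply]
  | succ n ih =>
    exact ih.inf_ker ((hC n).factor (π := fun _ => ()) measurable_const fun _ _ => rfl)

theorem exists_kap {G : SimpleGraph Γ} (hG : Cay G) {μ : Measure (Cfg Γ)} [IsProbabilityMeasure μ]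
    (hμ : ∀ᵐ η ∂μ, Complete G η) (hμG : ∀ᵐ η ∂μ, ∀ e, η e = true → e ∈ G.edgeSet) {δ : ℝ≥0∞} (hδ : 0 < δ) :
    ∃ (cyc : ℕ → List (Γ × Γ)) (C : ℕ → L2 (Γ × Γ) →L[ℝ] L2 Γ) (n : ℕ), (∀ k, IsCyc G (cyc k)) ∧
      (∀ k, ROp (fun (_ : Γ) (u : Unit) => u) fun _ => C k) ∧
      (∀ k θ x, C k θ x = ((cyc k).map fun e => θ (x * e.1, x * e.2)).sum) ∧
      dim μ (Prod.fst : Γ × Γ → Γ) (kap G C n) ≤ δ := by
  classical
  have : Nonempty {L : List (Γ × Γ) // IsCyc G L} := ⟨⟨[], by simp, by simp⟩⟩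
  obtain ⟨en, hen⟩ := exists_surjective_nat {L : List (Γ × Γ) // IsCyc G L}
  choose C hC hC' using fun k => exists_cycOp (en k).1
  have hlim := dim_tendsto_zero (P := μ) (Prod.fst : Γ × Γ → Γ) (kap_rsub hG hC)
    (fun n η => inf_le_left) ?_ ?_
  · obtain ⟨n, hn⟩ := (hlim.eventually (ge_mem_nhds hδ)).exists
    exact ⟨fun k => (en k).1, C, n, fun k => (en k).2, hC, hC', hn⟩
  · filter_upwards [hμ, hμG] with η hη hηG θ hθ
    have h0 := (mem_kap.1 (hθ 0)).1
    obtain ⟨f, hf⟩ := exact_of_closed hG.conn θ fun L hL => by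
      obtain ⟨k, hk⟩ := hen ⟨L, hL⟩
      have h1 := (mem_kap.1 (hθ (k + 1))).2 k (Nat.lt_succ_self k)
      have h2 := hC' k θ 1
      rw [h1, hk] at h2
      simpa using h2.symm
    have hc := hη f ?_ ?_
    · ext ⟨x, y⟩
      by_cases hxy : G.Adj x y
      · rw [hf x y hxy, hc x y]; simp
      · exact h0 (x, y) fun h => hxy h.1
    · have hs : Summable fun e : Γ × Γ => ‖θ e‖ ^ (2 : ℝ≥0∞).toReal :=
        (lp.memℓp θ).summable (by simp)
      refine hs.of_nonneg_of_le (fun p => by split_ifs <;> positivity) fun p => ?_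
      split_ifs with hp
      · rw [← hf p.1 p.2 hp]; simp
      · positivity
    · intro x y hxy
      have := h0 (x, y) fun h => h.2 hxy
      rw [hf x y (hηG _ hxy)] at this
      linarith
  · rw [kap, dim_coord]
    refine ne_top_of_le_ne_top (b := ∫⁻ _, ({y | G.Adj 1 y}.encard : ℝ≥0∞) ∂μ) ?_
      (lintegral_mono fun η => ?_)
    · simpa using hG.fin
    · refine ENat.toENNReal_le.2 (Set.encard_le_encard_of_injOn (f := Prod.snd) ?_ ?_)
      · rintro ⟨x, y⟩ ⟨rfl, h, -⟩
        exact h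
      · rintro ⟨x, y⟩ ⟨rfl, -⟩ ⟨x', y'⟩ ⟨rfl, -⟩ rfl
        rfl

end Pool.Agent.FusfTree
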