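import Pool.Agent.P.MP_8fb1ed_pr.SatProb

/-! Levels with independent steps; the error terms of the saturation inequality. -/

open Relation Filter MeasureTheory ProbabilityTheory
open scoped ENNReal

namespace Pool.Agent.FusfTree

variable {Γ : Type*}

/-- A walk in `t` from `x` to `y` with total step `n`. -/
def Lv (t : Γ → Γ → Prop) (c : Γ → Γ → ℤ) (x y : Γ) (n : ℤ) : Prop :=
  ReflTransGen (fun p q : Γ × ℤ => t p.1 q.1 ∧ q.2 = p.2 + c p.1 q.1) (x, 0) (y, n)

open Classical in
/-- The level of `y` seen from `x`. -/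
noncomputable def lvl (t : Γ → Γ → Prop) (c : Γ → Γ → ℤ) (x y : Γ) : ℤ :=
  if h : ∃ n, Lv t c x y n then h.choose else 0

section lv
variable {t : Γ → Γ → Prop} {c : Γ → Γ → ℤ} {p : Γ → ℤ}

lemma Lv.eq (hp : ∀ u w, t u w → p w - p u = c u w) {x y : Γ} {n : ℤ} (h : Lv t c x y n) :
    n = p y - p x := by
  have := potential_rtg (f := fun q : Γ × ℤ => q.2 - p q.1) (fun u w huw => by
    have := hp _ _ huw.1
    have := huw.2
    omega) h
  simp only at this
  omega

lemma Lv.conn {x y : Γ} {n : ℤ} (h : Lv t c x y n) : ReflTransGen t x y :=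
  rtg_lift Prod.fst (fun _ _ h => h.1) h

lemma exists_Lv {x y : Γ} (h : ReflTransGen t x y) : ∃ n, Lv t c x y n := by
  induction h with
  | refl => exact ⟨0, .refl⟩
  | @tail u w _ h2 ih =>
    obtain ⟨n, hn⟩ := ih
    exact ⟨n + c u w, ReflTransGen.tail hn ⟨h2, rfl⟩⟩

lemma lvl_eq (hp : ∀ u w, t u w → p w - p u = c u w) {x y : Γ} (h : ReflTransGen t x y) :
    lvl t c x y = p y - p x := by
  unfold lvl
  rw [dif_pos (exists_Lv h)]
  exact (exists_Lv h).choose_spec.eq hp

lemma lvl_of_not {x y : Γ} (h : ¬ ReflTransGen t x y) : lvl t c x y = 0 :=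
  dif_neg fun ⟨_, hn⟩ => h hn.conn

lemma lvl_eq_iff (hp : ∀ u w, t u w → p w - p u = c u w) (x y : Γ) (n : ℤ) :
    lvl t c x y = n ↔ Lv t c x y n ∨ (n = 0 ∧ ¬ ReflTransGen t x y) := by
  by_cases h : ReflTransGen t x y
  · rw [lvl_eq hp h]
    obtain ⟨m, hm⟩ := exists_Lv (c := c) h
    constructor
    · rintro rfl
      exact .inl (hm.eq hp ▸ hm)
    · rintro (h1 | h1)
      · exact (h1.eq hp).symm
      · exact absurd h h1.2
  · rw [lvl_of_not h]
    exact ⟨fun h1 => .inr ⟨h1.symm, h⟩, fun h1 => h1.elim (fun h2 => absurd h2.conn h)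
      fun h2 => h2.1.symm⟩

end lv

/-- Antisymmetric steps from labels on ordered pairs. -/
def stp {W : ℕ} (X : Γ × Γ → ZMod W) (x y : Γ) : ℤ := ((X (x, y)).val : ℤ) - (X (y, x)).val

lemma stp_potential {W : ℕ} {t : Γ → Γ → Prop} (hs : ∀ u w, t u w → t w u)
    (hac : ∀ u w, t u w → ¬ side t u w u) (X : Γ × Γ → ZMod W) :
    ∃ p : Γ → ℤ, ∀ u w, t u w → p w - p u = stp X u w :=
  exists_potential hs hac _ fun u w _ => by simp [stp]

/-- Independent uniform labels. -/
noncomputable def xi (Γ : Type*) (W : ℕ) [NeZero W] : Measure (Γ × Γ → ZMod W) :=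
  Measure.infinitePi fun _ => uniformOn Set.univ

instance (W : ℕ) [NeZero W] : IsProbabilityMeasure (xi Γ W) := by unfold xi; infer_instance

/-- Translation of labels. -/
def xact [Group Γ] {W : ℕ} (g : Γ) (X : Γ × Γ → ZMod W) : Γ × Γ → ZMod W :=
  fun p => X (g⁻¹ * p.1, g⁻¹ * p.2)

lemma xact_mp [Group Γ] (W : ℕ) [NeZero W] (g : Γ) :
    MeasurePreserving (xact g) (xi Γ W) (xi Γ W) := by
  refine ⟨measurable_pi_lambda _ fun _ => measurable_pi_apply _, ?_⟩
  have := Measure.infinitePi_map_piCongrLeft (X := fun _ : Γ × Γ => ZMod W)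
    (fun _ => uniformOn Set.univ) (MulAction.toPerm g)
  convert this using 2
  · ext X p
    obtain ⟨q, rfl⟩ := (MulAction.toPerm g).surjective p
    rw [MeasurableEquiv.piCongrLeft_apply_apply]
    simp [xact]
  · rfl
  · rfl

lemma unif_map_add (W : ℕ) [NeZero W] (k : ZMod W) :
    (uniformOn (Set.univ : Set (ZMod W))).map (· + k) = uniformOn Set.univ := by
  ext s hs
  rw [Measure.map_apply Measurable.of_discrete hs, uniformOn_univ, uniformOn_univ]
  congr 1
  rw [Measure.count_apply MeasurableSet.of_discrete, Measure.count_apply hs]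
  congr 1
  exact Set.encard_preimage_of_bijective (Equiv.addRight k).bijective s

lemma xi_add (W : ℕ) [NeZero W] (v : Γ × Γ → ZMod W) :
    MeasurePreserving (fun X => X + v) (xi Γ W) (xi Γ W) := by
  refine ⟨measurable_pi_lambda _ fun i => (Measurable.of_discrete (f := (· + v i))).comp
    (measurable_pi_apply i), ?_⟩
  have := Measure.infinitePi_map_pi (X := fun _ : Γ × Γ => ZMod W) (fun _ => uniformOn Set.univ)
    (f := fun i x => x + v i) fun i => Measurable.of_discrete
  simp only [unif_map_add] at this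
  exact this

lemma xi_average [DecidableEq Γ] (W : ℕ) [NeZero W] (i : Γ × Γ) {f : (Γ × Γ → ZMod W) → ℝ≥0∞}
    (hf : Measurable f) {C : ℝ≥0∞} 
    (hC : ∀ X : Γ × Γ → ZMod W, ∑ k : ZMod W, f (X + Pi.single i k) ≤ C) :
    ∫⁻ X, f X ∂(xi Γ W) ≤ C / W := by
  rw [ENNReal.le_div_iff_mul_le (.inl (by exact_mod_cast NeZero.ne W)) (.inl (by simp))]
  calc (∫⁻ X, f X ∂(xi Γ W)) * W = ∑ k : ZMod W, ∫⁻ X, f (X + Pi.single i k) ∂(xi Γ W) := by
        simp only [fun k : ZMod W => (xi_add W (Pi.single i k : Γ × Γ → ZMod W)).lintegral_comp hf]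
        simp [mul_comm]
    _ = ∫⁻ X, ∑ k : ZMod W, f (X + Pi.single i k) ∂(xi Γ W) :=
        (lintegral_finsetSum _ fun k _ => hf.comp (xi_add W _).measurable).symm
    _ ≤ ∫⁻ _, C ∂(xi Γ W) := lintegral_mono hC
    _ = C := by simp

section update
variable [DecidableEq Γ] {W : ℕ} {t b φ : Γ → Γ → Prop} {η : Cfg Γ}

/-- The shift of levels caused by adding `k` to one label. -/
def dlt (x k : ZMod W) : ℤ := ((x + k).val : ℤ) - x.val

lemma dlt_inj [NeZero W] (x : ZMod W) : Function.Injective (dlt x) := by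
  intro k l h
  have : (x + k).val = (x + l).val := by unfold dlt at h; omega
  exact add_left_cancel (ZMod.val_injective W this)

open Classical in
lemma lvl_update (hs : ∀ u w, t u w → t w u) (hac : ∀ u w, t u w → ¬ side t u w u) {o w : Γ}
    (how : t o w) (X : Γ × Γ → ZMod W) (k : ZMod W) {x : Γ} (hx : ReflTransGen t o x) :
    lvl t (stp (X + Pi.single (o, w) k)) o x =
      lvl t (stp X) o x + if side t o w x then dlt (X (o, w)) k else 0 := by
  obtain ⟨p, hp⟩ := stp_potential hs hac X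
  have hne : o ≠ w := by rintro rfl; exact hac _ _ how (side_self _ _)
  have hp' : ∀ u v, t u v → (fun z => p z + if side t o w z then dlt (X (o, w)) k else 0) v -
      (fun z => p z + if side t o w z then dlt (X (o, w)) k else 0) u =
      stp (X + Pi.single (o, w) k) u v := by
    intro u v huv
    have h1 := hp u v huv
    by_cases e1 : (u, v) = (o, w)
    · obtain ⟨rfl, rfl⟩ := Prod.mk.inj e1
      have e2 : (v, u) ≠ (u, v) := fun h => hne (Prod.mk.inj h).2
      simp only [if_pos (side_self u v), if_neg (hac _ _ how), stp, Pi.add_apply,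
        Pi.single_eq_same, Pi.single_eq_of_ne e2, add_zero, dlt] at h1 ⊢
      omega
    by_cases e2 : (v, u) = (o, w)
    · obtain ⟨rfl, rfl⟩ := Prod.mk.inj e2
      simp only [if_pos (side_self v u), if_neg (hac _ _ how), stp, Pi.add_apply,
        Pi.single_eq_same, Pi.single_eq_of_ne e1, add_zero, dlt] at h1 ⊢
      omega
    have e3 : side t o w u ↔ side t o w v := by
      constructor
      · intro h
        by_contra h'
        obtain ⟨rfl, rfl⟩ := side_cross hac how h huv h'
        exact e2 rfl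
      · intro h
        by_contra h'
        obtain ⟨rfl, rfl⟩ := side_cross hac how h (hs _ _ huv) h'
        exact e1 rfl
    simp only [stp, Pi.add_apply, Pi.single_eq_of_ne e1, Pi.single_eq_of_ne e2, add_zero, e3]
      at h1 ⊢
    omega
  rw [lvl_eq hp' hx, lvl_eq hp hx]
  simp only [if_neg (hac _ _ how)]
  ring

omit [DecidableEq Γ] in
lemma jump_congr {lev lev' : Γ → Γ → ℤ} {o w : Γ} {d : ℤ}
    (h : ∀ x, side t o w x → ReflTransGen t o x → lev' o x = lev o x + d) (s : ℤ) :
    jump t b φ η lev' o w s ↔ jump t b φ η lev o w (s - d) := by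
  have : ∀ s, MM t φ η lev' o w s = MM t φ η lev o w (s - d) := by
    intro s
    unfold MM
    congr 1
    ext x y
    refine and_congr_right fun h1 => and_congr_right fun h2 => and_congr_right fun _ =>
      or_congr_right ?_
    rw [h x h1 h2]
    omega
  unfold jump
  rw [this, this, show s + 1 - d = s - d + 1 by ring]

lemma jump_update_same (hs : ∀ u w, t u w → t w u) (hac : ∀ u w, t u w → ¬ side t u w u) {o w : Γ}
    (how : t o w) (X : Γ × Γ → ZMod W) (k : ZMod W) (s : ℤ) :
    jump t b φ η (lvl t (stp (X + Pi.single (o, w) k))) o w s ↔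
      jump t b φ η (lvl t (stp X)) o w (s - dlt (X (o, w)) k) :=
  jump_congr (fun x h1 h2 => by rw [lvl_update hs hac how X k h2, if_pos h1]) s

lemma jump_update_ne (hs : ∀ u w, t u w → t w u) (hac : ∀ u w, t u w → ¬ side t u w u)
    {o w w' : Γ} (how : t o w) (how' : t o w') (hne : w ≠ w') (X : Γ × Γ → ZMod W) (k : ZMod W)
    (s : ℤ) : jump t b φ η (lvl t (stp (X + Pi.single (o, w) k))) o w' s ↔
      jump t b φ η (lvl t (stp X)) o w' s := by
  have := jump_congr (b := b) (φ := φ) (η := η) (d := 0) (w := w') (lev := lvl t (stp X))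
    (lev' := lvl t (stp (X + Pi.single (o, w) k))) (fun x h1 h2 => by
      rw [lvl_update hs hac how X k h2,
        if_neg fun h3 => side_disj hs hac how h3 (side_sub hac how how' hne h1)]) s
  rwa [sub_zero] at this

lemma sum_le_encard [NeZero W] {e : ZMod W → ℤ} (he : Function.Injective e) (Q : ℤ → Prop)
    [DecidablePred Q] :
    ∑ k : ZMod W, (if Q (e k) then (1 : ℝ≥0∞) else 0) ≤ ({s | Q s}.encard : ℝ≥0∞) := by
  rw [encard_eq_tsum, ← tsum_fintype (L := .unconditional _)]
  exact ENNReal.tsum_comp_le_tsum_of_injective he fun s => if Q s then 1 else 0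

end update

section product
variable {Ω : Type*} [Group Γ] [Countable Γ] [MeasurableSpace Ω] {G : SimpleGraph Γ} {r : ℕ}
  {a : Γ → Ω → Ω} {t b φ : Ω → Γ → Γ → Prop} {F : Ω → Cfg Γ}

/-- The diagonal action on the space enlarged by labels. -/
def pact (W : ℕ) (a : Γ → Ω → Ω) (g : Γ) (ω : Ω × (Γ × Γ → ZMod W)) : Ω × (Γ × Γ → ZMod W) :=
  (a g ω.1, xact g ω.2)

omit [Countable Γ] in
lemma pact_mp {P : Measure Ω} [IsProbabilityMeasure P] (ha : ∀ g, MeasurePreserving (a g) P P)
    (W : ℕ) [NeZero W] (g : Γ) :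
    MeasurePreserving (pact W a g) (P.prod (xi Γ W)) (P.prod (xi Γ W)) :=
  (ha g).prod (xact_mp W g)

lemma setup_prod (W : ℕ) [NeZero W] (td : ∀ ω, IsTD G r (t ω) (b ω) (φ ω)) (ht : RRel a t) (hb : RRel a b)
    (hφ : RRel a φ) (Fm : Measurable F) (Fe : ∀ g ω, F (a g ω) = shift g (F ω)) :
    Setup G r (pact W a) (fun ω => t ω.1) (fun ω => b ω.1) (fun ω => φ ω.1) (fun ω => F ω.1)
      fun ω => lvl (t ω.1) (stp ω.2) := by
  have ht' : RRel (pact W a) fun ω => t ω.1 := ht.comp measurable_fst fun _ _ => rfl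
  refine ⟨fun ω => td _, ht', hb.comp measurable_fst fun _ _ => rfl,
    hφ.comp measurable_fst fun _ _ => rfl, Fm.comp measurable_fst, fun g ω => Fe g _, ?_, ?_, ?_⟩
  · intro x y
    refine measurable_to_countable' fun n => ?_
    have : (fun ω : Ω × (Γ × Γ → ZMod W) => lvl (t ω.1) (stp ω.2) x y) ⁻¹' {n} =
        {ω | Lv (t ω.1) (stp ω.2) x y n ∨ (n = 0 ∧ ¬ ReflTransGen (t ω.1) x y)} := by
      ext ω
      obtain ⟨p, hp⟩ := stp_potential (td ω.1).t_symm (td ω.1).acyc ω.2
      exact lvl_eq_iff hp x y n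
    rw [this]
    refine Measurable.setOf (Measurable.or ?_ (measurable_const.and (ht'.rtg.meas x y).not))
    refine measurable_rtg (fun p q : Γ × ℤ => (ht'.meas p.1 q.1).and ?_) _ _
    have hm : Measurable fun ω : Ω × (Γ × Γ → ZMod W) => (ω.2 (p.1, q.1), ω.2 (q.1, p.1)) := by
      fun_prop
    exact (Measurable.of_discrete (f := fun z : ZMod W × ZMod W =>
      q.2 = p.2 + ((z.1.val : ℤ) - z.2.val))).comp hm
  · intro g ω x y
    by_cases h : ReflTransGen (t ω.1) x y
    · obtain ⟨p, hp⟩ := stp_potential (td ω.1).t_symm (td ω.1).acyc ω.2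
      rw [lvl_eq hp h, lvl_eq (p := fun z => p (g⁻¹ * z)) (x := g * x) (y := g * y) _
        ((ht'.rtg.eqv g ω x y).2 h)]
      · simp
      · intro u w huw
        rw [hp]
        · rfl
        · refine (ht'.eqv g ω _ _).1 ?_
          simpa using huw
    · rw [lvl_of_not h, lvl_of_not (x := g * x) (y := g * y) fun h' =>
        h ((ht'.rtg.eqv g ω x y).1 h')]
  · intro ω x y z h1 h2
    obtain ⟨p, hp⟩ := stp_potential (td ω.1).t_symm (td ω.1).acyc ω.2
    rw [lvl_eq hp h1, lvl_eq hp h2, lvl_eq hp (h1.trans h2)]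
    ring

omit [Group Γ] in
open Classical in
lemma lintegral_encard_le {X ι : Type*} [MeasurableSpace X] [Countable ι] {μ : Measure X}
    {U : X → ι → Prop} (hU : ∀ i, Measurable fun x => U x i) {V : ι → Prop}
    {c : ℝ≥0∞} (h1 : ∀ x i, U x i → V i)
    (h2 : ∀ i, V i → ∫⁻ x, (if U x i then 1 else 0) ∂μ ≤ c) :
    ∫⁻ x, ({i | U x i}.encard : ℝ≥0∞) ∂μ ≤ ({i | V i}.encard : ℝ≥0∞) * c := by
  simp only [encard_eq_tsum]
  rw [lintegral_tsum fun i => (Measurable.ite (hU i).setOf measurable_const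
    measurable_const).aemeasurable, ← ENNReal.tsum_mul_right]
  refine ENNReal.tsum_le_tsum fun i => ?_
  by_cases hi : V i
  · rw [if_pos hi, one_mul]; exact h2 i hi
  · simp [fun x => show ¬ U x i from fun h => hi (h1 x i h)]

omit [Group Γ] [Countable Γ] in
lemma lintegral_prod_le {X : Type*} [MeasurableSpace X] {P : Measure Ω} [IsProbabilityMeasure P]
    {μ : Measure X} [IsProbabilityMeasure μ] {f : Ω × X → ℝ≥0∞} (hf : Measurable f) {c : ℝ≥0∞}
    (h : ∀ ω, ∫⁻ x, f (ω, x) ∂μ ≤ c) : ∫⁻ z, f z ∂(P.prod μ) ≤ c := by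
  rw [lintegral_prod _ hf.aemeasurable]
  exact (lintegral_mono h).trans (by simp)

omit [Group Γ] [Countable Γ] in
lemma meas_section {X Y : Type*} [MeasurableSpace X] [MeasurableSpace Y] {f : Ω × X → Y}
    (hf : Measurable f) (ω : Ω) : Measurable fun x => f (ω, x) :=
  hf.comp measurable_prodMk_left

open Classical in
theorem sat_main {P : Measure Ω} [IsProbabilityMeasure P] (ha : ∀ g, MeasurePreserving (a g) P P)
    (W : ℕ) [NeZero W] (td : ∀ ω, IsTD G r (t ω) (b ω) (φ ω)) (ht : RRel a t) (hb : RRel a b)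
    (hφ : RRel a φ) (Fm : Measurable F) (Fe : ∀ g ω, F (a g ω) = shift g (F ω)) :
    ∫⁻ ω, ∑' w, (if t ω.1 1 w ∧ lvl (t ω.1) (stp ω.2) 1 w ≤ 0 then
        (exc (t ω.1) (φ ω.1) (F ω.1) (lvl (t ω.1) (stp ω.2)) (sep (b ω.1) 1 w) : ℝ≥0∞) else 0)
        ∂(P.prod (xi Γ W))
      + P.prod (xi Γ W) {ω | Needed (φ ω.1) (ReflTransGen (t ω.1)) (F ω.1)
          (lvl (t ω.1) (stp ω.2)) 1} ≤
    ∫⁻ ω, (exc (t ω.1) (φ ω.1) (F ω.1) (lvl (t ω.1) (stp ω.2)) {x | b ω.1 1 x} : ℝ≥0∞)
        ∂(P.prod (xi Γ W)) + (r ^ 5 + 2 * r ^ 2) / W := by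
  have h := setup_prod W td ht hb hφ Fm Fe
  have hr : ∀ ω, ({w | t ω 1 w}.encard : ℝ≥0∞) ≤ r := fun ω => by exact_mod_cast (td ω).t_deg 1
  have hj : ∀ ω X w, ({s | jump (t ω) (b ω) (φ ω) (F ω) (lvl (t ω) (stp (W := W) X)) 1 w s}.encard
      : ℝ≥0∞) ≤ r := fun ω X w => by exact_mod_cast jump_count (td ω) 1 w
  have hjm : ∀ ω w s, Measurable fun X : Γ × Γ → ZMod W =>
      jump (t ω) (b ω) (φ ω) (F ω) (lvl (t ω) (stp X)) 1 w s :=
    fun ω w s => by
      have := meas_section (h.jump_meas 1 w s) ω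
      dsimp only at this
      exact this
  have e1 : ∫⁻ ω, ({w | t ω.1 1 w ∧ jump (t ω.1) (b ω.1) (φ ω.1) (F ω.1)
      (lvl (t ω.1) (stp ω.2)) 1 w 0}.encard : ℝ≥0∞) ∂(P.prod (xi Γ W)) ≤ r * (r / W) := by
    refine lintegral_prod_le (measurable_encard_ennreal fun w =>
      (h.ht.meas 1 w).and (h.jump_meas 1 w 0)) fun ω => ?_
    refine (lintegral_encard_le (V := t ω 1) (fun w => measurable_const.and (hjm ω w 0))
      (fun _ _ h => h.1) fun w hw => ?_).trans (mul_le_mul_left (hr ω) _)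
    refine xi_average W (1, w) (Measurable.ite (measurable_const.and (hjm ω w 0)).setOf
      measurable_const measurable_const) fun X => ?_
    simp only [hw, true_and, jump_update_same (td ω).t_symm (td ω).acyc hw]
    exact (sum_le_encard (e := fun k => 0 - dlt (X (1, w)) k)
      (fun k l hkl => dlt_inj _ (sub_right_injective hkl)) _).trans (hj ω X w)
  have e3 : ∫⁻ ω, ({w | t ω.1 1 w ∧ lvl (t ω.1) (stp ω.2) 1 w = 0}.encard : ℝ≥0∞)
      ∂(P.prod (xi Γ W)) ≤ r * (1 / W) := by
    have hm : ∀ w, Measurable fun ω : Ω × (Γ × Γ → ZMod W) => lvl (t ω.1) (stp ω.2) 1 w = 0 :=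
      fun w => (Measurable.of_discrete (f := fun n : ℤ => n = 0)).comp (h.lm 1 w)
    refine lintegral_prod_le (measurable_encard_ennreal fun w =>
      (h.ht.meas 1 w).and (hm w)) fun ω => ?_
    have hm' : ∀ w, Measurable fun X : Γ × Γ → ZMod W => t ω 1 w ∧ lvl (t ω) (stp X) 1 w = 0 :=
      fun w => measurable_const.and (meas_section (hm w) ω)
    refine (lintegral_encard_le (V := t ω 1) hm'
      (fun _ _ h => h.1) fun w hw => ?_).trans (mul_le_mul_left (hr ω) _)
    refine xi_average W (1, w) (Measurable.ite (hm' w).setOf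
      measurable_const measurable_const) fun X => ?_
    simp only [hw, true_and, lvl_update (td ω).t_symm (td ω).acyc hw X _ (.single hw),
      if_pos (side_self 1 w)]
    refine (sum_le_encard (e := fun k => lvl (t ω) (stp X) 1 w + dlt (X (1, w)) k)
      (fun k l hkl => dlt_inj _ (add_left_cancel hkl)) (· = 0)).trans ?_
    simp
  have e2 : ∫⁻ ω, ∑' s : ℤ, ({p : Γ × Γ |
      (t ω.1 1 p.1 ∧ jump (t ω.1) (b ω.1) (φ ω.1) (F ω.1) (lvl (t ω.1) (stp ω.2)) 1 p.1 s) ∧
      (t ω.1 1 p.2 ∧ jump (t ω.1) (b ω.1) (φ ω.1) (F ω.1) (lvl (t ω.1) (stp ω.2)) 1 p.2 s) ∧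
        p.1 ≠ p.2}.encard : ℝ≥0∞) ∂(P.prod (xi Γ W)) ≤ r * r * (r * r / W) := by
    refine lintegral_prod_le (Measurable.tsum fun s => measurable_encard_ennreal fun p : Γ × Γ =>
      ((h.ht.meas 1 p.1).and (h.jump_meas 1 p.1 s)).and
      (((h.ht.meas 1 p.2).and (h.jump_meas 1 p.2 s)).and measurable_const)) fun ω => ?_
    set J : (Γ × Γ → ZMod W) → Γ → ℤ → Prop := fun X w s =>
      jump (t ω) (b ω) (φ ω) (F ω) (lvl (t ω) (stp X)) 1 w s with hJ
    have hm : ∀ p : Γ × Γ, Measurable fun X => ∑' s : ℤ,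
        if (t ω 1 p.1 ∧ J X p.1 s) ∧ (t ω 1 p.2 ∧ J X p.2 s) ∧ p.1 ≠ p.2 then (1 : ℝ≥0∞) else 0 :=
      fun p => Measurable.tsum fun s => Measurable.ite
        ((measurable_const.and (hjm ω p.1 s)).and
          ((measurable_const.and (hjm ω p.2 s)).and measurable_const)).setOf
        measurable_const measurable_const
    calc _ = ∑' p : Γ × Γ, ∫⁻ X, ∑' s : ℤ, (if (t ω 1 p.1 ∧ J X p.1 s) ∧ (t ω 1 p.2 ∧ J X p.2 s)
              ∧ p.1 ≠ p.2 then (1 : ℝ≥0∞) else 0) ∂(xi Γ W) := by
          rw [← lintegral_tsum fun p => (hm p).aemeasurable]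
          refine lintegral_congr fun X => ?_
          simp only [encard_eq_tsum]
          exact ENNReal.tsum_comm
      _ ≤ ∑' p : Γ × Γ, (if t ω 1 p.1 then (1 : ℝ≥0∞) else 0) * (if t ω 1 p.2 then 1 else 0) *
            (r * r / W) := by
          refine ENNReal.tsum_le_tsum fun ⟨w, w'⟩ => ?_
          by_cases hw : t ω 1 w
          swap
          · simp [hw]
          by_cases hw' : t ω 1 w'
          swap
          · simp [hw']
          by_cases hne : w = w'
          · simp [hne]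
          simp only [if_pos hw, if_pos hw', one_mul]
          refine xi_average W (1, w) (hm (w, w')) fun X => ?_
          simp only [hJ, hw, hw', true_and, ne_eq, hne, not_false_eq_true, and_true,
            jump_update_same (td ω).t_symm (td ω).acyc hw,
            jump_update_ne (td ω).t_symm (td ω).acyc hw hw' hne]
          rw [← Summable.tsum_finsetSum fun _ _ => ENNReal.summable]
          calc _ ≤ ∑' s : ℤ, r * if J X w' s then (1 : ℝ≥0∞) else 0 := by
                refine ENNReal.tsum_le_tsum fun s => ?_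
                by_cases hs : J X w' s
                · have hs' := hs
                  simp only [hJ] at hs'
                  simp only [hs', and_true, if_pos hs, mul_one]
                  exact (sum_le_encard (e := fun k => s - dlt (X (1, w)) k)
                    (fun k l hkl => dlt_inj _ (sub_right_injective hkl)) _).trans (hj ω X w)
                · have hs' := hs
                  simp only [hJ] at hs'
                  simp [hs']
            _ ≤ r * r := by
                rw [ENNReal.tsum_mul_left, ← encard_eq_tsum]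
                exact mul_le_mul_right (hj ω X w') _
      _ ≤ r * r * (r * r / W) := by
          rw [ENNReal.tsum_mul_right, ENNReal.tsum_prod' ]
          gcongr
          have : ∀ u : Γ, (∑' v : Γ, (if t ω 1 u then (1 : ℝ≥0∞) else 0) *
              if t ω 1 v then 1 else 0) = (if t ω 1 u then (1 : ℝ≥0∞) else 0) *
              ∑' v : Γ, if t ω 1 v then 1 else 0 := fun u => ENNReal.tsum_mul_left
          rw [tsum_congr this, ENNReal.tsum_mul_right, ← encard_eq_tsum]
          exact mul_le_mul' (hr ω) (hr ω)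
  refine (h.sat_prob (pact_mp ha W)).trans ?_
  rw [add_assoc, add_assoc]
  gcongr
  refine (add_le_add e1 (add_le_add (mul_le_mul_right e2 _) (mul_le_mul_right e3 _))).trans
    (le_of_eq ?_)
  simp only [div_eq_mul_inv]
  ring

end product

end Pool.Agent.FusfTree
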