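import Pool.Agent.P.MP_8fb1ed_pr.Basic

/-! A random tree decomposition with bounded bags of most of the Cayley graph. -/

open MeasureTheory Filter Topology Relation
open scoped ENNReal

namespace Pool.Agent.FusfTree

namespace TruncAux

section det
variable {V : Type*}

/-- There is a chain of length at most `L`. -/
def wl (R : V → V → Prop) : ℕ → V → V → Prop
  | 0, x, y => x = y
  | L + 1, x, y => x = y ∨ ∃ z, R x z ∧ wl R L z y

/-- Every chain from `x` to `y` passes through `v`. -/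
def cut (R : V → V → Prop) (x y v : V) : Prop :=
  v = x ∨ ¬ ReflTransGen (fun p q => R p q ∧ q ≠ v) x y

/-- `v` is on every walk from `x` to `y`, and there is a short one. -/
def onp (R : V → V → Prop) (L : ℕ) (x y v : V) : Prop := wl R L x y ∧ cut R x y v

lemma wl_iff (T : SimpleGraph V) (L : ℕ) (x y : V) :
    wl T.Adj L x y ↔ ∃ p : T.Walk x y, p.length ≤ L := by
  induction L generalizing x with
  | zero =>
    constructor
    · rintro rfl; exact ⟨.nil, le_rfl⟩
    · rintro ⟨p, hp⟩; exact p.eq_of_length_eq_zero (Nat.le_zero.1 hp)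
  | succ L ih =>
    constructor
    · rintro (rfl | ⟨z, h1, h2⟩)
      · exact ⟨.nil, by simp⟩
      · obtain ⟨p, hp⟩ := (ih z).1 h2
        exact ⟨.cons h1 p, by simpa using hp⟩
    · rintro ⟨p, hp⟩
      cases p with
      | nil => exact .inl rfl
      | cons h p => exact .inr ⟨_, h, (ih _).2 ⟨p, by simpa using hp⟩⟩

lemma walk_rtg {T : SimpleGraph V} {R : V → V → Prop} {x y : V} (p : T.Walk x y)
    (h : ∀ a b, T.Adj a b → a ∈ p.support → b ∈ p.support → R a b) : ReflTransGen R x y := by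
  induction p with
  | nil => exact .refl
  | cons hadj p ih =>
    exact .head (h _ _ hadj (by simp) (by simp))
      (ih fun a b hab ha hb => h a b hab (by simp [ha]) (by simp [hb]))

lemma cut_iff (T : SimpleGraph V) (x y v : V) :
    cut T.Adj x y v ↔ ∀ p : T.Walk x y, v ∈ p.support := by
  constructor
  · rintro (rfl | h) p
    · exact p.start_mem_support
    · by_contra hv
      exact h (walk_rtg p fun a b hab _ hb => ⟨hab, fun e => hv (e ▸ hb)⟩)
  · intro h
    by_cases hv : v = x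
    · exact .inl hv
    refine .inr fun hr => ?_
    have key : ∃ p : T.Walk x y, v ∉ p.support := by
      clear h
      induction hr with
      | refl => exact ⟨.nil, by simpa using hv⟩
      | tail _ h2 ih =>
        obtain ⟨p, hp⟩ := ih
        exact ⟨p.concat h2.1, by simp [hp, h2.2.symm]⟩
    obtain ⟨p, hp⟩ := key
    exact hp (h p)

lemma onp_iff (T : SimpleGraph V) (L : ℕ) (x y v : V) : onp T.Adj L x y v ↔
    (∃ p : T.Walk x y, p.length ≤ L) ∧ ∀ p : T.Walk x y, v ∈ p.support := by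
  rw [onp, wl_iff, cut_iff]

variable {T : SimpleGraph V} {L : ℕ} {x y v : V}

lemma onp_symm (h : onp T.Adj L x y v) : onp T.Adj L y x v := by
  rw [onp_iff] at h ⊢
  obtain ⟨⟨p, hp⟩, h2⟩ := h
  exact ⟨⟨p.reverse, by simpa using hp⟩, fun q => by simpa using h2 q.reverse⟩

lemma onp_left (h : wl T.Adj L x y) : onp T.Adj L x y x := ⟨h, .inl rfl⟩

lemma encard_onp (T : SimpleGraph V) (L : ℕ) (x y : V) :
    {v | onp T.Adj L x y v}.encard ≤ (L + 1 : ℕ) := by
  classical
  by_cases h : ∃ p : T.Walk x y, p.length ≤ L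
  · obtain ⟨p, hp⟩ := h
    have : {v | onp T.Adj L x y v} ⊆ (p.support.toFinset : Set V) := fun v hv => by
      simpa using ((onp_iff T L x y v).1 hv).2 p
    refine (Set.encard_le_encard this).trans ?_
    rw [Set.encard_coe_eq_coe_finsetCard]
    exact_mod_cast (List.toFinset_card_le _).trans (by rw [p.length_support]; omega)
  · have : {v | onp T.Adj L x y v} = ∅ :=
      Set.eq_empty_of_forall_notMem fun v hv => h ((onp_iff T L x y v).1 hv).1
    simp [this]

lemma onp_walk (hT : T.IsAcyclic) (h : onp T.Adj L x y v) :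
    ReflTransGen (fun p q => T.Adj p q ∧ onp T.Adj L x y p ∧ onp T.Adj L x y q) x v := by
  classical
  obtain ⟨⟨p, hp⟩, h2⟩ := (onp_iff T L x y v).1 h
  have key : ∀ a ∈ p.bypass.support, onp T.Adj L x y a := fun a ha =>
    (onp_iff T L x y a).2 ⟨⟨p, hp⟩, fun q => by
      have e : p.bypass = q.bypass := congrArg Subtype.val
        (hT.path_unique ⟨p.bypass, p.bypass_isPath⟩ ⟨q.bypass, q.bypass_isPath⟩)
      exact q.support_bypass_subset_support (e ▸ ha)⟩
  exact walk_rtg (p.bypass.takeUntil v (h2 _)) fun a b hab ha hb =>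
    ⟨hab, key a (p.bypass.support_takeUntil_subset_support _ ha),
      key b (p.bypass.support_takeUntil_subset_support _ hb)⟩

lemma acyclic_iff (T : SimpleGraph V) : T.IsAcyclic ↔
    ∀ u w, T.Adj u w → ¬ ReflTransGen (fun p q => T.Adj p q ∧ s(p, q) ≠ s(u, w)) u w := by
  have key : ∀ u w, T.IsBridge s(u, w) ↔
      ¬ ReflTransGen (fun p q => T.Adj p q ∧ s(p, q) ≠ s(u, w)) u w := fun u w => by
    rw [SimpleGraph.isBridge_iff, SimpleGraph.reachable_iff_reflTransGen]
    have : (T.deleteEdges {s(u, w)}).Adj = fun p q => T.Adj p q ∧ s(p, q) ≠ s(u, w) := by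
      ext p q; simp
    rw [this]
  rw [SimpleGraph.isAcyclic_iff_forall_isBridge]
  constructor
  · exact fun h u w huw => (key u w).1 (h huw)
  · intro h e he
    induction e using Sym2.ind with
    | _ u w => exact (key u w).2 (h u w he)

/-- The number of edges of `G` routed through `v`. -/
noncomputable def load (G : SimpleGraph V) (R : V → V → Prop) (L : ℕ) (v : V) : ℕ∞ :=
  {p : V × V | G.Adj p.1 p.2 ∧ onp R L p.1 p.2 v}.encard

/-- The good edges. -/
def phi (G : SimpleGraph V) (R : V → V → Prop) (L M : ℕ) (x y : V) : Prop :=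
  G.Adj x y ∧ wl R L x y ∧ ∀ v, onp R L x y v → load G R L v ≤ M

/-- The edges of the forest that are used. -/
def tr (G : SimpleGraph V) (R : V → V → Prop) (L M : ℕ) (u w : V) : Prop :=
  R u w ∧ ∃ x y, phi G R L M x y ∧ onp R L x y u ∧ onp R L x y w

/-- The bags. -/
def bag (G : SimpleGraph V) (R : V → V → Prop) (L M : ℕ) (v x : V) : Prop :=
  x = v ∨ ∃ y, phi G R L M x y ∧ onp R L x y v

lemma encard_biUnion_le {α β : Type*} {S : Set α} {f : α → Set β} {m k : ℕ} (hS : S.encard ≤ m)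
    (hf : ∀ a ∈ S, (f a).encard ≤ k) : (⋃ a ∈ S, f a).encard ≤ (m * k : ℕ) := by
  have hfin : S.Finite := Set.finite_of_encard_le_coe hS
  have key : ∀ S : Set α, S.Finite → (∀ a ∈ S, (f a).encard ≤ k) →
      (⋃ a ∈ S, f a).encard ≤ S.encard * k := by
    intro S hS
    induction S, hS using Set.Finite.induction_on with
    | empty => simp
    | insert ha _ ih =>
      intro h
      rw [Set.biUnion_insert, Set.encard_insert_of_notMem ha, add_mul, one_mul, add_comm]
      exact (Set.encard_union_le _ _).trans (add_le_add (h _ (by simp))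
        (ih fun a ha => h a (by simp [ha])))
  refine (key S hfin hf).trans ?_
  push_cast
  gcongr

lemma phi_symm {G : SimpleGraph V} {M : ℕ} (h : phi G T.Adj L M x y) : phi G T.Adj L M y x :=
  ⟨h.1.symm, (onp_symm (onp_left h.2.1)).1, fun v hv => h.2.2 v (onp_symm hv)⟩

lemma isTD (G : SimpleGraph V) (hT : T.IsAcyclic) (L M : ℕ) :
    IsTD G ((M + 1) * (L + 1)) (tr G T.Adj L M) (bag G T.Adj L M) (phi G T.Adj L M) where
  t_symm u w := fun ⟨h, x, y, h1, h2, h3⟩ => ⟨h.symm, x, y, h1, h3, h2⟩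
  acyc u w h hs := (acyclic_iff T).1 hT w u h.1.symm
    (rtg_mono (fun p q hpq => ⟨hpq.1.1, by rw [Sym2.eq_swap (a := w)]; exact hpq.2⟩) hs)
  t_deg u := by
    rcases Set.eq_empty_or_nonempty {w | tr G T.Adj L M u w} with e | ⟨w0, -, x0, y0, h1, h2, -⟩
    · simp [e]
    refine le_trans (Set.encard_le_encard ?_) ((encard_biUnion_le
      (f := fun p : V × V => {v | onp T.Adj L p.1 p.2 v}) (h1.2.2 u h2)
      fun p _ => encard_onp T L p.1 p.2).trans (by exact_mod_cast (by nlinarith)))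
    rintro w ⟨-, x, y, h3, h4, h5⟩
    exact Set.mem_biUnion (x := (x, y)) ⟨h3.1, h4⟩ h5
  b_self v := .inl rfl
  b_card v := by
    have e : ((M + 1 : ℕ) : ℕ∞) ≤ ((M + 1) * (L + 1) : ℕ) := by
      exact_mod_cast (by nlinarith)
    refine le_trans ?_ e
    by_cases hv : load G T.Adj L v ≤ M
    · have : {x | bag G T.Adj L M v x} ⊆
          insert v (Prod.fst '' {p : V × V | G.Adj p.1 p.2 ∧ onp T.Adj L p.1 p.2 v}) := by
        rintro x (rfl | ⟨y, h1, h2⟩)
        · simp
        · exact .inr ⟨(x, y), ⟨h1.1, h2⟩, rfl⟩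
      refine (Set.encard_le_encard this).trans ((Set.encard_insert_le _ _).trans ?_)
      push_cast
      gcongr
      exact (Set.encard_image_le _ _).trans hv
    · have : {x | bag G T.Adj L M v x} ⊆ {v} := by
        rintro x (rfl | ⟨y, h1, h2⟩)
        · simp
        · exact (hv (h1.2.2 v h2)).elim
      refine (Set.encard_le_encard this).trans ?_
      simp
  b_walk v x := by
    rintro (rfl | ⟨y, h1, h2⟩)
    · exact .refl
    · exact rtg_mono (fun p q h => ⟨⟨h.1, x, y, h1, h.2.1, h.2.2⟩, .inr ⟨y, h1, h.2.2⟩⟩)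
        (onp_walk hT h2)
  φ_symm x y := phi_symm
  φ_adj x y h := h.1
  φ_bag x y h := .inr ⟨x, phi_symm h, onp_symm (onp_left h.2.1)⟩

end det

section rand
variable {Γ Ω : Type*} [Group Γ] [Countable Γ] [MeasurableSpace Ω] {a : Γ → Ω → Ω}
  {R : Ω → Γ → Γ → Prop} {G : SimpleGraph Γ}

lemma rrel_wl (h : RRel a R) (L : ℕ) : RRel a fun ω => wl (R ω) L := by
  induction L with
  | zero => exact ⟨fun _ _ => measurable_const, fun g ω x y => by simp [wl]⟩
  | succ L ih =>
    refine ⟨fun x y => measurable_const.or (Measurable.exists fun z => (h.meas x z).and (ih.meas z y)),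
      fun g ω x y => ?_⟩
    simp only [wl]
    rw [exists_smul g]
    simp only [h.eqv, ih.eqv, smul_left_cancel_iff]

lemma meas_onp (h : RRel a R) (L : ℕ) (x y v : Γ) : Measurable fun ω => onp (R ω) L x y v :=
  ((rrel_wl h L).meas x y).and (measurable_const.or
    (measurable_rtg (fun p q => (h.meas p q).and measurable_const) x y).not)

lemma eqv_onp (h : RRel a R) (L : ℕ) (g : Γ) (ω : Ω) (x y v : Γ) :
    onp (R (a g ω)) L (g • x) (g • y) (g • v) ↔ onp (R ω) L x y v := by
  have := rtg_equiv (MulAction.toPerm g) (R := fun p q => R ω p q ∧ q ≠ v)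
    (R' := fun p q => R (a g ω) p q ∧ q ≠ g • v)
    (fun p q => by simp only [MulAction.toPerm_apply, h.eqv, ne_eq, smul_left_cancel_iff]) x y
  simp only [MulAction.toPerm_apply] at this
  simp only [onp, cut, (rrel_wl h L).eqv, this, smul_left_cancel_iff]

lemma meas_load (h : RRel a R) (L : ℕ) (v : Γ) : Measurable fun ω => load G (R ω) L v :=
  measurable_encard_set (U := fun ω (p : Γ × Γ) => G.Adj p.1 p.2 ∧ onp (R ω) L p.1 p.2 v)
    fun p => measurable_const.and (meas_onp h L p.1 p.2 v)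

lemma eqv_load (hG : Cay G) (h : RRel a R) (L : ℕ) (g : Γ) (ω : Ω) (v : Γ) :
    load G (R (a g ω)) L (g • v) = load G (R ω) L v := by
  rw [load, ← encard_smul g fun p : Γ × Γ => G.Adj p.1 p.2 ∧ onp (R (a g ω)) L p.1 p.2 (g • v)]
  simp only [Prod.smul_fst, Prod.smul_snd, eqv_onp h]
  simp only [smul_eq_mul, hG.inv]
  rfl

lemma rrel_phi (hG : Cay G) (h : RRel a R) (L M : ℕ) : RRel a fun ω => phi G (R ω) L M := by
  refine ⟨fun x y => measurable_const.and (((rrel_wl h L).meas x y).and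
    (Measurable.forall fun v => (meas_onp h L x y v).imp
      ((Measurable.of_discrete (f := fun n : ℕ∞ => n ≤ M)).comp (meas_load h L v)))),
    fun g ω x y => ?_⟩
  simp only [phi]
  rw [forall_smul g]
  simp only [(rrel_wl h L).eqv, eqv_onp h, eqv_load hG h]
  simp only [smul_eq_mul, hG.inv]

lemma rrel_tr (hG : Cay G) (h : RRel a R) (L M : ℕ) : RRel a fun ω => tr G (R ω) L M := by
  refine ⟨fun u w => (h.meas u w).and (Measurable.exists fun x => Measurable.exists fun y =>
    ((rrel_phi hG h L M).meas x y).and ((meas_onp h L x y u).and (meas_onp h L x y w))),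
    fun g ω u w => ?_⟩
  simp only [tr, h.eqv]
  rw [exists_smul g]
  refine and_congr_right fun _ => exists_congr fun x => ?_
  rw [exists_smul g]
  simp only [(rrel_phi hG h L M).eqv, eqv_onp h]

lemma rrel_bag (hG : Cay G) (h : RRel a R) (L M : ℕ) : RRel a fun ω => bag G (R ω) L M := by
  refine ⟨fun v x => measurable_const.or (Measurable.exists fun y =>
    ((rrel_phi hG h L M).meas x y).and (meas_onp h L x y v)), fun g ω v x => ?_⟩
  simp only [bag]
  rw [exists_smul g]
  simp only [(rrel_phi hG h L M).eqv, eqv_onp h, smul_left_cancel_iff]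

lemma load_ae {P : Measure Ω} [IsProbabilityMeasure P] (ha : ∀ g, MeasurePreserving (a g) P P)
    (hG : Cay G) {T : Ω → SimpleGraph Γ} (h : RRel a fun ω => (T ω).Adj) (L : ℕ) (v : Γ) :
    P {ω | load G (T ω).Adj L v = ⊤} = 0 := by
  classical
  have hU : RSet a fun ω v => load G (T ω).Adj L v = ⊤ :=
    ⟨fun v => (Measurable.of_discrete (f := fun n : ℕ∞ => n = ⊤)).comp (meas_load h L v),
      fun g ω v => by rw [eqv_load hG h]⟩
  rw [hU.prob_eq ha v]
  have key := mtp ha (f := fun ω x v => ∑' y, if G.Adj x y ∧ onp (T ω).Adj L x y v then 1 else 0)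
    (fun x v => Measurable.ennreal_tsum fun y => Measurable.ite
      (measurable_const.and (meas_onp h L x y v)).setOf measurable_const measurable_const)
    (fun g ω x v => by
      rw [← (MulAction.toPerm g).tsum_eq]
      refine tsum_congr fun y => ?_
      have := eqv_onp h L g ω x y v
      simp only [smul_eq_mul] at this
      simp only [MulAction.toPerm_apply, smul_eq_mul, hG.inv, this])
  have e1 : ∀ ω, ∑' x, ∑' y, (if G.Adj x y ∧ onp (T ω).Adj L x y 1 then (1 : ℝ≥0∞) else 0) =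
      (load G (T ω).Adj L 1 : ℝ≥0∞) := fun ω => by
    rw [load, encard_eq_tsum, ENNReal.tsum_prod']
  have e2 : ∀ ω, ∑' v, ∑' y, (if G.Adj 1 y ∧ onp (T ω).Adj L 1 y v then (1 : ℝ≥0∞) else 0) ≤
      ({y | G.Adj 1 y}.encard : ℝ≥0∞) * (L + 1 : ℕ) := fun ω => by
    rw [ENNReal.tsum_comm, encard_eq_tsum, ← ENNReal.tsum_mul_right]
    refine ENNReal.tsum_le_tsum fun y => ?_
    by_cases hy : G.Adj 1 y
    · simp only [hy, true_and, if_true, one_mul]
      rw [← encard_eq_tsum]
      exact_mod_cast ENat.toENNReal_le.2 (encard_onp (T ω) L 1 y)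
    · simp [hy]
  have e3 : ∫⁻ ω, (load G (T ω).Adj L 1 : ℝ≥0∞) ∂P ≠ ⊤ := by
    simp only [e1] at key
    rw [← key]
    refine ne_top_of_le_ne_top ?_ (lintegral_mono e2)
    rw [lintegral_const, measure_univ, mul_one]
    exact ENNReal.mul_ne_top (by simpa using hG.fin.encard_lt_top.ne) (by simp)
  have e4 := ae_lt_top ((Measurable.of_discrete (f := fun n : ℕ∞ => (n : ℝ≥0∞))).comp
    (meas_load h L 1)) e3
  refine measure_mono_null (fun ω hω => ?_) (ae_iff.1 e4)
  have hω' : load G (T ω).Adj L 1 = ⊤ := hω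
  simp [hω']

omit [Group Γ] [Countable Γ] in
lemma ev_small {P : Measure Ω} [IsProbabilityMeasure P] {s : ℕ → Set Ω}
    (hs : ∀ n, MeasurableSet (s n)) (hm : Antitone s) (h0 : P (⋂ n, s n) = 0) {ε : ℝ≥0∞}
    (hε : 0 < ε) : ∀ᶠ n in atTop, P (s n) ≤ ε := by
  have := tendsto_measure_iInter_atTop (μ := P) (fun n => (hs n).nullMeasurableSet) hm
    ⟨0, measure_ne_top _ _⟩
  rw [h0] at this
  exact ENNReal.tendsto_nhds_zero.1 this ε hε

end rand

/-- The configuration if it is a forest, the empty graph otherwise. -/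
def forest {Γ : Type*} (η : Cfg Γ) : SimpleGraph Γ where
  Adj x y := (graphOf η).IsAcyclic ∧ (graphOf η).Adj x y
  symm := ⟨fun _ _ h => ⟨h.1, h.2.symm⟩⟩
  loopless := ⟨fun _ h => h.2.ne rfl⟩

lemma forest_acyclic {Γ : Type*} (η : Cfg Γ) : (forest η).IsAcyclic := by
  by_cases h : (graphOf η).IsAcyclic
  · exact h.anti fun _ _ h => h.2
  · exact SimpleGraph.isAcyclic_bot.anti fun _ _ h' => (h h'.1).elim

lemma rrel_forest {Γ : Type*} [Group Γ] [Countable Γ] :
    RRel (shift : Γ → Cfg Γ → Cfg Γ) fun η => (forest η).Adj := by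
  refine ⟨fun x y => Measurable.and ?_ (rrel_adj.meas x y), fun g η x y =>
    and_congr ?_ (rrel_adj.eqv g η x y)⟩
  · simp only [acyclic_iff]
    exact Measurable.forall fun u => Measurable.forall fun w => (rrel_adj.meas u w).imp
      (measurable_rtg (fun p q => (rrel_adj.meas p q).and measurable_const) u w).not
  · exact (SimpleGraph.Iso.isAcyclic_iff
      (⟨MulAction.toPerm g, fun {x y} => graphOf_shift_adj g η x y⟩ :
        graphOf η ≃g graphOf (shift g η))).symm

end TruncAux

open TruncAux in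
theorem exists_td {Γ : Type*} [Group Γ] [Countable Γ] {G : SimpleGraph Γ} (hG : Cay G)
    (hT : ApproxTreeable Γ) {ε : ℝ≥0∞} (hε : 0 < ε) :
    ∃ (τ : Measure (Cfg Γ)) (r : ℕ) (t b φ : Cfg Γ → Γ → Γ → Prop), IsProbabilityMeasure τ ∧
      (∀ g : Γ, τ.map (shift g) = τ) ∧ RRel (shift : Γ → _) t ∧ RRel (shift : Γ → _) b ∧
      RRel (shift : Γ → _) φ ∧ (∀ η, IsTD G r (t η) (b η) (φ η)) ∧
      ∀ y, G.Adj 1 y → τ {η | ¬ φ η 1 y} ≤ ε := by
  have h3 : 0 < ε / 3 := ENNReal.div_pos hε.ne' (by simp)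
  obtain ⟨τ, hp, hi, hac, hr⟩ := hT hG.fin.toFinset (ε / 3) h3
  have ha : ∀ g : Γ, MeasurePreserving (shift g) τ τ := fun g => ⟨measurable_shift g, hi g⟩
  have hR := rrel_forest (Γ := Γ)
  have s1 : ∀ y ∈ {y | G.Adj 1 y}, ∀ᶠ L in atTop,
      τ {η | (∃ n, wl (forest η).Adj n 1 y) ∧ ¬ wl (forest η).Adj L 1 y} ≤ ε / 3 := by
    intro y _
    refine ev_small (fun L => ((Measurable.exists fun n => (rrel_wl hR n).meas 1 y).and
      ((rrel_wl hR L).meas 1 y).not).setOf) (fun L L' hL η hη => ⟨hη.1, fun h => hη.2 ?_⟩) ?_ h3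
    · rw [wl_iff] at h ⊢
      exact h.imp fun p hp => hp.trans hL
    · refine measure_mono_null (fun η hη => ?_) measure_empty
      obtain ⟨n, hn⟩ := (Set.mem_iInter.1 hη 0).1
      exact (Set.mem_iInter.1 hη n).2 hn
  obtain ⟨L, hL⟩ := ((eventually_all_finite hG.fin).2 s1).exists
  have s2 : ∀ y ∈ {y | G.Adj 1 y}, ∀ᶠ M : ℕ in atTop,
      τ {η | ¬ ∀ v, onp (forest η).Adj L 1 y v → load G (forest η).Adj L v ≤ M} ≤ ε / 3 := by
    intro y _
    refine ev_small (fun M => (Measurable.forall fun v => (meas_onp hR L 1 y v).imp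
      ((Measurable.of_discrete (f := fun n : ℕ∞ => n ≤ M)).comp (meas_load hR L v))).not.setOf)
      (fun M M' hM η hη h => hη fun v hv => (h v hv).trans (by exact_mod_cast hM)) ?_ h3
    refine measure_mono_null (fun η hη => ?_) (measure_iUnion_null fun v => load_ae ha hG hR L v)
    by_contra hc
    simp only [Set.mem_iUnion, Set.mem_setOf_eq, not_exists] at hc
    obtain ⟨M, hM⟩ := ((Set.finite_of_encard_le_coe (encard_onp (forest η) L 1 y)).image
      fun v => (load G (forest η).Adj L v).toNat).bddAbove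
    refine Set.mem_iInter.1 hη M fun v hv => ?_
    show load G (forest η).Adj L v ≤ (M : ℕ∞)
    rw [← ENat.coe_toNat (hc v)]
    exact_mod_cast hM ⟨v, hv, rfl⟩
  obtain ⟨M, hM⟩ := ((eventually_all_finite hG.fin).2 s2).exists
  refine ⟨τ, (M + 1) * (L + 1), _, _, _, hp, hi, rrel_tr hG hR L M, rrel_bag hG hR L M,
    rrel_phi hG hR L M, fun η => isTD G (forest_acyclic η) L M, fun y hy => ?_⟩
  have sub : {η | ¬ phi G (forest η).Adj L M 1 y} ⊆
      (({η | ¬ (graphOf η).IsAcyclic} ∪ {η | ¬ (graphOf η).Reachable 1 y}) ∪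
        {η | (∃ n, wl (forest η).Adj n 1 y) ∧ ¬ wl (forest η).Adj L 1 y}) ∪
        {η | ¬ ∀ v, onp (forest η).Adj L 1 y v → load G (forest η).Adj L v ≤ M} := by
    intro η hη
    by_contra hc
    simp only [Set.mem_union, Set.mem_setOf_eq, not_or, not_not, not_and] at hc
    obtain ⟨⟨⟨c1, c2⟩, c3⟩, c4⟩ := hc
    obtain ⟨p⟩ := c2.mono (G' := forest η) fun _ _ h => ⟨c1, h⟩
    exact hη ⟨hy, c3 ⟨p.length, (wl_iff _ _ _ _).2 ⟨p, le_rfl⟩⟩, c4⟩
  refine (measure_mono sub).trans ((measure_union_le _ _).trans ?_)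
  rw [← ENNReal.add_thirds ε]
  refine add_le_add ((measure_union_le _ _).trans (add_le_add ((measure_union_le _ _).trans ?_)
    (hL y hy))) (hM y hy)
  rw [ae_iff.1 hac, zero_add]
  exact hr y (by simpa using hy)

end Pool.Agent.FusfTree
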