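import Pool.Agent.P.MP_8fb1ed_pr.UstLim

/-! Almost surely no nonconstant function of finite energy is constant on the trees of the
free uniform spanning forest. -/

open MeasureTheory Filter Topology
open scoped ENNReal

namespace Pool.Agent.FusfTree

/-- A set of configurations that depends on finitely many pairs only is clopen. -/
lemma isClopen_of_finite_dep {Γ : Type*} (W : Finset (Sym2 Γ)) {E : Set (Cfg Γ)}
    (hE : ∀ η η' : Cfg Γ, (∀ e ∈ W, η e = η' e) → η ∈ E → η' ∈ E) : IsClopen E := by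
  have hc : Continuous (fun η : Cfg Γ => fun e : W => η e) :=
    continuous_pi fun e => continuous_apply _
  have h : E = (fun η : Cfg Γ => fun e : W => η e) ⁻¹'
      ((fun η : Cfg Γ => fun e : W => η e) '' E) := by
    ext η
    constructor
    · exact fun h => ⟨η, h, rfl⟩
    · rintro ⟨η', h1, h2⟩
      exact hE η' η (fun e he => congrFun h2 ⟨e, he⟩) h1
  rw [h]
  exact (isClopen_discrete _).preimage hc

/-- An eventual bound on the spanning tree probabilities of a clopen set passes to the limit. -/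
lemma IsFUSF.le_of_clopen {Γ : Type*} [Countable Γ] {G : SimpleGraph Γ} {μ : Measure (Cfg Γ)}
    (hμ : IsFUSF G μ) {V : ℕ → Finset Γ} (hV : IsExhaustion G V) {E : Set (Cfg Γ)}
    (hE : IsClopen E) {δ : ℝ} (hδ : 0 ≤ δ)
    (h : ∀ᶠ n in atTop, ust G (V n) E ≤ ENNReal.ofReal δ) : μ E ≤ ENNReal.ofReal δ := by
  have := hμ.1
  have hm : MeasurableSet E := hE.isOpen.measurableSet
  have ht := hμ.2 V hV (BoundedContinuousFunction.indicator E hE)
  have hi : ∀ ν : Measure (Cfg Γ),
      ∫ η, BoundedContinuousFunction.indicator E hE η ∂ν = ν.real E := fun ν =>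
    integral_indicator_one hm
  simp only [hi] at ht
  have hle : μ.real E ≤ δ :=
    le_of_tendsto ht (h.mono fun n hn => ENNReal.toReal_le_of_le_ofReal hδ hn)
  rw [← ENNReal.ofReal_toReal (measure_ne_top μ E)]
  exact ENNReal.ofReal_le_ofReal hle

open Classical in
/-- The energy of `f` inside `V` along the edges of `G` that are not in `W`. -/
noncomputable def offEnergy {Γ : Type*} (G : SimpleGraph Γ) (W : Set (Sym2 Γ)) (f : Γ → ℝ)
    (V : Finset Γ) : ℝ :=
  ∑ p ∈ V, ∑ q ∈ V, (if G.Adj p q ∧ s(p, q) ∉ W then (f p - f q) ^ 2 else 0)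

/-- The limit form of the conditional Dirichlet bound. -/
lemma fusf_energy {Γ : Type*} [Countable Γ] {G : SimpleGraph Γ} (hG : G.Connected)
    {μ : Measure (Cfg Γ)} (hμ : IsFUSF G μ) {x y : Γ} (hxy : G.Adj x y)
    (W : Finset (Sym2 Γ)) {δ : ℝ} (hδ : 0 ≤ δ) :
    μ {η | ∃ f : Γ → ℝ, (∀ p q, s(p, q) ∈ (W : Set (Sym2 Γ)) → η s(p, q) = true → f p = f q) ∧
      f x - f y = 1 ∧ ∀ V : Finset Γ, offEnergy G W f V ≤ δ} ≤ ENNReal.ofReal δ := by
  obtain ⟨V, hV⟩ := exists_exhaustion hG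
  refine hμ.le_of_clopen hV (isClopen_of_finite_dep W ?_) hδ ?_
  · rintro η η' h ⟨f, h1, h2, h3⟩
    exact ⟨f, fun p q hW hη => h1 p q hW ((h _ hW).trans hη), h2, h3⟩
  · obtain ⟨a, ha⟩ := hV.2.1 x
    obtain ⟨b, hb⟩ := hV.2.1 y
    filter_upwards [eventually_ge_atTop a, eventually_ge_atTop b] with n hna hnb
    refine le_trans (measure_mono ?_)
      (ust_energy (hV.2.2 n) hxy (hV.1 hna ha) (hV.1 hnb hb) (W : Set (Sym2 Γ)) hδ)
    rintro η ⟨f, h1, h2, h3⟩
    exact ⟨f, h1, h2, h3 _⟩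

open Classical in
lemma fusf_edge_null {Γ : Type*} [Countable Γ] {G : SimpleGraph Γ} (hG : G.Connected)
    {μ : Measure (Cfg Γ)} (hμ : IsFUSF G μ) {x y : Γ} (hxy : G.Adj x y) :
    μ {η | ∃ f : Γ → ℝ,
      Summable (fun p : Γ × Γ => if G.Adj p.1 p.2 then (f p.1 - f p.2) ^ 2 else 0) ∧
      (∀ p q, η s(p, q) = true → f p = f q) ∧ f x ≠ f y} = 0 := by
  refine le_antisymm (ENNReal.le_of_forall_pos_le_add fun δ hδ _ => ?_) (zero_le)
  rw [zero_add]
  have hδ' : (0 : ℝ) < δ := hδ
  set E : Finset (Sym2 Γ) → Set (Cfg Γ) := fun W =>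
    {η | ∃ f : Γ → ℝ, (∀ p q, η s(p, q) = true → f p = f q) ∧
      f x - f y = 1 ∧ ∀ V : Finset Γ, offEnergy G W f V ≤ δ} with hE
  have hmono : Monotone E := by
    rintro W W' hW η ⟨f, h1, h2, h3⟩
    refine ⟨f, h1, h2, fun V => le_trans ?_ (h3 V)⟩
    refine Finset.sum_le_sum fun p _ => Finset.sum_le_sum fun q _ => ?_
    by_cases h : G.Adj p q ∧ s(p, q) ∉ (W' : Set (Sym2 Γ))
    · rw [if_pos h, if_pos ⟨h.1, fun h' => h.2 (hW h')⟩]
    · rw [if_neg h]
      split_ifs <;> positivity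
  have hle : ∀ W, μ (E W) ≤ δ := fun W => by
    rw [← ENNReal.ofReal_coe_nnreal]
    refine le_trans (measure_mono ?_) (fusf_energy hG hμ hxy W hδ'.le)
    rintro η ⟨f, h1, h2, h3⟩
    exact ⟨f, fun p q _ => h1 p q, h2, h3⟩
  refine le_trans (measure_mono (t := ⋃ W, E W) ?_) ?_
  · rintro η ⟨f, hs, h1, h2⟩
    have hne : f x - f y ≠ 0 := sub_ne_zero.2 h2
    set g : Γ → ℝ := fun p => f p / (f x - f y) with hg
    have hs' : Summable (fun p : Γ × Γ => if G.Adj p.1 p.2 then (g p.1 - g p.2) ^ 2 else 0) := by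
      refine (hs.div_const ((f x - f y) ^ 2)).congr fun p => ?_
      split_ifs
      · simp only [hg]
        rw [← sub_div, div_pow]
      · simp
    obtain ⟨S, hS⟩ := hs'.vanishing (Iio_mem_nhds hδ')
    refine Set.mem_iUnion.2 ⟨S.image fun p => s(p.1, p.2), g, fun p q h => ?_, ?_, fun V => ?_⟩
    · simp only [hg, h1 p q h]
    · simp only [hg]
      rw [← sub_div, div_self hne]
    · have hd : Disjoint ((V ×ˢ V).filter fun p : Γ × Γ =>
          s(p.1, p.2) ∉ S.image fun p => s(p.1, p.2)) S := by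
        rw [Finset.disjoint_left]
        intro p hp hpS
        exact (Finset.mem_filter.1 hp).2 (Finset.mem_image_of_mem _ hpS)
      have : _ ≤ (δ : ℝ) := le_of_lt (hS _ hd)
      rw [Finset.sum_filter, Finset.sum_product] at this
      refine le_trans (le_of_eq ?_) this
      refine Finset.sum_congr rfl fun p _ => Finset.sum_congr rfl fun q _ => ?_
      simp only [Finset.mem_coe]
      by_cases h1 : G.Adj p q <;> by_cases h2 : s(p, q) ∈ S.image (fun p => s(p.1, p.2)) <;>
        simp [h1, h2]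
  · rw [hmono.directed_le.measure_iUnion]
    exact iSup_le hle

theorem fusf_complete {Γ : Type*} [Countable Γ] {G : SimpleGraph Γ} (hG : G.Connected)
    {μ : Measure (Cfg Γ)} (hμ : IsFUSF G μ) : ∀ᵐ η ∂μ, Complete G η := by
  classical
  have h : ∀ᵐ η ∂μ, ∀ x y : Γ, G.Adj x y → ¬ ∃ f : Γ → ℝ,
      Summable (fun p : Γ × Γ => if G.Adj p.1 p.2 then (f p.1 - f p.2) ^ 2 else 0) ∧
      (∀ p q, η s(p, q) = true → f p = f q) ∧ f x ≠ f y := by
    refine ae_all_iff.2 fun x => ae_all_iff.2 fun y => ?_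
    by_cases hxy : G.Adj x y
    · have := fusf_edge_null hG hμ hxy
      filter_upwards [measure_eq_zero_iff_ae_notMem.1 this] with η hη _
      convert hη
    · exact Eventually.of_forall fun η h => absurd h hxy
  filter_upwards [h] with η hη f hs hf x y
  have hadj : ∀ p q, G.Adj p q → f p = f q := fun p q hpq => by
    by_contra hne
    exact hη p q hpq ⟨f, by convert hs, hf, hne⟩
  obtain ⟨w⟩ := hG.preconnected x y
  induction w with
  | nil => rfl
  | cons h _ ih => exact (hadj _ _ h).trans ih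

end Pool.Agent.FusfTree
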