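import Pool.Agent.P.MP_8fb1ed_pr.Bethe
import Pool.Agent.P.MP_8fb1ed_pr.SatErr
import Pool.Agent.P.MP_8fb1ed_pr.Trunc
import Pool.Agent.P.MP_8fb1ed_pr.Ground
import Pool.Agent.P.MP_8fb1ed_pr.UstComplete

/-! Assembly: a sparse invariant percolation connects the free uniform spanning forest. -/

open Relation Filter MeasureTheory Topology
open scoped ENNReal

namespace Pool.Agent.FusfTree

lemma exists_mul_le {A η : ℝ≥0∞} (hA : A ≠ ⊤) (hη : 0 < η) : ∃ ε, 0 < ε ∧ ε ≤ η ∧ A * ε ≤ η := by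
  obtain ⟨c, hc0, hc⟩ := ENNReal.exists_nnreal_pos_mul_lt hA hη.ne'
  refine ⟨min c η, lt_min (by exact_mod_cast hc0) hη, min_le_right _ _, ?_⟩
  rw [mul_comm]
  exact (mul_le_mul_left (min_le_left _ _) _).trans hc.le

lemma exists_div_le {A η : ℝ≥0∞} (hA : A ≠ ⊤) (hη : 0 < η) : ∃ W : ℕ, W ≠ 0 ∧ A / W ≤ η := by
  obtain ⟨ε, hε, -, h⟩ := exists_mul_le hA hη
  obtain ⟨n, hn⟩ := ENNReal.exists_inv_nat_lt hε.ne'
  refine ⟨n + 1, n.succ_ne_zero, le_trans ?_ h⟩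
  rw [div_eq_mul_inv]
  gcongr
  exact (ENNReal.inv_le_inv.2 (by exact_mod_cast n.le_succ)).trans hn.le

variable {Γ : Type*} [Group Γ] [Countable Γ]

theorem sparse_connect {G : SimpleGraph Γ} (hG : Cay G) (hT : ApproxTreeable Γ)
    {μ : Measure (Cfg Γ)} [IsProbabilityMeasure μ] (hμ : ∀ g : Γ, μ.map (shift g) = μ)
    (hμG : ∀ᵐ η ∂μ, ∀ e, η e = true → e ∈ G.edgeSet) (hμc : ∀ᵐ η ∂μ, Complete G η)
    {ε : ℝ≥0∞} (hε : 0 < ε) :
    ∃ ν : Measure (Cfg Γ × Cfg Γ), IsProbabilityMeasure ν ∧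
      (∀ g : Γ, ν.map (fun p => (shift g p.1, shift g p.2)) = ν) ∧ ν.map Prod.fst = μ ∧
      ∫⁻ p, ({y | (graphOf p.2).Adj 1 y}.encard : ℝ≥0∞) ∂ν < ε ∧
      ∀ᵐ p ∂ν, graphOf p.1 ⊔ graphOf p.2 ≤ G ∧ (graphOf p.1 ⊔ graphOf p.2).Connected := by
  classical
  have hd : ({y | G.Adj 1 y}.encard : ℝ≥0∞) ≠ ⊤ := by simpa using hG.fin
  obtain ⟨c, hc0, hc⟩ := ENNReal.exists_nnreal_pos_mul_lt
    (a := ({y | G.Adj 1 y}.encard : ℝ≥0∞) * 10) (by finiteness) hε.ne'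
  have hc0' : (0 : ℝ≥0∞) < c := by exact_mod_cast hc0
  obtain ⟨cyc, C, n, hcyc, hC, hC', hn⟩ := exists_kap hG hμc hμG hc0'
  obtain ⟨ε₀, hε₀, hε₁, hε₂⟩ := exists_mul_le
    (A := ∑ k ∈ Finset.range n, ((cyc k).length : ℝ≥0∞))
    (ENNReal.sum_ne_top.2 fun _ _ => by simp) hc0'
  obtain ⟨τ, r, t₀, b₀, φ₀, hτ, hτi, ht₀, hb₀, hφ₀, td₀, hφε⟩ := exists_td hG hT hε₀
  obtain ⟨W, hW, hWε⟩ := exists_div_le (A := (r : ℝ≥0∞) ^ 5 + 2 * r ^ 2) (by finiteness) hc0'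
  have : NeZero W := ⟨hW⟩
  let a : Γ → Cfg Γ × Cfg Γ → Cfg Γ × Cfg Γ := fun g p => (shift g p.1, shift g p.2)
  have ha : ∀ g, MeasurePreserving (a g) (μ.prod τ) (μ.prod τ) := fun g =>
    MeasurePreserving.prod ⟨measurable_shift g, hμ g⟩ ⟨measurable_shift g, hτi g⟩
  have ht : RRel a fun p => t₀ p.2 := ht₀.comp measurable_snd fun _ _ => rfl
  have hb : RRel a fun p => b₀ p.2 := hb₀.comp measurable_snd fun _ _ => rfl
  have hφ : RRel a fun p => φ₀ p.2 := hφ₀.comp measurable_snd fun _ _ => rfl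
  have hS := setup_prod (F := Prod.fst) W (fun p : Cfg Γ × Cfg Γ => td₀ p.2) ht hb hφ
    measurable_fst fun _ _ => rfl
  have hsat := sat_main (F := Prod.fst) ha W (fun p : Cfg Γ × Cfg Γ => td₀ p.2) ht hb hφ
    measurable_fst fun _ _ => rfl
  have ha' := pact_mp ha W
  set P := (μ.prod τ).prod (xi Γ W) with hP
  have m1 : MeasurePreserving (fun ω : (Cfg Γ × Cfg Γ) × (Γ × Γ → ZMod W) => ω.1.1) P μ :=
    measurePreserving_fst.comp measurePreserving_fst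
  have m2 : MeasurePreserving (fun ω : (Cfg Γ × Cfg Γ) × (Γ × Γ → ZMod W) => ω.1.2) P τ :=
    measurePreserving_snd.comp measurePreserving_fst
  have hφε' : ∀ y, G.Adj 1 y → P {ω | ¬ φ₀ ω.1.2 1 y} ≤ ε₀ := fun y hy =>
    (m2.measure_preimage (hφ₀.meas 1 y).not.setOf.nullMeasurableSet).le.trans (hφε y hy)
  have ho : RRel (pact W a) fun ω u w => lvl (t₀ ω.1.2) (stp ω.2) u w ≤ 0 :=
    ⟨fun u w => (Measurable.of_discrete (f := fun n : ℤ => n ≤ 0)).comp (hS.lm u w),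
      fun g ω u w => by rw [smul_eq_mul, smul_eq_mul, hS.le]⟩
  have hbethe := bethe_core hG ha' hS.td hS.ht hS.hb hS.hφ hS.rho_rrel ho hS.Fm hS.Fe
    (fun ω => rho_equiv (hS.td ω) (hS.lc ω)) (fun ω x y => rho_le) (fun ω x y => rho_of_edge)
    (fun ω u w huw => by
      have h1 := hS.lc ω u w u (.single huw) (.single ((hS.td ω).t_symm _ _ huw))
      rw [(hS.lc ω).self] at h1
      omega) hφε' hcyc hC hC' n
  rw [m1.map_eq] at hbethe
  have hfin : ∫⁻ ω, ∑' w, (if t₀ ω.1.2 1 w ∧ lvl (t₀ ω.1.2) (stp ω.2) 1 w ≤ 0 then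
      (exc (t₀ ω.1.2) (φ₀ ω.1.2) ω.1.1 (lvl (t₀ ω.1.2) (stp ω.2)) (sep (b₀ ω.1.2) 1 w) : ℝ≥0∞)
      else 0) ∂P ≠ ⊤ := by
    refine ne_top_of_le_ne_top (b := ∫⁻ _, (r * r : ℝ≥0∞) ∂P) (by simp; finiteness)
      (lintegral_mono fun ω => ?_)
    calc _ ≤ ∑' w, r * if t₀ ω.1.2 1 w then (1 : ℝ≥0∞) else 0 := by
          refine ENNReal.tsum_le_tsum fun w => ?_
          split_ifs with h1 h2 h2
          · rw [mul_one]
            exact Nat.cast_le.2 (exc_le (td₀ _) (sep_subset _ 1 w))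
          · exact absurd h1.1 h2
          · exact zero_le
          · exact zero_le
      _ ≤ r * r := by
          rw [ENNReal.tsum_mul_left, ← encard_eq_tsum]
          gcongr
          exact_mod_cast (td₀ _).t_deg 1
  have hneed : P {ω | Needed (φ₀ ω.1.2) (ReflTransGen (t₀ ω.1.2)) ω.1.1
      (lvl (t₀ ω.1.2) (stp ω.2)) 1} ≤ 3 * c := by
    refine (ENNReal.add_le_add_iff_left hfin).1 (hsat.trans ?_)
    refine (add_le_add (hbethe.trans (add_le_add (add_le_add le_rfl hε₂) hn)) hWε).trans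
      (le_of_eq ?_)
    unfold exc
    ring_nf
  obtain ⟨ν, h1, h2, h3, h4, h5⟩ := ground hG ha' hS.Fm hS.Fe (m1.quasiMeasurePreserving.ae hμG)
    hS.hφ hS.ht.rtg (fun ω => (hS.td ω).φ_symm) (fun ω => (hS.td ω).φ_adj)
    (fun ω => ⟨fun _ => .refl, rtg_symm (hS.td ω).t_symm, .trans⟩) hS.lm hS.le hS.lc
    (ε := 3 * c) (fun y hy => (hφε' y hy).trans (hε₁.trans (le_mul_of_one_le_left' (by norm_num))))
    hneed hc0'
  refine ⟨ν, h1, h2, h3.trans m1.map_eq, h4.trans_lt (lt_of_eq_of_lt ?_ hc), h5⟩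
  ring

omit [Countable Γ] in
lemma cay_mulCayley (S : Finset Γ) (hgen : Subgroup.closure (S : Set Γ) = ⊤) :
    Cay (SimpleGraph.mulCayley (S : Set Γ)) := by
  classical
  refine ⟨fun g x y => SimpleGraph.mulCayley_adj_mul_iff_right, ?_, ?_⟩
  · refine (S.finite_toSet.union S.finite_toSet.inv).subset fun y hy => ?_
    simpa using ((SimpleGraph.mulCayley_adj _ _ _).1 hy).2
  · have key : ∀ g : Γ, ∀ x, (SimpleGraph.mulCayley (S : Set Γ)).Reachable x (x * g) := by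
      intro g
      have hg : g ∈ Subgroup.closure (S : Set Γ) := hgen ▸ Subgroup.mem_top g
      induction hg using Subgroup.closure_induction with
      | mem s hs =>
        intro x
        by_cases h : x = x * s
        · rw [← h]
        · exact SimpleGraph.Adj.reachable
            ((SimpleGraph.mulCayley_adj' _ _ _).2 ⟨h, s, hs, .inl rfl⟩)
      | one => intro x; rw [mul_one]
      | mul u v _ _ hu hv => intro x; rw [← mul_assoc]; exact (hu x).trans (hv _)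
      | inv u _ hu => intro x; simpa using (hu (x * u⁻¹)).symm
    exact ⟨fun x y => by simpa using key (x⁻¹ * y) x⟩

omit [Countable Γ] in
lemma countable_of_gen (S : Finset Γ) (hgen : Subgroup.closure (S : Set Γ) = ⊤) : Countable Γ := by
  have : Function.Surjective (FreeGroup.lift (fun s : S => (s : Γ))) := by
    rw [← MonoidHom.range_eq_top, FreeGroup.range_lift_eq_closure, ← hgen]
    congr 1
    ext x
    simp
  exact this.countable

end Pool.Agent.FusfTree
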