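import Pool.Agent.P.MP_8fb1ed_pr.TraceDefs

/-! Algebra of random equivariant operators. -/

open MeasureTheory Filter Topology
open scoped ENNReal

set_option linter.unusedSectionVars false

namespace Pool.Agent.FusfTree

namespace OpAlgAux

open Classical in
lemma dl_apply {ι : Type*} (i j : ι) : (dl i : L2 ι) j = if j = i then 1 else 0 := by
  unfold dl
  by_cases h : j = i
  · subst h
    simp
  · rw [lp.single_apply_ne _ _ _ h, if_neg h]

lemma inner_dl {ι : Type*} (i : ι) (f : L2 ι) : inner ℝ (dl i) f = f i := by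
  classical
  unfold dl
  rw [lp.inner_single_left]
  simp

lemma hasSum_dl {ι : Type*} (f : L2 ι) : HasSum (fun i => f i • (dl i : L2 ι)) f := by
  classical
  have h := lp.hasSum_single (p := 2) (by simp) f
  convert h using 2 with i
  ext j
  rw [lp.coeFn_smul, Pi.smul_apply, dl_apply]
  by_cases hj : j = i
  · subst hj
    simp
  · rw [lp.single_apply_ne _ _ _ hj, if_neg hj]
    simp

lemma hasSum_apply {ι κ : Type*} (Y : L2 ι →L[ℝ] L2 κ) (f : L2 ι) (k : κ) :
    HasSum (fun j => f j * Y (dl j) k) (Y f k) := by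
  have h := ((hasSum_dl f).mapL Y).mapL (lp.evalCLM (𝕜 := ℝ) (fun _ : κ => ℝ) 2 k)
  simp only [map_smul, smul_eq_mul] at h
  exact h

lemma adjoint_entry {ι κ : Type*} (X : L2 ι →L[ℝ] L2 κ) (i : ι) (j : κ) :
    ContinuousLinearMap.adjoint X (dl j) i = X (dl i) j := by
  rw [← inner_dl, ← inner_dl, ContinuousLinearMap.adjoint_inner_right, real_inner_comm]

lemma hasSum_sq {ι : Type*} (f : L2 ι) : HasSum (fun i => f i ^ 2) (‖f‖ ^ 2) := by
  have h := lp.hasSum_norm (p := 2) (by simp) f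
  simpa using h

lemma enorm_sq {ι : Type*} (f : L2 ι) :
    ‖f‖ₑ ^ 2 = ∑' i, ENNReal.ofReal (f i ^ 2) := by
  rw [← ENNReal.ofReal_tsum_of_nonneg (fun i => sq_nonneg _) (hasSum_sq f).summable,
    (hasSum_sq f).tsum_eq, ← ofReal_norm, ENNReal.ofReal_pow (norm_nonneg _)]

end OpAlgAux

open OpAlgAux

variable {Γ Ω ι κ θ : Type*} [Group Γ] [MeasurableSpace Ω] [MulAction Γ ι] [MulAction Γ κ]
  [MulAction Γ θ] [Countable ι] [Countable κ] [Countable θ] {a : Γ → Ω → Ω}

theorem ROp.zero : ROp a fun _ => (0 : L2 ι →L[ℝ] L2 κ) :=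
  ⟨⟨0, fun _ => by simp⟩, fun _ _ => measurable_const, fun _ _ _ _ => by simp⟩

theorem ROp.one : ROp a fun _ => (1 : L2 ι →L[ℝ] L2 ι) := by
  refine ⟨⟨1, fun _ => ContinuousLinearMap.norm_id_le⟩, fun _ _ => measurable_const,
    fun g _ i j => ?_⟩
  simp only [one_apply_eq_self, dl_apply]
  by_cases h : j = i
  · simp [h]
  · rw [if_neg h, if_neg fun h1 => h (MulAction.injective g h1)]

theorem ROp.add {X Y : Ω → L2 ι →L[ℝ] L2 κ} (hX : ROp a X) (hY : ROp a Y) :
    ROp a fun ω => X ω + Y ω := by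
  obtain ⟨C, hC⟩ := hX.bdd
  obtain ⟨D, hD⟩ := hY.bdd
  refine ⟨⟨C + D, fun ω => (norm_add_le _ _).trans (add_le_add (hC ω) (hD ω))⟩,
    fun i j => ?_, fun g ω i j => ?_⟩
  · simp only [add_apply, lp.coeFn_add, Pi.add_apply]
    exact (hX.meas i j).add (hY.meas i j)
  · simp only [add_apply, lp.coeFn_add, Pi.add_apply]
    rw [hX.eqv, hY.eqv]

theorem ROp.sub {X Y : Ω → L2 ι →L[ℝ] L2 κ} (hX : ROp a X) (hY : ROp a Y) :
    ROp a fun ω => X ω - Y ω := by
  obtain ⟨C, hC⟩ := hX.bdd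
  obtain ⟨D, hD⟩ := hY.bdd
  refine ⟨⟨C + D, fun ω => (norm_sub_le _ _).trans (add_le_add (hC ω) (hD ω))⟩,
    fun i j => ?_, fun g ω i j => ?_⟩
  · simp only [sub_apply, lp.coeFn_sub, Pi.sub_apply]
    exact (hX.meas i j).sub (hY.meas i j)
  · simp only [sub_apply, lp.coeFn_sub, Pi.sub_apply]
    rw [hX.eqv, hY.eqv]

theorem ROp.smul {X : Ω → L2 ι →L[ℝ] L2 κ} (hX : ROp a X) (c : ℝ) :
    ROp a fun ω => c • X ω := by
  obtain ⟨C, hC⟩ := hX.bdd
  refine ⟨⟨‖c‖ * C, fun ω => ?_⟩, fun i j => ?_, fun g ω i j => ?_⟩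
  · rw [norm_smul]
    exact mul_le_mul_of_nonneg_left (hC ω) (norm_nonneg _)
  · simp only [smul_apply, lp.coeFn_smul, Pi.smul_apply]
    exact (hX.meas i j).const_smul c
  · simp only [smul_apply, lp.coeFn_smul, Pi.smul_apply]
    rw [hX.eqv]

theorem ROp.adjoint {X : Ω → L2 ι →L[ℝ] L2 κ} (hX : ROp a X) :
    ROp a fun ω => ContinuousLinearMap.adjoint (X ω) := by
  obtain ⟨C, hC⟩ := hX.bdd
  refine ⟨⟨C, fun ω => ?_⟩, fun i j => ?_, fun g ω i j => ?_⟩
  · rw [LinearIsometryEquiv.norm_map]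
    exact hC ω
  · simp only [adjoint_entry]
    exact hX.meas j i
  · simp only [adjoint_entry]
    exact hX.eqv g ω j i

theorem ROp.comp {Y : Ω → L2 κ →L[ℝ] L2 θ} {X : Ω → L2 ι →L[ℝ] L2 κ} (hY : ROp a Y)
    (hX : ROp a X) : ROp a fun ω => (Y ω).comp (X ω) := by
  obtain ⟨C, hC⟩ := hX.bdd
  obtain ⟨D, hD⟩ := hY.bdd
  have key : ∀ ω i k, (Y ω).comp (X ω) (dl i) k = ∑' j, X ω (dl i) j * Y ω (dl j) k :=
    fun ω i k => (hasSum_apply (Y ω) (X ω (dl i)) k).tsum_eq.symm
  refine ⟨⟨D * C, fun ω => ?_⟩, fun i k => ?_, fun g ω i k => ?_⟩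
  · refine (ContinuousLinearMap.opNorm_comp_le _ _).trans ?_
    exact mul_le_mul (hD ω) (hC ω) (norm_nonneg _) ((norm_nonneg _).trans (hD ω))
  · simp only [key]
    exact Measurable.tsum fun j => (hX.meas i j).mul (hY.meas j k)
  · simp only [key]
    rw [← (MulAction.toPerm g : κ ≃ κ).tsum_eq]
    refine tsum_congr fun j => ?_
    simp only [MulAction.toPerm_apply]
    rw [hX.eqv, hY.eqv]

theorem ROp.pow {X : Ω → L2 ι →L[ℝ] L2 ι} (hX : ROp a X) (n : ℕ) :
    ROp a fun ω => X ω ^ n := by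
  induction n with
  | zero => simpa using (ROp.one (ι := ι) (a := a))
  | succ n ih =>
    have h := ROp.comp ih hX
    simp only [pow_succ]
    exact h

theorem ROp.of_tendsto {X : ℕ → Ω → L2 ι →L[ℝ] L2 κ} {Y : Ω → L2 ι →L[ℝ] L2 κ}
    (hX : ∀ n, ROp a (X n)) (hb : ∃ C : ℝ, ∀ ω, ‖Y ω‖ ≤ C)
    (h : ∀ ω v, Tendsto (fun n => X n ω v) atTop (𝓝 (Y ω v))) : ROp a Y := by
  have key : ∀ ω v j, Tendsto (fun n => X n ω v j) atTop (𝓝 (Y ω v j)) := fun ω v j =>
    ((lp.evalCLM (𝕜 := ℝ) (fun _ : κ => ℝ) 2 j).continuous.tendsto _).comp (h ω v)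
  refine ⟨hb, fun i j => ?_, fun g ω i j => ?_⟩
  · refine measurable_of_tendsto_metrizable (f := fun n ω => X n ω (dl i) j)
      (fun n => (hX n).meas i j) ?_
    rw [tendsto_pi_nhds]
    exact fun ω => key ω _ j
  · refine tendsto_nhds_unique (key (a g ω) (dl (g • i)) (g • j)) ?_
    simp only [(hX _).eqv]
    exact key ω _ j

theorem ROp.factor {Ω' : Type*} [MeasurableSpace Ω'] {a' : Γ → Ω' → Ω'}
    {X : Ω → L2 ι →L[ℝ] L2 κ} (hX : ROp a X) {π : Ω' → Ω} (hπ : Measurable π)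
    (he : ∀ g ω, π (a' g ω) = a g (π ω)) : ROp a' fun ω => X (π ω) := by
  obtain ⟨C, hC⟩ := hX.bdd
  exact ⟨⟨C, fun ω => hC _⟩, fun i j => (hX.meas i j).comp hπ,
    fun g ω i j => by rw [he]; exact hX.eqv g _ i j⟩

theorem ROp.measurable_col {X : Ω → L2 ι →L[ℝ] L2 κ} (hX : ROp a X) (i : ι) :
    Measurable fun ω => ‖X ω (dl i)‖ₑ ^ 2 := by
  simp only [enorm_sq]
  exact Measurable.tsum fun j => ((hX.meas i j).pow_const 2).ennreal_ofReal

namespace OpAlgAux

open Classical in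
/-- The pull-back of a function along a relation that is the graph of a function. -/
noncomputable def pullFun {ι κ : Type*} (R : κ → ι → Prop) (f : ι → ℝ) (j : κ) : ℝ :=
  if h : ∃ i, R j i then f h.choose else 0

lemma pullFun_of {ι κ : Type*} {R : κ → ι → Prop} (hf : ∀ j i i', R j i → R j i' → i = i')
    (f : ι → ℝ) {j : κ} {i : ι} (h : R j i) : pullFun R f j = f i := by
  have h1 : ∃ i, R j i := ⟨i, h⟩
  unfold pullFun
  rw [dif_pos h1, hf j _ _ h1.choose_spec h]

lemma pullFun_not {ι κ : Type*} {R : κ → ι → Prop} (f : ι → ℝ) {j : κ} (h : ∀ i, ¬ R j i) :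
    pullFun R f j = 0 := by
  unfold pullFun
  rw [dif_neg]
  rintro ⟨i, hi⟩
  exact h i hi

lemma tsum_pullFun_le {ι κ : Type*} {R : κ → ι → Prop} (C : ℕ)
    (hC : ∀ i, {j | R j i}.encard ≤ C) (f : ι → ℝ) :
    ∑' j, ENNReal.ofReal (pullFun R f j ^ 2) ≤ C * ∑' i, ENNReal.ofReal (f i ^ 2) := by
  classical
  have h1 : ∀ j, ENNReal.ofReal (pullFun R f j ^ 2) ≤
      ∑' i, (if R j i then 1 else 0) * ENNReal.ofReal (f i ^ 2) := by
    intro j
    by_cases h : ∃ i, R j i
    · refine le_trans ?_ (ENNReal.le_tsum h.choose)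
      unfold pullFun
      rw [dif_pos h, if_pos h.choose_spec, one_mul]
    · unfold pullFun
      rw [dif_neg h]
      simp
  refine (ENNReal.tsum_le_tsum h1).trans ?_
  rw [ENNReal.tsum_comm, ← ENNReal.tsum_mul_left]
  refine ENNReal.tsum_le_tsum fun i => ?_
  rw [ENNReal.tsum_mul_right, ← encard_eq_tsum]
  gcongr
  have := hC i
  exact_mod_cast this

lemma pull_mem {ι κ : Type*} {R : κ → ι → Prop} (C : ℕ)
    (hC : ∀ i, {j | R j i}.encard ≤ C) (f : L2 ι) : Memℓp (pullFun R f) 2 := by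
  have h := tsum_pullFun_le C hC f
  rw [← enorm_sq] at h
  have h2 : ∑' j, ENNReal.ofReal (pullFun R f j ^ 2) ≠ ∞ :=
    ne_top_of_le_ne_top (by finiteness) h
  have h3 := ENNReal.summable_toReal h2
  apply memℓp_gen
  simpa [ENNReal.toReal_ofReal (sq_nonneg _)] using h3

/-- The pull-back as a linear map of the sequence spaces. -/
noncomputable def pullLin {ι κ : Type*} (R : κ → ι → Prop) (C : ℕ)
    (hC : ∀ i, {j | R j i}.encard ≤ C) : L2 ι →ₗ[ℝ] L2 κ where
  toFun f := ⟨pullFun R f, pull_mem C hC f⟩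
  map_add' f g := by
    ext j
    change pullFun R (f + g : L2 ι) j = pullFun R f j + pullFun R g j
    unfold pullFun
    split_ifs <;> simp
  map_smul' c f := by
    ext j
    change pullFun R (c • f : L2 ι) j = c * pullFun R f j
    unfold pullFun
    split_ifs <;> simp

lemma pullLin_apply {ι κ : Type*} (R : κ → ι → Prop) (C : ℕ)
    (hC : ∀ i, {j | R j i}.encard ≤ C) (f : L2 ι) (j : κ) :
    pullLin R C hC f j = pullFun R f j := rfl

lemma pullLin_norm {ι κ : Type*} (R : κ → ι → Prop) (C : ℕ)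
    (hC : ∀ i, {j | R j i}.encard ≤ C) (f : L2 ι) :
    ‖pullLin R C hC f‖ ≤ √C * ‖f‖ := by
  have h := tsum_pullFun_le C hC f
  have h1 := enorm_sq (pullLin R C hC f)
  simp only [pullLin_apply] at h1
  rw [← enorm_sq, ← h1] at h
  have h2 : ‖pullLin R C hC f‖ ^ 2 ≤ C * ‖f‖ ^ 2 := by
    have h3 := ENNReal.toReal_mono (by finiteness) h
    simpa using h3
  refine le_of_sq_le_sq ?_ (by positivity)
  rw [mul_pow, Real.sq_sqrt (Nat.cast_nonneg _)]
  exact h2

end OpAlgAux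

/-- Pull-back along a random equivariant function (given by its graph `R`, defined on a random
set) with fibres of bounded size. -/
theorem exists_pull {R : Ω → κ → ι → Prop} (hR : RRel a R)
    (hf : ∀ ω j i i', R ω j i → R ω j i' → i = i') (C : ℕ)
    (hC : ∀ ω i, {j | R ω j i}.encard ≤ C) :
    ∃ X : Ω → L2 ι →L[ℝ] L2 κ, ROp a X ∧ (∀ ω f j i, R ω j i → X ω f j = f i) ∧
      ∀ ω f j, (∀ i, ¬ R ω j i) → X ω f j = 0 := by
  classical
  let X : Ω → L2 ι →L[ℝ] L2 κ := fun ω =>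
    (pullLin (R ω) C (hC ω)).mkContinuous (√C) (pullLin_norm (R ω) C (hC ω))
  have hX : ∀ ω f j, X ω f j = pullFun (R ω) f j := fun _ _ _ => rfl
  have h1 : ∀ ω f j i, R ω j i → X ω f j = f i := fun ω f j i h => by
    rw [hX]
    exact pullFun_of (hf ω) f h
  have h2 : ∀ ω f j, (∀ i, ¬ R ω j i) → X ω f j = 0 := fun ω f j h => by
    rw [hX]
    exact pullFun_not f h
  have h3 : ∀ ω i j, X ω (dl i) j = if R ω j i then 1 else 0 := by
    intro ω i j
    by_cases h : ∃ i', R ω j i'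
    · obtain ⟨i', hi'⟩ := h
      rw [h1 ω _ j i' hi', dl_apply]
      by_cases h4 : i' = i
      · subst h4
        simp [hi']
      · rw [if_neg h4, if_neg fun h5 => h4 (hf ω j _ _ hi' h5)]
    · push Not at h
      rw [h2 ω _ j h, if_neg (h i)]
  refine ⟨X, ⟨⟨√C, fun ω => LinearMap.mkContinuous_norm_le _ (Real.sqrt_nonneg _) _⟩,
    fun i j => ?_, fun g ω i j => ?_⟩, h1, h2⟩
  · simp only [h3]
    exact Measurable.ite (hR.meas j i).setOf measurable_const measurable_const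
  · simp only [h3, hR.eqv]

/-- Mass transport for Hilbert-Schmidt norms. -/
theorem hs_adjoint [Countable Γ] {P : Measure Ω} (ha : ∀ g, MeasurePreserving (a g) P P)
    {β : ι → Γ} {β' : κ → Γ} (hβ : IsBase β) (hβ' : IsBase β') {X : Ω → L2 ι →L[ℝ] L2 κ}
    (hX : ROp a X) : hs P β X = hs P β' fun ω => ContinuousLinearMap.adjoint (X ω) := by
  classical
  let f : Ω → Γ → Γ → ℝ≥0∞ := fun ω x y => ∑' i, ∑' j,
    if β i = x ∧ β' j = y then ENNReal.ofReal (X ω (dl i) j ^ 2) else 0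
  have hm : ∀ x y, Measurable fun ω => f ω x y := fun x y =>
    Measurable.tsum fun i => Measurable.tsum fun j => by
      split_ifs
      · exact ((hX.meas i j).pow_const 2).ennreal_ofReal
      · exact measurable_const
  have he : ∀ g ω x y, f (a g ω) (g * x) (g * y) = f ω x y := by
    intro g ω x y
    simp only [f]
    rw [← (MulAction.toPerm g : ι ≃ ι).tsum_eq]
    refine tsum_congr fun i => ?_
    rw [← (MulAction.toPerm g : κ ≃ κ).tsum_eq]
    refine tsum_congr fun j => ?_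
    simp only [MulAction.toPerm_apply, hβ g i, hβ' g j, mul_right_inj, hX.eqv]
  have h := mtp ha hm he
  unfold hs
  refine Eq.trans (lintegral_congr fun ω => ?_) (h.trans (lintegral_congr fun ω => Eq.symm ?_))
  · simp only [f]
    rw [ENNReal.tsum_comm]
    refine tsum_congr fun i => ?_
    rw [ENNReal.tsum_comm, enorm_sq]
    by_cases hi : β i = 1
    · rw [if_pos hi]
      refine tsum_congr fun j => ?_
      rw [tsum_eq_single (β' j)]
      · simp [hi]
      · intro y hy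
        rw [if_neg]
        exact fun h => hy h.2.symm
    · simp [hi]
  · simp only [f]
    rw [ENNReal.tsum_comm]
    simp only [ENNReal.tsum_comm (α := Γ) (β := κ)]
    rw [ENNReal.tsum_comm]
    refine tsum_congr fun j => ?_
    rw [enorm_sq]
    by_cases hj : β' j = 1
    · rw [if_pos hj]
      refine tsum_congr fun i => ?_
      rw [tsum_eq_single (β i), adjoint_entry]
      · simp [hj]
      · intro y hy
        rw [if_neg]
        exact fun h => hy h.1.symm
    · simp [hj]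

end Pool.Agent.FusfTree
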