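import Pool.Agent.P.MP_8fb1ed_pr.OpAlg

/-! Projections onto kernels as strong limits of polynomials. -/

open MeasureTheory Filter Topology
open scoped ENNReal

namespace Pool.Agent.FusfTree

namespace PowAux

section hilbert
variable {E E' : Type*} [NormedAddCommGroup E] [InnerProductSpace ℝ E]
    [CompleteSpace E] [NormedAddCommGroup E'] [InnerProductSpace ℝ E'] [CompleteSpace E']

/-- The contraction `1 - c X* X`. -/
noncomputable def damp (X : E →L[ℝ] E') (c : ℝ) : E →L[ℝ] E :=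
  1 - c • (ContinuousLinearMap.adjoint X).comp X

theorem damp_apply (X : E →L[ℝ] E') (c : ℝ) (v : E) :
    damp X c v = v - c • ContinuousLinearMap.adjoint X (X v) := by
  simp [damp]

theorem damp_norm_sq (X : E →L[ℝ] E') (c : ℝ) (v : E) :
    ‖damp X c v‖ ^ 2 = ‖v‖ ^ 2 - 2 * c * ‖X v‖ ^ 2
      + c ^ 2 * ‖ContinuousLinearMap.adjoint X (X v)‖ ^ 2 := by
  rw [damp_apply, norm_sub_sq_real, inner_smul_right, ContinuousLinearMap.adjoint_inner_right,
    real_inner_self_eq_norm_sq, norm_smul, mul_pow, Real.norm_eq_abs, sq_abs]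
  ring

theorem damp_ge (X : E →L[ℝ] E') (c : ℝ) (v : E) :
    ‖v‖ ^ 2 ≤ ‖damp X c v‖ ^ 2 + 2 * c * ‖X v‖ ^ 2 := by
  rw [damp_norm_sq]
  have := mul_nonneg (sq_nonneg c) (sq_nonneg ‖ContinuousLinearMap.adjoint X (X v)‖)
  linarith

theorem damp_le (X : E →L[ℝ] E') {c d : ℝ} (hc : 0 ≤ c) (hX : c * ‖X‖ ^ 2 ≤ d) (v : E) :
    ‖damp X c v‖ ^ 2 + (2 - d) * c * ‖X v‖ ^ 2 ≤ ‖v‖ ^ 2 := by
  rw [damp_norm_sq]
  have h1 : ‖ContinuousLinearMap.adjoint X (X v)‖ ≤ ‖X‖ * ‖X v‖ := by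
    have := (ContinuousLinearMap.adjoint X).le_opNorm (X v)
    rwa [LinearIsometryEquiv.norm_map] at this
  have h2 : ‖ContinuousLinearMap.adjoint X (X v)‖ ^ 2 ≤ (‖X‖ * ‖X v‖) ^ 2 :=
    pow_le_pow_left₀ (norm_nonneg _) h1 2
  have h3 : c ^ 2 * ‖ContinuousLinearMap.adjoint X (X v)‖ ^ 2 ≤ c ^ 2 * (‖X‖ * ‖X v‖) ^ 2 :=
    mul_le_mul_of_nonneg_left h2 (sq_nonneg c)
  have h4 : (c * ‖X‖ ^ 2) * (c * ‖X v‖ ^ 2) ≤ d * (c * ‖X v‖ ^ 2) :=
    mul_le_mul_of_nonneg_right hX (mul_nonneg hc (sq_nonneg _))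
  nlinarith

theorem damp_pow_succ (X : E →L[ℝ] E') (c : ℝ) (n : ℕ) (v : E) :
    (damp X c ^ (n + 1)) v = damp X c ((damp X c ^ n) v) := by
  rw [pow_succ']; rfl

theorem damp_pow_ge (X : E →L[ℝ] E') (c : ℝ) (v : E) (n : ℕ) :
    ‖v‖ ^ 2 ≤ ‖(damp X c ^ n) v‖ ^ 2
      + 2 * c * ∑ k ∈ Finset.range n, ‖X ((damp X c ^ k) v)‖ ^ 2 := by
  induction n with
  | zero => simp
  | succ n ih =>
    rw [Finset.sum_range_succ, damp_pow_succ]
    have := damp_ge X c ((damp X c ^ n) v)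
    linarith

theorem damp_pow_le (X : E →L[ℝ] E') {c d : ℝ} (hc : 0 ≤ c) (hX : c * ‖X‖ ^ 2 ≤ d) (v : E)
    (n : ℕ) : ‖(damp X c ^ n) v‖ ^ 2
      + (2 - d) * c * ∑ k ∈ Finset.range n, ‖X ((damp X c ^ k) v)‖ ^ 2 ≤ ‖v‖ ^ 2 := by
  induction n with
  | zero => simp
  | succ n ih =>
    rw [Finset.sum_range_succ, damp_pow_succ]
    have := damp_le X hc hX ((damp X c ^ n) v)
    linarith

theorem damp_inner (X : E →L[ℝ] E') (c : ℝ) (u v : E) :
    inner ℝ (damp X c u) v = inner ℝ u (damp X c v) := by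
  rw [damp_apply, damp_apply, inner_sub_left, inner_sub_right, inner_smul_left, inner_smul_right,
    ContinuousLinearMap.adjoint_inner_left, ContinuousLinearMap.adjoint_inner_right]
  simp

theorem damp_pow_inner (X : E →L[ℝ] E') (c : ℝ) (n : ℕ) (u v : E) :
    inner ℝ ((damp X c ^ n) u) v = inner ℝ u ((damp X c ^ n) v) := by
  induction n generalizing v with
  | zero => simp
  | succ n ih =>
    rw [damp_pow_succ, damp_inner, ih, pow_succ]; rfl

theorem damp_pow_ker (X : E →L[ℝ] E') (c : ℝ) (n : ℕ) {v : E} (hv : X v = 0) :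
    (damp X c ^ n) v = v := by
  induction n with
  | zero => simp
  | succ n ih => rw [damp_pow_succ, ih, damp_apply, hv]; simp

theorem damp_pow_norm_le (X : E →L[ℝ] E') {c : ℝ} (hc : 0 ≤ c) (hX : c * ‖X‖ ^ 2 ≤ 1) (v : E)
    (n : ℕ) : ‖(damp X c ^ n) v‖ ≤ ‖v‖ := by
  have h := damp_pow_le X hc hX v n
  have h2 : 0 ≤ (2 - 1) * c * ∑ k ∈ Finset.range n, ‖X ((damp X c ^ k) v)‖ ^ 2 :=
    mul_nonneg (by linarith) (Finset.sum_nonneg fun _ _ => sq_nonneg _)
  exact le_of_sq_le_sq (by linarith) (norm_nonneg _)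

theorem damp_apply_tendsto (X : E →L[ℝ] E') {c : ℝ} (hc : 0 < c) (hX : c * ‖X‖ ^ 2 ≤ 1)
    (v : E) : Tendsto (fun n : ℕ => X ((damp X c ^ n) v)) atTop (𝓝 0) := by
  have hs : Summable fun k : ℕ => ‖X ((damp X c ^ k) v)‖ ^ 2 := by
    refine summable_of_sum_range_le (c := ‖v‖ ^ 2 / c) (fun _ => sq_nonneg _) fun n => ?_
    have h := damp_pow_le X hc.le hX v n
    rw [le_div_iff₀ hc]
    have := sq_nonneg ‖(damp X c ^ n) v‖
    linarith
  have h1 := hs.tendsto_atTop_zero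
  rw [tendsto_zero_iff_norm_tendsto_zero]
  have h2 := h1.sqrt
  simpa using h2

theorem damp_tendsto_range (X : E →L[ℝ] E') {c : ℝ} (hc : 0 < c) (hX : c * ‖X‖ ^ 2 ≤ 1)
    (u : E') : Tendsto (fun n : ℕ => (damp X c ^ n) (ContinuousLinearMap.adjoint X u)) atTop
      (𝓝 0) := by
  set v := ContinuousLinearMap.adjoint X u with hv
  have h1 : Tendsto (fun n : ℕ => X ((damp X c ^ (n + n)) v)) atTop (𝓝 0) :=
    (damp_apply_tendsto X hc hX v).comp
      (tendsto_atTop_mono (fun n => Nat.le_add_right n n) tendsto_id)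
  have h2 : Tendsto (fun n : ℕ => inner ℝ u (X ((damp X c ^ (n + n)) v))) atTop (𝓝 0) := by
    have := (tendsto_const_nhds (x := u)).inner (𝕜 := ℝ) h1
    simpa using this
  have h3 : ∀ n : ℕ, inner ℝ u (X ((damp X c ^ (n + n)) v)) = ‖(damp X c ^ n) v‖ ^ 2 := by
    intro n
    rw [← ContinuousLinearMap.adjoint_inner_left, ← hv, ← real_inner_self_eq_norm_sq,
      damp_pow_inner, pow_add]
    rfl
  simp only [h3] at h2
  rw [tendsto_zero_iff_norm_tendsto_zero]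
  have h4 := h2.sqrt
  simpa using h4

theorem damp_tendsto_orth (X : E →L[ℝ] E') {c : ℝ} (hc : 0 < c) (hX : c * ‖X‖ ^ 2 ≤ 1)
    {v : E} (hv : v ∈ (LinearMap.ker (X : E →ₗ[ℝ] E'))ᗮ) :
    Tendsto (fun n : ℕ => (damp X c ^ n) v) atTop (𝓝 0) := by
  have hv' : v ∈ closure ((LinearMap.range
      ((ContinuousLinearMap.adjoint X : E' →L[ℝ] E) : E' →ₗ[ℝ] E) : Submodule ℝ E) : Set E) := by
    have := ContinuousLinearMap.orthogonal_ker X
    rw [← Submodule.topologicalClosure_coe, SetLike.mem_coe, ← this]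
    exact hv
  rw [Metric.tendsto_atTop]
  intro ε hε
  obtain ⟨w, ⟨u, rfl⟩, hw⟩ := Metric.mem_closure_iff.1 hv' (ε / 2) (half_pos hε)
  obtain ⟨N, hN⟩ := Metric.tendsto_atTop.1 (damp_tendsto_range X hc hX u) (ε / 2) (half_pos hε)
  refine ⟨N, fun n hn => ?_⟩
  have h1 := hN n hn
  rw [dist_zero_right] at h1 ⊢
  rw [dist_eq_norm] at hw
  have h2 := damp_pow_norm_le X hc.le hX (v - ContinuousLinearMap.adjoint X u) n
  have h3 : (damp X c ^ n) v = (damp X c ^ n) (v - ContinuousLinearMap.adjoint X u)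
      + (damp X c ^ n) (ContinuousLinearMap.adjoint X u) := by
    rw [map_sub]; abel
  rw [h3]
  have h4 := norm_add_le ((damp X c ^ n) (v - ContinuousLinearMap.adjoint X u))
    ((damp X c ^ n) (ContinuousLinearMap.adjoint X u))
  have hw' : ‖v - ContinuousLinearMap.adjoint X u‖ < ε / 2 := hw
  linarith

theorem proj_mem {K : Submodule ℝ E} (hK : IsClosed (K : Set E)) (v : E) : proj K v ∈ K := by
  have h : proj K v ∈ K.topologicalClosure := Submodule.starProjection_apply_mem _ v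
  rwa [hK.submodule_topologicalClosure_eq] at h

theorem sub_proj_mem (K : Submodule ℝ E) (v : E) : v - proj K v ∈ Kᗮ :=
  Submodule.orthogonal_le K.le_topologicalClosure
    (Submodule.sub_starProjection_mem_orthogonal (K := K.topologicalClosure) v)

theorem proj_eq_of {K : Submodule ℝ E} {u v : E} (hv : v ∈ K) (hu : u - v ∈ Kᗮ) :
    proj K u = v := by
  refine Submodule.eq_starProjection_of_mem_orthogonal (K := K.topologicalClosure)
    (K.le_topologicalClosure hv) ?_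
  rwa [Submodule.orthogonal_closure]

theorem proj_of_mem {K : Submodule ℝ E} {v : E} (hv : v ∈ K) : proj K v = v :=
  proj_eq_of hv (by simp)

theorem proj_norm_le (K : Submodule ℝ E) : ‖proj K‖ ≤ 1 :=
  Submodule.starProjection_norm_le _

theorem proj_inner (K : Submodule ℝ E) (u v : E) :
    inner ℝ (proj K u) v = inner ℝ u (proj K v) :=
  Submodule.inner_starProjection_left_eq_right _ u v

omit [CompleteSpace E] [CompleteSpace E'] in
theorem isClosed_ker' (X : E →L[ℝ] E') :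
    IsClosed ((LinearMap.ker (X : E →ₗ[ℝ] E') : Submodule ℝ E) : Set E) :=
  X.isClosed_ker

theorem damp_tendsto (X : E →L[ℝ] E') {c : ℝ} (hc : 0 < c) (hX : c * ‖X‖ ^ 2 ≤ 1) (v : E) :
    Tendsto (fun n : ℕ => (damp X c ^ n) v) atTop
      (𝓝 (proj (LinearMap.ker (X : E →ₗ[ℝ] E')) v)) := by
  set p := proj (LinearMap.ker (X : E →ₗ[ℝ] E')) v with hp
  have h1 : X p = 0 := proj_mem (isClosed_ker' X) v
  have h2 := damp_tendsto_orth X hc hX (sub_proj_mem (LinearMap.ker (X : E →ₗ[ℝ] E')) v)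
  rw [← hp] at h2
  have h3 := h2.add_const p
  rw [zero_add] at h3
  refine h3.congr fun n => ?_
  rw [map_sub, damp_pow_ker X c n h1]
  abel

end hilbert

end PowAux

open PowAux

theorem pow_tendsto {E E' : Type*} [NormedAddCommGroup E] [InnerProductSpace ℝ E]
    [CompleteSpace E] [NormedAddCommGroup E'] [InnerProductSpace ℝ E'] [CompleteSpace E']
    (X : E →L[ℝ] E') {c : ℝ} (hc : 0 < c) (hX : c * ‖X‖ ^ 2 ≤ 1) (v : E) :
    Tendsto (fun n : ℕ => ((1 - c • (ContinuousLinearMap.adjoint X).comp X) ^ n) v) atTop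
      (𝓝 (proj (LinearMap.ker (X : E →ₗ[ℝ] E')) v)) := damp_tendsto X hc hX v

variable {Γ Ω ι κ : Type*} [Group Γ] [MeasurableSpace Ω] [MulAction Γ ι] [MulAction Γ κ]
  [Countable ι] [Countable κ] {a : Γ → Ω → Ω}

theorem PowAux.rop_damp {X : Ω → L2 ι →L[ℝ] L2 κ} (hX : ROp a X) (c : ℝ) :
    ROp a fun ω => damp (X ω) c :=
  ROp.one.sub ((hX.adjoint.comp hX).smul c)

omit [Countable ι] [Countable κ] in
theorem PowAux.exists_small {X : Ω → L2 ι →L[ℝ] L2 κ} (hX : ROp a X) {d : ℝ} (hd : 0 < d) :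
    ∃ c : ℝ, 0 < c ∧ ∀ ω, c * ‖X ω‖ ^ 2 ≤ d := by
  obtain ⟨C, hC⟩ := hX.bdd
  have hpos : 0 < C ^ 2 + 1 := by positivity
  refine ⟨d / (C ^ 2 + 1), div_pos hd hpos, fun ω => ?_⟩
  have h1 : ‖X ω‖ ^ 2 ≤ C ^ 2 := pow_le_pow_left₀ (norm_nonneg _) (hC ω) 2
  rw [div_mul_eq_mul_div, div_le_iff₀ hpos]
  nlinarith

/-- The kernel of a random operator is a random subspace. -/
theorem PowAux.rsub_ker {X : Ω → L2 ι →L[ℝ] L2 κ} (hX : ROp a X) :
    RSub a fun ω => LinearMap.ker (X ω : L2 ι →ₗ[ℝ] L2 κ) := by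
  obtain ⟨c, hc, hcX⟩ := exists_small hX one_pos
  exact ⟨fun ω => isClosed_ker' (X ω),
    ROp.of_tendsto (fun n => (rop_damp hX c).pow n) ⟨1, fun ω => proj_norm_le _⟩
      fun ω v => damp_tendsto (X ω) hc (hcX ω) v⟩

theorem RSub.inf_ker {K : Ω → Submodule ℝ (L2 ι)} (hK : RSub a K) {X : Ω → L2 ι →L[ℝ] L2 κ}
    (hX : ROp a X) : RSub a fun ω => K ω ⊓ LinearMap.ker (X ω : L2 ι →ₗ[ℝ] L2 κ) := by
  have hZ : ROp a fun ω => (1 - proj (K ω)) + (ContinuousLinearMap.adjoint (X ω)).comp (X ω) :=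
    (ROp.one.sub hK.rop).add (hX.adjoint.comp hX)
  have h := rsub_ker hZ
  convert h using 2 with ω
  ext v
  simp only [Submodule.mem_inf, LinearMap.mem_ker, ContinuousLinearMap.coe_coe,
    add_apply, sub_apply, one_apply_eq_self,
    ContinuousLinearMap.comp_apply]
  constructor
  · rintro ⟨h1, h2⟩
    rw [proj_of_mem h1, h2]
    simp
  · intro h0
    have h1 : inner ℝ v (v - proj (K ω) v + ContinuousLinearMap.adjoint (X ω) (X ω v)) = 0 := by
      rw [h0, inner_zero_right]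
    have h2 : inner ℝ (proj (K ω) v) (v - proj (K ω) v) = 0 :=
      Submodule.inner_right_of_mem_orthogonal (proj_mem (hK.closed ω) v) (sub_proj_mem _ v)
    have h3 : inner ℝ v (v - proj (K ω) v) = ‖v - proj (K ω) v‖ ^ 2 := by
      rw [← real_inner_self_eq_norm_sq, inner_sub_left (x := v) (y := proj (K ω) v), h2, sub_zero]
    rw [inner_add_right, h3, ContinuousLinearMap.adjoint_inner_right,
      real_inner_self_eq_norm_sq] at h1
    have h4 : ‖v - proj (K ω) v‖ ^ 2 = 0 := by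
      have := sq_nonneg ‖X ω v‖
      have := sq_nonneg ‖v - proj (K ω) v‖
      linarith
    have h5 : ‖X ω v‖ ^ 2 = 0 := by linarith
    have h6 : v = proj (K ω) v := sub_eq_zero.1 (norm_eq_zero.1 (pow_eq_zero_iff two_ne_zero |>.1 h4))
    refine ⟨?_, norm_eq_zero.1 (pow_eq_zero_iff two_ne_zero |>.1 h5)⟩
    rw [h6]
    exact proj_mem (hK.closed ω) v

end Pool.Agent.FusfTree
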