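import Pool.Agent.P.MP_8fb1ed_pr.Pow

/-! Rank-nullity inequality for the dimension of random subspaces. -/

open MeasureTheory Filter Topology
open scoped ENNReal

namespace Pool.Agent.FusfTree

namespace RankAux

open PowAux

section hilbert
variable {E E' : Type*} [NormedAddCommGroup E] [InnerProductSpace ℝ E]
    [CompleteSpace E] [NormedAddCommGroup E'] [InnerProductSpace ℝ E'] [CompleteSpace E']

omit [InnerProductSpace ℝ E] [CompleteSpace E] in
theorem enorm_sq (v : E) : ‖v‖ₑ ^ 2 = ENNReal.ofReal (‖v‖ ^ 2) := by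
  rw [ENNReal.ofReal_pow (norm_nonneg _), ofReal_norm]

theorem summable_damp (X : E →L[ℝ] E') {c : ℝ} (hc : 0 < c) (hX : c * ‖X‖ ^ 2 ≤ 1) (v : E) :
    Summable fun k : ℕ => ‖X ((damp X c ^ k) v)‖ ^ 2 := by
  refine summable_of_sum_range_le (c := ‖v‖ ^ 2 / c) (fun _ => sq_nonneg _) fun n => ?_
  have h := damp_pow_le X hc.le hX v n
  rw [le_div_iff₀ hc]
  have := sq_nonneg ‖(damp X c ^ n) v‖
  linarith

theorem lower_real (X : E →L[ℝ] E') {c : ℝ} (hc : 0 < c) (hX : c * ‖X‖ ^ 2 ≤ 1) (u : E) :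
    ‖u‖ ^ 2 ≤ ‖proj (LinearMap.ker (X : E →ₗ[ℝ] E')) u‖ ^ 2
      + 2 * c * ∑' k : ℕ, ‖X ((damp X c ^ k) u)‖ ^ 2 := by
  have h1 := ((damp_tendsto X hc hX u).norm.pow 2).add
    ((summable_damp X hc hX u).tendsto_sum_tsum_nat.const_mul (2 * c))
  exact ge_of_tendsto' h1 fun n => damp_pow_ge X c u n

theorem upper_real (X : E →L[ℝ] E') {c d : ℝ} (hc : 0 < c) (hX : c * ‖X‖ ^ 2 ≤ d) (hd : d ≤ 1)
    (u : E) : (2 - d) * c * ∑' k : ℕ, ‖X ((damp X c ^ k) u)‖ ^ 2 ≤ ‖u‖ ^ 2 := by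
  have h1 := (summable_damp X hc (hX.trans hd) u).tendsto_sum_tsum_nat.const_mul ((2 - d) * c)
  refine le_of_tendsto' h1 fun n => ?_
  have := damp_pow_le X hc.le hX u n
  have := sq_nonneg ‖(damp X c ^ n) u‖
  linarith

omit [CompleteSpace E'] in
theorem proj_ker_comp {K : Submodule ℝ E} (hK : IsClosed (K : Set E)) (X : E →L[ℝ] E') (v : E) :
    proj (LinearMap.ker ((X.comp (proj K) : E →L[ℝ] E') : E →ₗ[ℝ] E')) (proj K v)
      = proj (K ⊓ LinearMap.ker (X : E →ₗ[ℝ] E')) v := by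
  have hcl : IsClosed ((K ⊓ LinearMap.ker (X : E →ₗ[ℝ] E') : Submodule ℝ E) : Set E) :=
    hK.inter (isClosed_ker' X)
  have hq := proj_mem hcl v
  have ho := sub_proj_mem (K ⊓ LinearMap.ker (X : E →ₗ[ℝ] E')) v
  set q := proj (K ⊓ LinearMap.ker (X : E →ₗ[ℝ] E')) v with hqd
  refine proj_eq_of ?_ ?_
  · change X (proj K q) = 0
    rw [proj_of_mem hq.1]
    exact hq.2
  · rw [Submodule.mem_orthogonal]
    intro w hw
    have h1 : proj K v - q = proj K (v - q) := by rw [map_sub, proj_of_mem hq.1]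
    rw [h1, ← proj_inner]
    exact Submodule.inner_right_of_mem_orthogonal
      (Submodule.mem_inf.2 ⟨proj_mem hK w, hw⟩) ho

theorem lower {K : Submodule ℝ E} (hK : IsClosed (K : Set E)) (X : E →L[ℝ] E') {c : ℝ}
    (hc : 0 < c) (hX : c * ‖X.comp (proj K)‖ ^ 2 ≤ 1) (v : E) :
    ‖proj K v‖ₑ ^ 2 ≤ ‖proj (K ⊓ LinearMap.ker (X : E →ₗ[ℝ] E')) v‖ₑ ^ 2
      + ENNReal.ofReal (2 * c) *
        ∑' k : ℕ, ‖((X.comp (proj K)).comp (damp (X.comp (proj K)) c ^ k)) v‖ₑ ^ 2 := by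
  set Y := X.comp (proj K) with hY
  have h1 := lower_real Y hc hX (proj K v)
  rw [proj_ker_comp hK] at h1
  have h0 : Y (v - proj K v) = 0 := by
    change X (proj K (v - proj K v)) = 0
    rw [map_sub, proj_of_mem (proj_mem hK v), sub_self, map_zero]
  have h2 : ∀ k : ℕ, Y ((damp Y c ^ k) (proj K v)) = Y ((damp Y c ^ k) v) := by
    intro k
    have h3 := damp_pow_ker Y c k h0
    have h4 : Y ((damp Y c ^ k) (v - proj K v)) = 0 := by rw [h3, h0]
    rw [map_sub, map_sub, sub_eq_zero] at h4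
    exact h4.symm
  simp only [h2] at h1
  simp only [enorm_sq, ContinuousLinearMap.comp_apply (g := Y)]
  rw [← ENNReal.ofReal_tsum_of_nonneg (fun _ => sq_nonneg _) (summable_damp Y hc hX v),
    ← ENNReal.ofReal_mul (by positivity), ← ENNReal.ofReal_add (sq_nonneg _)
      (mul_nonneg (by positivity) (tsum_nonneg fun _ => sq_nonneg _))]
  exact ENNReal.ofReal_le_ofReal h1

theorem damp_pow_adjoint (X : E →L[ℝ] E') (c : ℝ) (k : ℕ) (w : E') :
    (damp X c ^ k) (ContinuousLinearMap.adjoint X w)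
      = ContinuousLinearMap.adjoint X ((damp (ContinuousLinearMap.adjoint X) c ^ k) w) := by
  induction k with
  | zero => simp
  | succ k ih =>
    rw [damp_pow_succ, damp_pow_succ, ih, damp_apply, damp_apply, map_sub, map_smul,
      ContinuousLinearMap.adjoint_adjoint]

theorem adjoint_comp_damp (X : E →L[ℝ] E') (c : ℝ) (k : ℕ) (w : E') :
    ContinuousLinearMap.adjoint (X.comp (damp X c ^ k)) w
      = (damp X c ^ k) (ContinuousLinearMap.adjoint X w) := by
  refine ext_inner_left ℝ fun v => ?_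
  rw [ContinuousLinearMap.adjoint_inner_right, ← damp_pow_inner,
    ContinuousLinearMap.adjoint_inner_right]
  rfl

theorem upper {L : Submodule ℝ E'} (Y : E →L[ℝ] E') (hL : ∀ v, Y v ∈ L) {c d : ℝ}
    (hc : 0 < c) (hX : c * ‖Y‖ ^ 2 ≤ d) (hd : d ≤ 1) (w : E') :
    ENNReal.ofReal ((2 - d) * c) *
        ∑' k : ℕ, ‖ContinuousLinearMap.adjoint (Y.comp (damp Y c ^ k)) w‖ₑ ^ 2
      ≤ ‖proj L w‖ₑ ^ 2 := by
  have hX' : c * ‖ContinuousLinearMap.adjoint Y‖ ^ 2 ≤ d := by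
    rwa [LinearIsometryEquiv.norm_map]
  have h1 := upper_real (ContinuousLinearMap.adjoint Y) hc hX' hd (proj L w)
  have h0 : ContinuousLinearMap.adjoint Y w = ContinuousLinearMap.adjoint Y (proj L w) := by
    rw [← sub_eq_zero, ← map_sub]
    refine ext_inner_left ℝ fun v => ?_
    rw [ContinuousLinearMap.adjoint_inner_right, inner_zero_right]
    exact Submodule.inner_right_of_mem_orthogonal (hL v) (sub_proj_mem L w)
  simp only [enorm_sq, adjoint_comp_damp, h0, damp_pow_adjoint]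
  rw [← ENNReal.ofReal_tsum_of_nonneg (fun _ => sq_nonneg _)
    (summable_damp _ hc (hX'.trans hd) _),
    ← ENNReal.ofReal_mul (mul_nonneg (by linarith) hc.le)]
  exact ENNReal.ofReal_le_ofReal h1

end hilbert

variable {Γ Ω ι κ : Type*} [Group Γ] [MeasurableSpace Ω] [MulAction Γ ι]
  [MulAction Γ κ] [Countable ι] [Countable κ] {a : Γ → Ω → Ω} {P : Measure Ω}

open Classical in
theorem measurable_cols (β : ι → Γ) {X : Ω → L2 ι →L[ℝ] L2 κ} (hX : ROp a X) :
    Measurable fun ω => ∑' i, if β i = 1 then ‖X ω (dl i)‖ₑ ^ 2 else 0 := by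
  refine Measurable.tsum fun i => ?_
  by_cases h : β i = 1
  · simpa only [if_pos h] using hX.measurable_col i
  · simpa only [if_neg h] using measurable_const

open Classical in
theorem tsum_hs (β : ι → Γ) {X : ℕ → Ω → L2 ι →L[ℝ] L2 κ} (hX : ∀ k, ROp a (X k))
    (r : ℝ≥0∞) : r * ∑' k, hs P β (X k)
      = ∫⁻ ω, ∑' i, if β i = 1 then r * ∑' k, ‖X k ω (dl i)‖ₑ ^ 2 else 0 ∂P := by
  unfold hs
  rw [← lintegral_tsum fun k => (measurable_cols β (hX k)).aemeasurable,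
    ← lintegral_const_mul _ (Measurable.tsum fun k => measurable_cols β (hX k))]
  refine lintegral_congr fun ω => ?_
  rw [ENNReal.tsum_comm, ← ENNReal.tsum_mul_left]
  refine tsum_congr fun i => ?_
  by_cases h : β i = 1 <;> simp [h]

theorem dim_le_aux [Countable Γ] (ha : ∀ g, MeasurePreserving (a g) P P) {β : ι → Γ}
    {β' : κ → Γ} (hβ : IsBase β) (hβ' : IsBase β') {K : Ω → Submodule ℝ (L2 ι)}
    {L : Ω → Submodule ℝ (L2 κ)} (hK : RSub a K) {X : Ω → L2 ι →L[ℝ] L2 κ} (hX : ROp a X)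
    (hXK : ∀ ω, ∀ v ∈ K ω, X ω v ∈ L ω) {d : ℝ} (hd0 : 0 < d) (hd : d ≤ 1) :
    dim P β K ≤ ENNReal.ofReal (2 / (2 - d)) * dim P β' L
      + dim P β fun ω => K ω ⊓ LinearMap.ker (X ω : L2 ι →ₗ[ℝ] L2 κ) := by
  classical
  have hY : ROp a fun ω => (X ω).comp (proj (K ω)) := hX.comp hK.rop
  obtain ⟨c, hc, hcY⟩ := exists_small hY hd0
  have hZ : ∀ k : ℕ, ROp a fun ω =>
      ((X ω).comp (proj (K ω))).comp (damp ((X ω).comp (proj (K ω))) c ^ k) :=
    fun k => hY.comp ((rop_damp hY c).pow k)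
  set S := ∑' k : ℕ, hs P β fun ω =>
      ((X ω).comp (proj (K ω))).comp (damp ((X ω).comp (proj (K ω))) c ^ k) with hS
  have h1 : dim P β K ≤ (dim P β fun ω => K ω ⊓ LinearMap.ker (X ω : L2 ι →ₗ[ℝ] L2 κ))
      + ENNReal.ofReal (2 * c) * S := by
    rw [hS, tsum_hs β hZ]
    unfold dim hs
    rw [← lintegral_add_left (measurable_cols β (hK.inf_ker hX).rop)]
    refine lintegral_mono fun ω => ?_
    dsimp only
    rw [← ENNReal.tsum_add]
    refine ENNReal.tsum_le_tsum fun i => ?_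
    by_cases h : β i = 1
    · simp only [if_pos h]
      exact lower (hK.closed ω) (X ω) hc ((hcY ω).trans hd) (dl i)
    · simp only [if_neg h, zero_le]
  have h2 : ENNReal.ofReal ((2 - d) * c) * S ≤ dim P β' L := by
    rw [hS]
    simp only [fun k => hs_adjoint ha hβ hβ' (hZ k)]
    rw [tsum_hs β' fun k => (hZ k).adjoint]
    unfold dim hs
    refine lintegral_mono fun ω => ?_
    dsimp only
    refine ENNReal.tsum_le_tsum fun j => ?_
    by_cases h : β' j = 1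
    · simp only [if_pos h]
      exact upper _ (fun v => hXK ω (proj (K ω) v) (proj_mem (hK.closed ω) v)) hc
        (hcY ω) hd (dl j)
    · simp only [if_neg h, le_refl]
  have h2d : 0 < 2 - d := by linarith
  have h3 : ENNReal.ofReal (2 * c) * S ≤ ENNReal.ofReal (2 / (2 - d)) * dim P β' L := by
    have h4 : 2 * c = 2 / (2 - d) * ((2 - d) * c) := by field_simp
    rw [h4, ENNReal.ofReal_mul (by positivity), mul_assoc]
    exact mul_le_mul_right h2 _
  rw [add_comm]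
  exact h1.trans (add_le_add_right h3 _)

end RankAux

variable {Γ Ω ι κ : Type*} [Group Γ] [Countable Γ] [MeasurableSpace Ω] [MulAction Γ ι]
  [MulAction Γ κ] [Countable ι] [Countable κ] {a : Γ → Ω → Ω} {P : Measure Ω}

theorem dim_le (ha : ∀ g, MeasurePreserving (a g) P P) {β : ι → Γ} {β' : κ → Γ}
    (hβ : IsBase β) (hβ' : IsBase β') {K : Ω → Submodule ℝ (L2 ι)} {L : Ω → Submodule ℝ (L2 κ)}
    (hK : RSub a K) (hL : RSub a L) {X : Ω → L2 ι →L[ℝ] L2 κ} (hX : ROp a X)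
    (hXK : ∀ ω, ∀ v ∈ K ω, X ω v ∈ L ω) :
    dim P β K ≤ dim P β' L + dim P β fun ω => K ω ⊓ LinearMap.ker (X ω : L2 ι →ₗ[ℝ] L2 κ) := by
  have _ := hL
  by_cases htop : dim P β' L = ⊤
  · rw [htop, top_add]
    exact le_top
  have h1 : Tendsto (fun d : ℝ => 2 / (2 - d)) (𝓝[>] 0) (𝓝 1) := by
    have h : ContinuousAt (fun d : ℝ => 2 / (2 - d)) 0 :=
      continuousAt_const.div (continuousAt_const.sub continuousAt_id) (by norm_num)
    have h' := h.tendsto.mono_left (nhdsWithin_le_nhds (s := Set.Ioi (0 : ℝ)))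
    simpa using h'
  have h2 := ENNReal.Tendsto.mul_const (b := dim P β' L) (ENNReal.tendsto_ofReal h1)
    (Or.inr htop)
  rw [ENNReal.ofReal_one, one_mul] at h2
  have h3 := h2.add_const
    (dim P β fun ω => K ω ⊓ LinearMap.ker (X ω : L2 ι →ₗ[ℝ] L2 κ))
  refine ge_of_tendsto h3 ?_
  filter_upwards [Ioo_mem_nhdsGT (zero_lt_one' ℝ)] with d hd
  exact RankAux.dim_le_aux ha hβ hβ' hK hX hXK hd.1 hd.2.le

end Pool.Agent.FusfTree
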