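import Pool.Agent.P.MP_8fb1ed_pr.Forest
import Pool.Agent.P.MP_8fb1ed_pr.Ncl

/-! The deterministic part of the saturation argument. -/

open Relation Filter
open scoped ENNReal

namespace Pool.Agent.FusfTree

lemma tele_fin {f : ℤ → ℕ} (hf : Antitone f) (a : ℤ) (n : ℕ) :
    ∑ i ∈ Finset.range n, (f (a + i) - f (a + i + 1)) + f (a + n) = f a := by
  induction n with
  | zero => simp
  | succ n ih =>
    rw [Finset.sum_range_succ]
    have h1 : f (a + n + 1) ≤ f (a + n) := hf (by omega)
    have h2 : f (a + (n + 1 : ℕ)) = f (a + n + 1) := by congr 1; push_cast; ring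
    omega

lemma tele_tsum {f : ℤ → ℕ} (hf : Antitone f) {A B : ℕ} (hA : ∀ᶠ s in atBot, f s = A)
    (hB : ∀ᶠ s in atTop, f s = B) :
    ∑' s : ℤ, ((f s - f (s + 1) : ℕ) : ℝ≥0∞) = (A - B : ℕ) := by
  obtain ⟨a, ha⟩ := eventually_atBot.1 hA
  obtain ⟨b, hb⟩ := eventually_atTop.1 hB
  obtain ⟨n, hn⟩ : ∃ n : ℕ, b ≤ a + n := ⟨(b - a).toNat, by omega⟩
  let e : ℕ ↪ ℤ := ⟨fun i => a + i, fun i j h => by simpa using h⟩
  rw [tsum_eq_sum (s := (Finset.range n).map e)]
  · rw [Finset.sum_map, ← Nat.cast_sum]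
    congr 1
    have := tele_fin hf a n
    rw [ha a le_rfl, hb _ hn] at this
    change ∑ i ∈ Finset.range n, (f (a + i) - f (a + i + 1)) = _
    omega
  · intro s hs
    by_cases h : s < a
    · rw [ha s h.le, ha (s + 1) (by omega)]; simp
    · have : a + n ≤ s := by
        by_contra h2
        exact hs (Finset.mem_map.2 ⟨(s - a).toNat, Finset.mem_range.2 (by omega), by
          change a + ((s - a).toNat : ℤ) = s
          omega⟩)
      rw [hb s (by omega), hb (s + 1) (by omega)]; simp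

lemma jumps_le {f : ℤ → ℕ} (hf : Antitone f) {r : ℕ} (hr : ∀ s, f s ≤ r) :
    {s | f (s + 1) < f s}.encard ≤ r := by
  have h1 : {s | f (s + 1) < f s}.encard ≤ (Set.Ioc 0 r).encard := by
    refine Set.encard_le_encard_of_injOn (f := f) (fun s hs => ⟨?_, hr s⟩) ?_
    · exact lt_of_le_of_lt (Nat.zero_le _) hs
    · intro s hs s' hs' h
      by_contra hne
      rcases lt_or_gt_of_ne hne with hlt | hlt
      · have := hf (show s + 1 ≤ s' by omega)
        have h2 : f (s + 1) < f s := hs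
        omega
      · have := hf (show s' + 1 ≤ s by omega)
        have h2 : f (s' + 1) < f s' := hs'
        omega
  refine h1.trans (le_of_eq ?_)
  rw [← Finset.coe_Ioc, Set.encard_coe_eq_coe_finsetCard]
  simp

variable {Γ : Type*}

section defs
variable (t b φ : Γ → Γ → Prop) (η : Cfg Γ) (lev : Γ → Γ → ℤ)

/-- Connections at time `s` seen from `o`. -/
def EE (o : Γ) (s : ℤ) : Γ → Γ → Prop := EqvGen (act φ (ReflTransGen t) η lev o s)

/-- The message sent to `o` by the side of `w`. -/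
def MM (o w : Γ) (s : ℤ) : Γ → Γ → Prop :=
  EqvGen fun x y => side t o w x ∧ act φ (ReflTransGen t) η lev o s x y

/-- The message from `w` to `o` changes at time `s`. -/
def jump (o w : Γ) (s : ℤ) : Prop :=
  ncl (MM t φ η lev o w (s + 1)) (sep b o w) < ncl (MM t φ η lev o w s) (sep b o w)

/-- Loss of classes in `A` at time `s`. -/
noncomputable def drop (A : Set Γ) (o : Γ) (s : ℤ) : ℕ :=
  ncl (EE t φ η lev o s) A - ncl (EE t φ η lev o (s + 1)) A

/-- Connected at all times. -/
def rho (x y : Γ) : Prop := ∀ s, EE t φ η lev x s x y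

/-- Excess of classes of `rho` over those of the graph `φ` in `A`. -/
noncomputable def exc (A : Set Γ) : ℕ := ncl (rho t φ η lev) A - ncl (EqvGen φ) A

open Classical in
/-- The loss on the separator `ow` at the times when the message into `o` changes. -/
noncomputable def gam (o w : Γ) : ℝ≥0∞ :=
  ∑' s : ℤ, if t o w ∧ jump t b φ η lev o w s then (drop t φ η lev (sep b o w) o s : ℝ≥0∞) else 0

/-- `lev` is a cocycle on the components of `t`. -/
def Cocyc : Prop := ∀ x y z, ReflTransGen t x y → ReflTransGen t y z → lev x z = lev x y + lev y z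

end defs

variable {G : SimpleGraph Γ} {r : ℕ} {t b φ : Γ → Γ → Prop} {η : Cfg Γ} {lev : Γ → Γ → ℤ}

lemma act_mono {cn : Γ → Γ → Prop} {o : Γ} {s s' : ℤ} (h : s ≤ s') {x y : Γ}
    (hxy : act φ cn η lev o s x y) : act φ cn η lev o s' x y :=
  ⟨hxy.1, hxy.2.1, hxy.2.2.imp_right fun h' => h'.trans_le h⟩

lemma EE_mono {o : Γ} {s s' : ℤ} (h : s ≤ s') {x y : Γ} (hxy : EE t φ η lev o s x y) :
    EE t φ η lev o s' x y := eqvGen_mono (fun _ _ h' => .rel _ _ (act_mono h h')) hxy

lemma MM_mono {o w : Γ} {s s' : ℤ} (h : s ≤ s') {x y : Γ} (hxy : MM t φ η lev o w s x y) :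
    MM t φ η lev o w s' x y := eqvGen_mono (fun _ _ h' => .rel _ _ ⟨h'.1, act_mono h h'.2⟩) hxy

lemma EE_equiv (o : Γ) (s : ℤ) : Equivalence (EE t φ η lev o s) := EqvGen.is_equivalence _

lemma MM_equiv (o w : Γ) (s : ℤ) : Equivalence (MM t φ η lev o w s) := EqvGen.is_equivalence _

lemma Cocyc.self (hc : Cocyc t lev) (x : Γ) : lev x x = 0 := by
  have := hc x x x .refl .refl
  omega

lemma act_root (hs : ∀ u w, t u w → t w u) (hc : Cocyc t lev) {o w : Γ}
    (how : ReflTransGen t o w) (s : ℤ) :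
    act φ (ReflTransGen t) η lev o s = act φ (ReflTransGen t) η lev w (s - lev o w) := by
  ext x y
  constructor
  · rintro ⟨h1, h2, h3⟩
    have h4 := (rtg_symm hs how).trans h1
    refine ⟨h4, h2, h3.imp_right fun h => ?_⟩
    have := hc o w x how h4
    omega
  · rintro ⟨h1, h2, h3⟩
    refine ⟨how.trans h1, h2, h3.imp_right fun h => ?_⟩
    have := hc o w x how h1
    omega

lemma EE_root (hs : ∀ u w, t u w → t w u) (hc : Cocyc t lev) {o w : Γ}
    (how : ReflTransGen t o w) (s : ℤ) : EE t φ η lev o s = EE t φ η lev w (s - lev o w) := by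
  unfold EE; rw [act_root hs hc how]

lemma EE_le {o : Γ} {s : ℤ} {x y : Γ} (h : EE t φ η lev o s x y) : EqvGen φ x y :=
  eqvGen_mono (fun _ _ h' => .rel _ _ h'.2.1) h

lemma IsTD.eqv_conn (h : IsTD G r t b φ) {x y : Γ} (hxy : EqvGen φ x y) : ReflTransGen t x y := by
  induction hxy with
  | rel _ _ h1 => exact h.φ_conn h1
  | refl => exact .refl
  | symm _ _ _ ih => exact rtg_symm h.t_symm ih
  | trans _ _ _ _ _ ih1 ih2 => exact ih1.trans ih2

lemma rho_iff (hs : ∀ u w, t u w → t w u) (hc : Cocyc t lev) {o x y : Γ}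
    (hox : ReflTransGen t o x) : rho t φ η lev x y ↔ ∀ s, EE t φ η lev o s x y := by
  constructor
  · intro h s
    rw [EE_root hs hc hox]; exact h _
  · intro h s
    have := h (s + lev o x)
    rwa [EE_root hs hc hox, add_sub_cancel_right] at this

lemma rho_le {x y : Γ} (h : rho t φ η lev x y) : EqvGen φ x y := EE_le (h 0)

lemma rho_of_edge {x y : Γ} (h : φ x y) (hη : η s(x, y) = true) : rho t φ η lev x y :=
  fun _ => .rel _ _ ⟨.refl, h, .inl hη⟩

lemma rho_equiv (h : IsTD G r t b φ) (hc : Cocyc t lev) : Equivalence (rho t φ η lev) := by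
  refine ⟨fun x s => .refl _, fun {x y} hxy => ?_, fun {x y z} hxy hyz => ?_⟩
  · have h1 := h.eqv_conn (rho_le hxy)
    exact (rho_iff h.t_symm hc h1).2 fun s => .symm _ _ (hxy s)
  · have h1 := h.eqv_conn (rho_le hxy)
    exact fun s => .trans _ _ _ (hxy s) ((rho_iff h.t_symm hc h1).1 hyz s)

lemma EE_eventually_top (h : IsTD G r t b φ) {o x y : Γ} (hxy : EqvGen φ x y)
    (hox : ReflTransGen t o x) : ∀ᶠ s in atTop, EE t φ η lev o s x y := by
  induction hxy with
  | rel x y h1 =>
    filter_upwards [eventually_gt_atTop (lev o x)] with s hs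
    exact .rel _ _ ⟨hox, h1, .inr hs⟩
  | refl => exact Eventually.of_forall fun _ => .refl _
  | symm x y h1 ih =>
    filter_upwards [ih (hox.trans (rtg_symm h.t_symm (h.eqv_conn h1)))] with s hs
    exact .symm _ _ hs
  | trans x y z h1 _ ih1 ih2 =>
    filter_upwards [ih1 hox, ih2 (hox.trans (h.eqv_conn h1))] with s hs1 hs2
    exact .trans _ _ _ hs1 hs2

variable [Countable Γ]

lemma tsum_drop (h : IsTD G r t b φ) (hc : Cocyc t lev) {A : Set Γ} (hA : A.Finite) {o : Γ}
    (hAo : ∀ x ∈ A, ReflTransGen t o x) :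
    ∑' s : ℤ, (drop t φ η lev A o s : ℝ≥0∞) = exc t φ η lev A := by
  refine tele_tsum (f := fun s => ncl (EE t φ η lev o s) A) ?_ ?_ ?_
  · intro s s' hss
    exact ncl_anti (EE_equiv _ _) (EE_equiv _ _) hA fun x _ y _ => EE_mono hss
  · have : ∀ᶠ s in atBot, ∀ x ∈ A, ∀ y ∈ A, EE t φ η lev o s x y ↔ rho t φ η lev x y := by
      refine (hA.eventually_all).2 fun x hx => (hA.eventually_all).2 fun y _ => ?_
      rw [rho_iff h.t_symm hc (hAo x hx)]
      by_cases h1 : ∀ s, EE t φ η lev o s x y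
      · exact Eventually.of_forall fun s => iff_of_true (h1 s) h1
      · obtain ⟨s₀, hs₀⟩ := not_forall.1 h1
        filter_upwards [eventually_le_atBot s₀] with s hs
        exact iff_of_false (fun h2 => hs₀ (EE_mono hs h2)) h1
    filter_upwards [this] with s hs using ncl_congr hs
  · have : ∀ᶠ s in atTop, ∀ x ∈ A, ∀ y ∈ A, EE t φ η lev o s x y ↔ EqvGen φ x y := by
      refine (hA.eventually_all).2 fun x hx => (hA.eventually_all).2 fun y _ => ?_
      by_cases h1 : EqvGen φ x y
      · filter_upwards [EE_eventually_top (η := η) (lev := lev) h h1 (hAo x hx)] with s hs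
        exact iff_of_true hs h1
      · exact Eventually.of_forall fun s => iff_of_false (fun h2 => h1 (EE_le h2)) h1
    filter_upwards [this] with s hs using ncl_congr hs

lemma MM_agree (h : IsTD G r t b φ) {o w : Γ} {s : ℤ} (hj : ¬ jump t b φ η lev o w s) :
    ∀ x ∈ sep b o w, ∀ y ∈ sep b o w, MM t φ η lev o w (s + 1) x y → MM t φ η lev o w s x y := by
  intro x hx y hy hxy
  by_contra hn
  exact hj (ncl_lt (MM_equiv _ _ _) (MM_equiv _ _ _) (h.sep_finite o w)
    (fun _ _ _ _ => MM_mono (by omega)) hx hy hxy hn)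

lemma drop_eq_zero (h : IsTD G r t b φ) (hc : Cocyc t lev) {o w : Γ} (how : t o w) {s : ℤ}
    (h1 : ¬ jump t b φ η lev o w s) (h2 : ¬ jump t b φ η lev w o (s - lev o w)) :
    drop t φ η lev (sep b o w) o s = 0 := by
  have hsplit : ∀ s, act φ (ReflTransGen t) η lev o s = fun x y =>
      (side t o w x ∧ act φ (ReflTransGen t) η lev o s x y) ∨
      (side t w o x ∧ act φ (ReflTransGen t) η lev w (s - lev o w) x y) := by
    intro s
    rw [← act_root h.t_symm hc (.single how)]
    ext x y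
    constructor
    · intro hxy
      rcases side_or (w := w) hxy.1 with h' | h'
      · exact .inl ⟨h', hxy⟩
      · exact .inr ⟨h', hxy⟩
    · rintro (h' | h') <;> exact h'.2
  have key : ∀ x ∈ sep b o w, ∀ y ∈ sep b o w, EE t φ η lev o (s + 1) x y → EE t φ η lev o s x y := by
    intro x hx y hy hxy
    unfold EE at hxy ⊢
    rw [hsplit] at hxy ⊢
    refine glue (V₁ := {x | ∃ v, side t o w v ∧ b v x}) (V₂ := {x | ∃ v, side t w o v ∧ b v x})
      (S := sep b o w) ?_ ?_ ?_ (MM_agree h h1) ?_ hx hy hxy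
    · exact fun p q hpq => ⟨⟨p, hpq.1, h.b_self p⟩, ⟨p, hpq.1, h.φ_bag _ _ hpq.2.2.1⟩⟩
    · exact fun p q hpq => ⟨⟨p, hpq.1, h.b_self p⟩, ⟨p, hpq.1, h.φ_bag _ _ hpq.2.2.1⟩⟩
    · rintro x ⟨v, hv, hb⟩ ⟨v', hv', hb'⟩
      exact h.sep_of_sides how hv hv' hb hb'
    · have := MM_agree h h2
      rw [sep_comm, show s - lev o w + 1 = s + 1 - lev o w by ring] at this
      exact this
  unfold drop
  rw [ncl_congr (ρ' := EE t φ η lev o (s + 1)) fun x hx y hy =>
    ⟨EE_mono (by omega), key x hx y hy⟩, Nat.sub_self]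

lemma jump_count (h : IsTD G r t b φ) (o w : Γ) : {s | jump t b φ η lev o w s}.encard ≤ r :=
  jumps_le (f := fun s => ncl (MM t φ η lev o w s) (sep b o w))
    (fun _ _ hss => ncl_anti (MM_equiv _ _ _) (MM_equiv _ _ _) (h.sep_finite o w)
      fun _ _ _ _ => MM_mono hss)
    fun _ => (ncl_le (h.sep_finite o w)).trans (h.sep_ncard o w)

lemma exc_sep_le (h : IsTD G r t b φ) (hc : Cocyc t lev) {o w : Γ} (how : t o w) :
    (exc t φ η lev (sep b o w) : ℝ≥0∞) ≤ gam t b φ η lev o w + gam t b φ η lev w o := by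
  classical
  rw [← tsum_drop h hc (h.sep_finite o w) (o := o) fun x hx => h.bag_conn hx.1]
  unfold gam
  rw [← (Equiv.subRight (lev o w)).tsum_eq fun s => if t w o ∧ jump t b φ η lev w o s then
    (drop t φ η lev (sep b w o) w s : ℝ≥0∞) else 0, ← ENNReal.tsum_add]
  refine ENNReal.tsum_le_tsum fun s => ?_
  simp only [Equiv.subRight_apply]
  by_cases h1 : jump t b φ η lev o w s
  · rw [if_pos ⟨how, h1⟩]; exact le_self_add
  by_cases h2 : jump t b φ η lev w o (s - lev o w)
  · rw [if_pos (show t w o ∧ _ from ⟨h.t_symm _ _ how, h2⟩)]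
    refine le_add_left (le_of_eq ?_)
    unfold drop
    rw [EE_root h.t_symm hc (.single how) s, EE_root h.t_symm hc (.single how) (s + 1),
      sep_comm b o w, show s - lev o w + 1 = s + 1 - lev o w by ring]
  · rw [drop_eq_zero h hc how h1 h2]; simp

omit [Countable Γ] in
lemma exc_le (h : IsTD G r t b φ) {A : Set Γ} {o : Γ} (hA : A ⊆ {x | b o x}) :
    exc t φ η lev A ≤ r :=
  (Nat.sub_le _ _).trans ((ncl_le ((h.bag_finite o).subset hA)).trans
    ((Set.ncard_le_ncard hA (h.bag_finite o)).trans (h.bag_ncard o)))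

open Classical in
lemma gam_le (h : IsTD G r t b φ) (hc : Cocyc t lev) (o w : Γ) :
    gam t b φ η lev o w ≤ if t o w then (r : ℝ≥0∞) else 0 := by
  split_ifs with how
  · refine le_trans ?_ (Nat.cast_le.2 (exc_le (η := η) (lev := lev) h (sep_subset b o w)))
    rw [← tsum_drop h hc (h.sep_finite o w) (o := o) fun x hx => h.bag_conn hx.1]
    refine ENNReal.tsum_le_tsum fun s => ?_
    split_ifs <;> simp
  · simp [gam, how]

lemma drop_pos (h : IsTD G r t b φ) (hc : Cocyc t lev) {o : Γ}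
    (hn : Needed φ (ReflTransGen t) η lev o) : 1 ≤ drop t φ η lev {x | b o x} o 0 := by
  obtain ⟨y, hy, hny⟩ := hn
  have : ncl (EE t φ η lev o (0 + 1)) {x | b o x} < ncl (EE t φ η lev o 0) {x | b o x} :=
    ncl_lt (EE_equiv _ _) (EE_equiv _ _) (h.bag_finite o) (fun _ _ _ _ => EE_mono (by omega))
      (h.b_self o) (h.φ_bag _ _ hy) (.rel _ _ ⟨.refl, hy, .inr (by rw [hc.self]; omega)⟩) hny
  unfold drop
  omega

open Classical in
lemma node_step (h : IsTD G r t b φ) (hc : Cocyc t lev) (o : Γ) (s : ℤ) :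
    (∑' w, if t o w ∧ jump t b φ η lev o w s then (drop t φ η lev (sep b o w) o s : ℝ≥0∞) else 0)
      + (if s = 0 then (if Needed φ (ReflTransGen t) η lev o then 1 else 0) else 0) ≤
    drop t φ η lev {x | b o x} o s
      + (if s = 0 then ({w | t o w ∧ jump t b φ η lev o w 0}.encard : ℝ≥0∞) else 0)
      + r * ({p : Γ × Γ | (t o p.1 ∧ jump t b φ η lev o p.1 s) ∧
          (t o p.2 ∧ jump t b φ η lev o p.2 s) ∧ p.1 ≠ p.2}.encard : ℝ≥0∞) := by
  set J : Γ → Prop := fun w => t o w ∧ jump t b φ η lev o w s with hJ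
  by_cases h0 : ∃ w, J w
  swap
  · rw [not_exists] at h0
    have : (∑' w, if J w then (drop t φ η lev (sep b o w) o s : ℝ≥0∞) else 0) = 0 := by
      simp [h0]
    rw [this, zero_add]
    split_ifs with hs hn
    · subst hs
      exact le_add_right (le_add_right (by exact_mod_cast drop_pos h hc hn))
    · exact zero_le
    · exact zero_le
  obtain ⟨w₀, hw₀⟩ := h0
  have hone : (if s = 0 then (if Needed φ (ReflTransGen t) η lev o then (1 : ℝ≥0∞) else 0) else 0)
      ≤ (if s = 0 then ({w | t o w ∧ jump t b φ η lev o w 0}.encard : ℝ≥0∞) else 0) := by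
    split_ifs with hs hn
    · subst hs
      have : (1 : ℕ∞) ≤ {w | t o w ∧ jump t b φ η lev o w 0}.encard :=
        Set.one_le_encard_iff_nonempty.2 ⟨w₀, hw₀⟩
      exact_mod_cast this
    · exact zero_le
    · exact le_rfl
  rw [add_right_comm]
  refine add_le_add ?_ hone
  by_cases h1 : ∀ w, J w → w = w₀
  · rw [tsum_eq_single w₀ fun w hw => if_neg fun h' => hw (h1 w h'), if_pos hw₀]
    refine le_add_right (Nat.cast_le.2 ?_)
    exact ncl_sub_mono (EE_equiv _ _) (EE_equiv _ _) (h.bag_finite o) (sep_subset b o w₀)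
      fun _ _ _ _ => EE_mono (by omega)
  · simp only [not_forall] at h1
    obtain ⟨w₁, hw₁, hne⟩ := h1
    refine le_add_left ?_
    calc (∑' w, if J w then (drop t φ η lev (sep b o w) o s : ℝ≥0∞) else 0)
        ≤ ∑' w, r * if J w then (1 : ℝ≥0∞) else 0 := by
          refine ENNReal.tsum_le_tsum fun w => ?_
          split_ifs
          · rw [mul_one]
            exact Nat.cast_le.2 ((Nat.sub_le _ _).trans
              ((ncl_le (h.sep_finite o w)).trans (h.sep_ncard o w)))
          · simp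
      _ = r * ({w | J w}.encard : ℝ≥0∞) := by rw [ENNReal.tsum_mul_left, encard_eq_tsum]
      _ ≤ _ := by
          gcongr
          refine Set.encard_le_encard_of_injOn
            (f := fun w => (w, if w = w₀ then w₁ else w₀)) (fun w hw => ?_)
            fun w _ w' _ h' => congrArg Prod.fst h'
          by_cases hw0 : w = w₀
          · simp only [hw0, if_true]
            exact ⟨hw₀, hw₁, Ne.symm hne⟩
          · simp only [hw0, if_false]
            exact ⟨hw, hw₀, hw0⟩

open Classical in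
/-- The inequality at a node of the forest. -/
theorem node_ineq (h : IsTD G r t b φ) (hc : Cocyc t lev) (o : Γ) :
    ∑' w, gam t b φ η lev o w + (if Needed φ (ReflTransGen t) η lev o then 1 else 0) ≤
    exc t φ η lev {x | b o x} + ({w | t o w ∧ jump t b φ η lev o w 0}.encard : ℝ≥0∞)
      + r * ∑' s : ℤ, ({p : Γ × Γ | (t o p.1 ∧ jump t b φ η lev o p.1 s) ∧
          (t o p.2 ∧ jump t b φ η lev o p.2 s) ∧ p.1 ≠ p.2}.encard : ℝ≥0∞) := by
  have := ENNReal.tsum_le_tsum fun s => node_step (η := η) h hc o s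
  rw [ENNReal.tsum_add, ENNReal.tsum_add, ENNReal.tsum_add, tsum_ite_eq, tsum_ite_eq,
    ENNReal.tsum_mul_left, tsum_drop h hc (h.bag_finite o) fun x hx => h.bag_conn hx,
    ENNReal.tsum_comm] at this
  exact this

end Pool.Agent.FusfTree
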