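import Pool.Agent.P.MP_8fb1ed_pr.SatDet

/-! Mass transport form of the saturation inequality. -/

open Relation Filter MeasureTheory
open scoped ENNReal

namespace Pool.Agent.FusfTree

variable {Γ Ω : Type*} [Group Γ] [MeasurableSpace Ω]

/-- A random tree decomposition with a random edge set and a level cocycle. -/
structure Setup (G : SimpleGraph Γ) (r : ℕ) (a : Γ → Ω → Ω) (t b φ : Ω → Γ → Γ → Prop)
    (F : Ω → Cfg Γ) (lev : Ω → Γ → Γ → ℤ) : Prop where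
  td : ∀ ω, IsTD G r (t ω) (b ω) (φ ω)
  ht : RRel a t
  hb : RRel a b
  hφ : RRel a φ
  Fm : Measurable F
  Fe : ∀ g ω, F (a g ω) = shift g (F ω)
  lm : ∀ x y, Measurable fun ω => lev ω x y
  le : ∀ g ω x y, lev (a g ω) (g * x) (g * y) = lev ω x y
  lc : ∀ ω, Cocyc (t ω) (lev ω)

variable [Countable Γ] {G : SimpleGraph Γ} {r : ℕ} {a : Γ → Ω → Ω} {t b φ : Ω → Γ → Γ → Prop}
  {F : Ω → Cfg Γ} {lev : Ω → Γ → Γ → ℤ}

lemma RRel.side_meas (ht : RRel a t) (u w z : Γ) : Measurable fun ω => side (t ω) u w z :=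
  measurable_rtg (fun p q => (ht.meas p q).and measurable_const) w z

omit [Countable Γ] in
lemma RRel.side_eqv (ht : RRel a t) (g : Γ) (ω : Ω) (u w z : Γ) :
    side (t (a g ω)) (g * u) (g * w) (g * z) ↔ side (t ω) u w z :=
  rtg_equiv (Equiv.mulLeft g) (fun p q => and_congr (ht.eqv g ω p q) (by simp)) w z

omit [Countable Γ] in
lemma RRel.sep_meas (hb : RRel a b) (u w x : Γ) : Measurable fun ω => x ∈ sep (b ω) u w :=
  (hb.meas u x).and (hb.meas w x)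

omit [Countable Γ] in
lemma RRel.sep_eqv (hb : RRel a b) (g : Γ) (ω : Ω) (u w x : Γ) :
    g * x ∈ sep (b (a g ω)) (g * u) (g * w) ↔ x ∈ sep (b ω) u w :=
  and_congr (hb.eqv g ω u x) (hb.eqv g ω w x)

namespace Setup
variable (h : Setup G r a t b φ F lev)
include h

omit [Countable Γ] in
lemma edge_meas (x y : Γ) : Measurable fun ω => F ω s(x, y) = true :=
  (measurable_edge _).comp h.Fm

omit [Countable Γ] in
lemma lev_lt_meas (x y : Γ) (s : ℤ) : Measurable fun ω => lev ω x y < s :=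
  (Measurable.of_discrete (f := fun n : ℤ => n < s)).comp (h.lm x y)

lemma act_meas (o : Γ) (s : ℤ) (x y : Γ) :
    Measurable fun ω => act (φ ω) (ReflTransGen (t ω)) (F ω) (lev ω) o s x y :=
  (h.ht.rtg.meas o x).and ((h.hφ.meas x y).and ((h.edge_meas x y).or (h.lev_lt_meas o x s)))

lemma act_eqv (g : Γ) (ω : Ω) (o : Γ) (s : ℤ) (x y : Γ) :
    act (φ (a g ω)) (ReflTransGen (t (a g ω))) (F (a g ω)) (lev (a g ω)) (g * o) s (g * x) (g * y)
      ↔ act (φ ω) (ReflTransGen (t ω)) (F ω) (lev ω) o s x y :=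
  and_congr (h.ht.rtg.eqv g ω o x) (and_congr (h.hφ.eqv g ω x y)
    (by rw [h.Fe, shift_apply, h.le]))

lemma EE_meas (o : Γ) (s : ℤ) (x y : Γ) :
    Measurable fun ω => EE (t ω) (φ ω) (F ω) (lev ω) o s x y :=
  measurable_eqvGen (h.act_meas o s) x y

lemma EE_eqv (g : Γ) (ω : Ω) (o : Γ) (s : ℤ) (x y : Γ) :
    EE (t (a g ω)) (φ (a g ω)) (F (a g ω)) (lev (a g ω)) (g * o) s (g * x) (g * y) ↔
      EE (t ω) (φ ω) (F ω) (lev ω) o s x y :=
  eqvGen_equiv (Equiv.mulLeft g) (h.act_eqv g ω o s) x y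

lemma MM_meas (o w : Γ) (s : ℤ) (x y : Γ) :
    Measurable fun ω => MM (t ω) (φ ω) (F ω) (lev ω) o w s x y :=
  measurable_eqvGen (fun p q => (h.ht.side_meas o w p).and (h.act_meas o s p q)) x y

lemma MM_eqv (g : Γ) (ω : Ω) (o w : Γ) (s : ℤ) (x y : Γ) :
    MM (t (a g ω)) (φ (a g ω)) (F (a g ω)) (lev (a g ω)) (g * o) (g * w) s (g * x) (g * y) ↔
      MM (t ω) (φ ω) (F ω) (lev ω) o w s x y :=
  eqvGen_equiv (Equiv.mulLeft g)
    (fun p q => and_congr (h.ht.side_eqv g ω o w p) (h.act_eqv g ω o s p q)) x y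

lemma jump_meas (o w : Γ) (s : ℤ) :
    Measurable fun ω => jump (t ω) (b ω) (φ ω) (F ω) (lev ω) o w s := by
  have h1 : ∀ s, Measurable fun ω => ncl (MM (t ω) (φ ω) (F ω) (lev ω) o w s) (sep (b ω) o w) :=
    fun s => measurable_ncl (fun ω => MM_equiv _ _ _) (fun ω => (h.td ω).sep_finite o w)
      (h.MM_meas o w s) (h.hb.sep_meas o w)
  exact (Measurable.of_discrete (f := fun p : ℕ × ℕ => p.1 < p.2)).comp ((h1 (s + 1)).prodMk (h1 s))

lemma jump_eqv (g : Γ) (ω : Ω) (o w : Γ) (s : ℤ) :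
    jump (t (a g ω)) (b (a g ω)) (φ (a g ω)) (F (a g ω)) (lev (a g ω)) (g * o) (g * w) s ↔
      jump (t ω) (b ω) (φ ω) (F ω) (lev ω) o w s := by
  have h1 : ∀ s, ncl (MM (t (a g ω)) (φ (a g ω)) (F (a g ω)) (lev (a g ω)) (g * o) (g * w) s)
      (sep (b (a g ω)) (g * o) (g * w)) =
      ncl (MM (t ω) (φ ω) (F ω) (lev ω) o w s) (sep (b ω) o w) := fun s =>
    ncl_equiv (Equiv.mulLeft g) (MM_equiv _ _ _) (MM_equiv _ _ _) ((h.td ω).sep_finite o w)
      (h.MM_eqv g ω o w s) (h.hb.sep_eqv g ω o w)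
  unfold jump
  rw [h1, h1]

lemma drop_meas (o w : Γ) (s : ℤ) :
    Measurable fun ω => (drop (t ω) (φ ω) (F ω) (lev ω) (sep (b ω) o w) o s : ℝ≥0∞) := by
  have h1 : ∀ s, Measurable fun ω => ncl (EE (t ω) (φ ω) (F ω) (lev ω) o s) (sep (b ω) o w) :=
    fun s => measurable_ncl (fun ω => EE_equiv _ _) (fun ω => (h.td ω).sep_finite o w)
      (h.EE_meas o s) (h.hb.sep_meas o w)
  exact (Measurable.of_discrete (f := fun p : ℕ × ℕ => ((p.1 - p.2 : ℕ) : ℝ≥0∞))).comp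
    ((h1 s).prodMk (h1 (s + 1)))

lemma drop_eqv (g : Γ) (ω : Ω) (o w : Γ) (s : ℤ) :
    drop (t (a g ω)) (φ (a g ω)) (F (a g ω)) (lev (a g ω)) (sep (b (a g ω)) (g * o) (g * w))
      (g * o) s = drop (t ω) (φ ω) (F ω) (lev ω) (sep (b ω) o w) o s := by
  have h1 : ∀ s, ncl (EE (t (a g ω)) (φ (a g ω)) (F (a g ω)) (lev (a g ω)) (g * o) s)
      (sep (b (a g ω)) (g * o) (g * w)) =
      ncl (EE (t ω) (φ ω) (F ω) (lev ω) o s) (sep (b ω) o w) := fun s =>
    ncl_equiv (Equiv.mulLeft g) (EE_equiv _ _) (EE_equiv _ _) ((h.td ω).sep_finite o w)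
      (h.EE_eqv g ω o s) (h.hb.sep_eqv g ω o w)
  unfold drop
  rw [h1, h1]

lemma gam_meas (o w : Γ) : Measurable fun ω => gam (t ω) (b ω) (φ ω) (F ω) (lev ω) o w :=
  Measurable.tsum fun s => Measurable.ite ((h.ht.meas o w).and (h.jump_meas o w s)).setOf
    (h.drop_meas o w s) measurable_const

lemma gam_eqv (g : Γ) (ω : Ω) (o w : Γ) :
    gam (t (a g ω)) (b (a g ω)) (φ (a g ω)) (F (a g ω)) (lev (a g ω)) (g * o) (g * w) =
      gam (t ω) (b ω) (φ ω) (F ω) (lev ω) o w := by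
  classical
  unfold gam
  refine tsum_congr fun s => ?_
  rw [h.drop_eqv]
  exact if_congr (and_congr (h.ht.eqv g ω o w) (h.jump_eqv g ω o w s)) rfl rfl

lemma rho_rrel : RRel a fun ω => rho (t ω) (φ ω) (F ω) (lev ω) :=
  ⟨fun x y => Measurable.forall fun s => h.EE_meas x s x y,
    fun g ω x y => forall_congr' fun s => h.EE_eqv g ω x s x y⟩

lemma needed_meas (o : Γ) :
    Measurable fun ω => Needed (φ ω) (ReflTransGen (t ω)) (F ω) (lev ω) o :=
  Measurable.exists fun y => (h.hφ.meas o y).and (h.EE_meas o 0 o y).not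

lemma exc_meas {A : Ω → Set Γ} (hA : ∀ ω, (A ω).Finite) (hm : ∀ x, Measurable fun ω => x ∈ A ω) :
    Measurable fun ω => (exc (t ω) (φ ω) (F ω) (lev ω) (A ω) : ℝ≥0∞) :=
  (Measurable.of_discrete (f := fun p : ℕ × ℕ => ((p.1 - p.2 : ℕ) : ℝ≥0∞))).comp
    ((measurable_ncl (fun ω => rho_equiv (h.td ω) (h.lc ω)) hA h.rho_rrel.meas hm).prodMk
      (measurable_ncl (fun _ => EqvGen.is_equivalence _) hA h.hφ.eqvGen.meas hm))

open Classical in
theorem sat_prob {P : Measure Ω} (ha : ∀ g, MeasurePreserving (a g) P P) :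
    ∫⁻ ω, ∑' w, (if t ω 1 w ∧ lev ω 1 w ≤ 0 then
        (exc (t ω) (φ ω) (F ω) (lev ω) (sep (b ω) 1 w) : ℝ≥0∞) else 0) ∂P
      + P {ω | Needed (φ ω) (ReflTransGen (t ω)) (F ω) (lev ω) 1} ≤
    ∫⁻ ω, (exc (t ω) (φ ω) (F ω) (lev ω) {x | b ω 1 x} : ℝ≥0∞) ∂P
      + ∫⁻ ω, ({w | t ω 1 w ∧ jump (t ω) (b ω) (φ ω) (F ω) (lev ω) 1 w 0}.encard : ℝ≥0∞) ∂P
      + r * ∫⁻ ω, ∑' s : ℤ, ({p : Γ × Γ |
          (t ω 1 p.1 ∧ jump (t ω) (b ω) (φ ω) (F ω) (lev ω) 1 p.1 s) ∧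
          (t ω 1 p.2 ∧ jump (t ω) (b ω) (φ ω) (F ω) (lev ω) 1 p.2 s) ∧ p.1 ≠ p.2}.encard : ℝ≥0∞) ∂P
      + r * ∫⁻ ω, ({w | t ω 1 w ∧ lev ω 1 w = 0}.encard : ℝ≥0∞) ∂P := by
  set γ : Ω → Γ → Γ → ℝ≥0∞ := fun ω o w => gam (t ω) (b ω) (φ ω) (F ω) (lev ω) o w with hγ
  have hle : ∀ x y, MeasurableSet {ω | lev ω x y ≤ 0} := fun x y =>
    ((Measurable.of_discrete (f := fun n : ℤ => n ≤ 0)).comp (h.lm x y)).setOf
  have hm1 : ∀ x y z w, Measurable fun ω => if lev ω x y ≤ 0 then γ ω z w else 0 :=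
    fun x y z w => Measurable.ite (hle x y) (h.gam_meas z w) measurable_const
  have hm3 : Measurable fun ω => ({w | t ω 1 w ∧ lev ω 1 w = 0}.encard : ℝ≥0∞) :=
    measurable_encard_ennreal fun w => (h.ht.meas 1 w).and
      ((Measurable.of_discrete (f := fun n : ℤ => n = 0)).comp (h.lm 1 w))
  have step1 : ∫⁻ ω, ∑' w, (if t ω 1 w ∧ lev ω 1 w ≤ 0 then
        (exc (t ω) (φ ω) (F ω) (lev ω) (sep (b ω) 1 w) : ℝ≥0∞) else 0) ∂P ≤
      ∫⁻ ω, ∑' w, γ ω 1 w ∂P + r * ∫⁻ ω, ({w | t ω 1 w ∧ lev ω 1 w = 0}.encard : ℝ≥0∞) ∂P := by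
    calc _ ≤ ∫⁻ ω, (∑' w, (if lev ω 1 w ≤ 0 then γ ω 1 w else 0) +
            ∑' w, (if lev ω 1 w ≤ 0 then γ ω w 1 else 0)) ∂P := by
          refine lintegral_mono fun ω => ?_
          rw [← ENNReal.tsum_add]
          refine ENNReal.tsum_le_tsum fun w => ?_
          split_ifs with h1 h2 h2
          · exact exc_sep_le (h.td ω) (h.lc ω) h1.1
          · exact absurd h1.2 h2
          · exact zero_le
          · exact zero_le
      _ = ∫⁻ ω, ∑' w, (if lev ω 1 w ≤ 0 then γ ω 1 w else 0) ∂P +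
            ∫⁻ ω, ∑' w, (if lev ω w 1 ≤ 0 then γ ω 1 w else 0) ∂P := by
          rw [lintegral_add_left (Measurable.tsum fun w => hm1 1 w 1 w)]
          congr 1
          exact mtp ha (f := fun ω x y => if lev ω x y ≤ 0 then γ ω y x else 0)
            (fun x y => hm1 x y y x) fun g ω x y => by
              simp only [hγ, h.le, h.gam_eqv]
      _ ≤ _ := by
          rw [← lintegral_add_left (Measurable.tsum fun w => hm1 1 w 1 w),
            ← lintegral_const_mul _ hm3,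
            ← lintegral_add_left (Measurable.tsum fun w => h.gam_meas 1 w)]
          refine lintegral_mono fun ω => ?_
          simp only
          rw [encard_eq_tsum, ← ENNReal.tsum_mul_left, ← ENNReal.tsum_add, ← ENNReal.tsum_add]
          refine ENNReal.tsum_le_tsum fun w => ?_
          have hg := gam_le (η := F ω) (h.td ω) (h.lc ω) 1 w
          by_cases htw : t ω 1 w
          · rw [if_pos htw] at hg
            have h1 := h.lc ω 1 w 1 (.single htw) (.single ((h.td ω).t_symm _ _ htw))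
            rw [(h.lc ω).self] at h1
            by_cases h0 : lev ω 1 w = 0
            · rw [if_pos h0.le, if_pos (by omega), if_pos ⟨htw, h0⟩, mul_one]
              exact add_le_add le_rfl hg
            · by_cases h2 : lev ω 1 w ≤ 0
              · rw [if_pos h2, if_neg (by omega), add_zero]; exact le_self_add
              · rw [if_neg h2, if_pos (by omega), zero_add]; exact le_self_add
          · rw [if_neg htw, nonpos_iff_eq_zero] at hg
            simp only [hγ, hg, ite_self, add_zero]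
            exact zero_le
  have step2 : ∫⁻ ω, ∑' w, γ ω 1 w ∂P +
      P {ω | Needed (φ ω) (ReflTransGen (t ω)) (F ω) (lev ω) 1} ≤
      ∫⁻ ω, (exc (t ω) (φ ω) (F ω) (lev ω) {x | b ω 1 x} : ℝ≥0∞) ∂P
      + ∫⁻ ω, ({w | t ω 1 w ∧ jump (t ω) (b ω) (φ ω) (F ω) (lev ω) 1 w 0}.encard : ℝ≥0∞) ∂P
      + r * ∫⁻ ω, ∑' s : ℤ, ({p : Γ × Γ |
          (t ω 1 p.1 ∧ jump (t ω) (b ω) (φ ω) (F ω) (lev ω) 1 p.1 s) ∧
          (t ω 1 p.2 ∧ jump (t ω) (b ω) (φ ω) (F ω) (lev ω) 1 p.2 s) ∧ p.1 ≠ p.2}.encard :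
            ℝ≥0∞) ∂P := by
    have hm4 := h.exc_meas (A := fun ω => {x | b ω 1 x}) (fun ω => (h.td ω).bag_finite 1)
      (h.hb.meas 1)
    have hm5 : Measurable fun ω =>
        ({w | t ω 1 w ∧ jump (t ω) (b ω) (φ ω) (F ω) (lev ω) 1 w 0}.encard : ℝ≥0∞) :=
      measurable_encard_ennreal fun w => (h.ht.meas 1 w).and (h.jump_meas 1 w 0)
    rw [← lintegral_indicator_one (h.needed_meas 1).setOf,
      ← lintegral_add_left (Measurable.tsum fun w => h.gam_meas 1 w),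
      ← lintegral_add_left hm4, ← lintegral_const_mul' _ _ (ENNReal.natCast_ne_top r),
      ← lintegral_add_left (hm4.fun_add hm5)]
    refine lintegral_mono fun ω => ?_
    have := node_ineq (η := F ω) (h.td ω) (h.lc ω) 1
    simp only [Set.indicator_apply, Set.mem_ofPred_eq, Pi.one_apply]
    exact this
  calc _ ≤ ∫⁻ ω, ∑' w, γ ω 1 w ∂P +
        r * ∫⁻ ω, ({w | t ω 1 w ∧ lev ω 1 w = 0}.encard : ℝ≥0∞) ∂P +
        P {ω | Needed (φ ω) (ReflTransGen (t ω)) (F ω) (lev ω) 1} := by gcongr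
    _ ≤ _ := by
      rw [add_right_comm]
      gcongr

end Setup

end Pool.Agent.FusfTree
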