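import Pool.Agent.P.MP_8fb1ed_pr.Basic

/-! Random equivariant operators and subspaces of `ℓ²` of a countable `Γ`-set, and their
(von Neumann) dimension. -/

open MeasureTheory Filter Topology
open scoped ENNReal

namespace Pool.Agent.FusfTree

/-- Real `ℓ²` space on an index type. -/
abbrev L2 (ι : Type*) := lp (fun _ : ι => ℝ) 2

open Classical in
/-- The basis vector at `i`. -/
noncomputable def dl {ι : Type*} (i : ι) : L2 ι := lp.single 2 i (1 : ℝ)

/-- Orthogonal projection onto the closure of `K`. -/
noncomputable def proj {E : Type*} [NormedAddCommGroup E] [InnerProductSpace ℝ E]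
    [CompleteSpace E] (K : Submodule ℝ E) : E →L[ℝ] E :=
  K.topologicalClosure.starProjection

/-- Vectors supported on `U`. -/
def coord {ι : Type*} (U : ι → Prop) : Submodule ℝ (L2 ι) where
  carrier := {f | ∀ i, ¬ U i → f i = 0}
  add_mem' := fun {f g} hf hg i hi => by
    have h1 := hf i hi
    have h2 := hg i hi
    simp [h1, h2]
  zero_mem' := fun i _ => by simp
  smul_mem' := fun c f hf i hi => by
    have h1 := hf i hi
    simp [h1]

section
variable {Γ Ω ι κ : Type*} [Group Γ] [MeasurableSpace Ω] [MulAction Γ ι] [MulAction Γ κ]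

/-- A uniformly bounded random operator with measurable equivariant matrix entries. -/
structure ROp (a : Γ → Ω → Ω) (X : Ω → L2 ι →L[ℝ] L2 κ) : Prop where
  bdd : ∃ C : ℝ, ∀ ω, ‖X ω‖ ≤ C
  meas : ∀ i j, Measurable fun ω => X ω (dl i) j
  eqv : ∀ g ω i j, X (a g ω) (dl (g • i)) (g • j) = X ω (dl i) j

/-- A random closed subspace with measurable equivariant projection. -/
structure RSub (a : Γ → Ω → Ω) (K : Ω → Submodule ℝ (L2 ι)) : Prop where
  closed : ∀ ω, IsClosed (K ω : Set (L2 ι))
  rop : ROp a fun ω => proj (K ω)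

/-- An equivariant map to the group: it selects the indices that sit at the identity. -/
def IsBase (β : ι → Γ) : Prop := ∀ (g : Γ) (i : ι), β (g • i) = g * β i

open Classical in
/-- Expected squared Hilbert-Schmidt norm of the columns at the identity. -/
noncomputable def hs (P : Measure Ω) (β : ι → Γ) (X : Ω → L2 ι →L[ℝ] L2 κ) : ℝ≥0∞ :=
  ∫⁻ ω, ∑' i, if β i = 1 then ‖X ω (dl i)‖ₑ ^ 2 else 0 ∂P

/-- The dimension of a random subspace. -/
noncomputable def dim (P : Measure Ω) (β : ι → Γ) (K : Ω → Submodule ℝ (L2 ι)) : ℝ≥0∞ :=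
  hs P β fun ω => proj (K ω)

end

end Pool.Agent.FusfTree
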