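import Pool.Agent.P.MP_8fb1ed_pr.UstFinAux

/-! Uniform spanning trees of finite graphs: Kirchhoff, Dirichlet and Rayleigh. -/

open MeasureTheory Filter Topology
open scoped ENNReal

namespace Pool.Agent.FusfTree

variable {Γ : Type*}

namespace UF

open Finset

variable {G : SimpleGraph Γ} {V : Finset Γ} {η : Cfg Γ} {x y : Γ}

lemma reach_iff (h : Sup G V η) (u v : (V : Set Γ)) :
    ((graphOf η).induce (V : Set Γ)).Reachable u v ↔ Rc η u v := by
  rw [SimpleGraph.reachable_iff_reflTransGen]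
  constructor
  · exact rtg_lift Subtype.val fun p q hpq => ((graphOf_adj η _ _).1 hpq).1
  · obtain ⟨v, hv⟩ := v
    intro hr
    change Rc η u v at hr
    induction hr with
    | refl => exact .refl
    | @tail p q _ hpq ih =>
      obtain ⟨hG, hp, hq⟩ := h.mem hpq
      exact (ih hp).tail ((graphOf_adj η _ _).2 ⟨hpq, hG.ne⟩)

lemma del_eq (η : Cfg Γ) (u v : (V : Set Γ)) :
    ((graphOf η).induce (V : Set Γ)).deleteEdges {s(u, v)} =
      (graphOf (put η s(u.1, v.1) false)).induce (V : Set Γ) := by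
  ext p q
  have h : s(p, q) = s(u, v) ↔ s(p.1, q.1) = s(u.1, v.1) := by
    simp only [Sym2.eq_iff, Subtype.ext_iff]
  simp only [SimpleGraph.deleteEdges_adj, SimpleGraph.comap_adj, Function.Embedding.subtype_apply,
    graphOf_adj, Set.mem_singleton_iff, h]
  by_cases h' : s(p.1, q.1) = s(u.1, v.1)
  · simp [h']
  · simp [h', put_ne _ _ h']

lemma mem_treeSet (hx : x ∈ V) : η ∈ treeSet G V ↔ IsT G V η := by
  refine and_congr_right fun h : Sup G V η => ?_
  have hd : ∀ e, Sup G V (put η e false) := fun e g hg => h g (put_false_le hg)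
  rw [SimpleGraph.isTree_iff, and_comm, SimpleGraph.isAcyclic_iff_forall_adj_isBridge]
  refine and_congr ⟨fun H p q hpq => ?_, fun H u v huv => ?_⟩ ⟨fun H p hp q hq => ?_, fun H => ?_⟩
  · obtain ⟨hG, hp, hq⟩ := h.mem hpq
    have h1 := H (v := ⟨p, hp⟩) (w := ⟨q, hq⟩) ((graphOf_adj η _ _).2 ⟨hpq, hG.ne⟩)
    rwa [SimpleGraph.isBridge_iff, del_eq, reach_iff (hd _)] at h1
  · rw [SimpleGraph.isBridge_iff, del_eq, reach_iff (hd _)]
    exact H _ _ ((graphOf_adj η _ _).1 huv).1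
  · exact (reach_iff h ⟨p, hp⟩ ⟨q, hq⟩).1 (H.preconnected _ _)
  · have : Nonempty (V : Set Γ) := ⟨⟨x, hx⟩⟩
    exact ⟨fun u v => (reach_iff h u v).2 (H _ u.2 _ v.2)⟩

/-- The number of spanning trees that contain `B`. -/
noncomputable def tau (G : SimpleGraph Γ) (V : Finset Γ) (B : Finset (Sym2 Γ)) : ℕ :=
  #(TT G V B fun _ => true)

lemma tau_insert [DecidableEq (Sym2 Γ)] {B : Finset (Sym2 Γ)} (hx : x ∈ V) (hy : y ∈ V)
    (hG : G.Adj x y) (hB : s(x, y) ∉ B) :
    #(AA G V x y B fun _ => true) = tau G V (insert s(x, y) B) := by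
  refine card_nbij' (fun φ => put φ s(x, y) true) (fun T => put T s(x, y) false) ?_ ?_ ?_ ?_
  · intro φ hφ
    obtain ⟨h1, h2⟩ := mem_AA.1 hφ
    refine mem_TT.2 ⟨h1.add hG hx hy, fun e he => ?_⟩
    rcases mem_insert.1 he with rfl | he
    · exact put_self _ _ _
    · exact le_put_true (h2 e he)
  · intro T hT
    obtain ⟨h1, h2⟩ := mem_TT.1 hT
    refine mem_AA.2 ⟨h1.del (h2 _ (mem_insert_self _ _)), fun e he => ?_⟩
    exact (put_ne _ _ fun h : e = s(x, y) => hB (h ▸ he)).trans (h2 e (mem_insert_of_mem he))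
  · intro φ hφ
    simp only [put_put]
    exact put_eq (mem_AA.1 hφ).1.false
  · intro T hT
    simp only [put_put]
    exact put_eq ((mem_TT.1 hT).2 _ (mem_insert_self _ _))

lemma tau_anti {B B' : Finset (Sym2 Γ)} (h : B ⊆ B') : tau G V B' ≤ tau G V B :=
  card_le_card fun _ hη => mem_TT.2 ⟨(mem_TT.1 hη).1, fun e he => (mem_TT.1 hη).2 e (h he)⟩

lemma tau_step [DecidableEq (Sym2 Γ)] {V' : Finset Γ} (hVV' : V ⊆ V') {B : Finset (Sym2 Γ)}
    (hx : x ∈ V) (hy : y ∈ V) (hB : s(x, y) ∉ B) :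
    tau G V' (insert s(x, y) B) * tau G V B ≤ tau G V (insert s(x, y) B) * tau G V' B := by
  by_cases hG : G.Adj x y
  · have h := dirichlet (G := G) (W := B) (ξ := fun _ => true) hx hy
      (f := uu G V' x y B fun _ => true) fun p q hW _ => uu_const hW rfl
    have h' := En_mono (G := G) (W := B) hVV' (uu G V' x y B fun _ => true)
    rw [En_uu (hVV' hx) (hVV' hy), tau_insert (hVV' hx) (hVV' hy) hG hB] at h'
    rw [uu_sub, tau_insert (hVV' hx) (hVV' hy) hG hB, tau_insert hx hy hG hB] at h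
    replace h := h.trans (mul_le_mul_of_nonneg_left h' (Nat.cast_nonneg _))
    rcases Nat.eq_zero_or_pos (tau G V' (insert s(x, y) B)) with h0 | h0
    · simp [h0]
    · refine Nat.le_of_mul_le_mul_left ?_ (Nat.mul_pos two_pos h0)
      have h2 : ((2 * tau G V' (insert s(x, y) B) * (tau G V' (insert s(x, y) B) * tau G V B) : ℕ) : ℝ)
          ≤ (2 * tau G V' (insert s(x, y) B) * (tau G V (insert s(x, y) B) * tau G V' B) : ℕ) := by
        push_cast
        change 2 * (tau G V B : ℝ) * _ ≤ _ * (2 * (tau G V' B : ℝ) * _) at h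
        linarith
      exact_mod_cast h2
  · have h0 : tau G V' (insert s(x, y) B) = 0 := by
      refine card_eq_zero.2 (eq_empty_of_forall_notMem fun η hη => hG ?_)
      exact ((mem_TT.1 hη).1.1.mem ((mem_TT.1 hη).2 _ (mem_insert_self _ _))).1
    simp [h0]

lemma tau_mono {V' : Finset Γ} (hVV' : V ⊆ V') (B : Finset (Sym2 Γ))
    (hB : ∀ e ∈ B, ∀ v ∈ e, v ∈ V) : tau G V' B * tau G V ∅ ≤ tau G V B * tau G V' ∅ := by
  classical
  induction B using Finset.induction_on with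
  | empty => exact (mul_comm _ _).le
  | insert e B he ih =>
    replace ih := ih fun g hg => hB g (mem_insert_of_mem hg)
    induction e using Sym2.ind with
    | _ x y =>
      have h := tau_step (G := G) hVV' (hB _ (mem_insert_self _ _) x (Sym2.mem_mk_left _ _))
        (hB _ (mem_insert_self _ _) y (Sym2.mem_mk_right _ _)) he
      rcases Nat.eq_zero_or_pos (tau G V B) with h0 | h0
      · rw [h0, zero_mul] at ih
        exact ((Nat.mul_le_mul_right _ (tau_anti (subset_insert _ _))).trans ih).trans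
          (Nat.zero_le _)
      · refine Nat.le_of_mul_le_mul_left ?_ h0
        calc tau G V B * (tau G V' (insert s(x, y) B) * tau G V ∅)
            = tau G V' (insert s(x, y) B) * tau G V B * tau G V ∅ := by ring
          _ ≤ tau G V (insert s(x, y) B) * tau G V' B * tau G V ∅ := Nat.mul_le_mul_right _ h
          _ = tau G V (insert s(x, y) B) * (tau G V' B * tau G V ∅) := by ring
          _ ≤ tau G V (insert s(x, y) B) * (tau G V B * tau G V' ∅) := Nat.mul_le_mul_left _ ih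
          _ = _ := by ring

lemma coe_TT (hx : x ∈ V) : treeSet G V = ↑(TT G V (∅ : Finset (Sym2 Γ)) fun _ => true) := by
  ext η
  rw [mem_treeSet hx, mem_coe, mem_TT]
  simp

lemma ust_apply [Countable Γ] (hx : x ∈ V) (P : Cfg Γ → Prop) [DecidablePred P] :
    ust G V {η | P η} =
    #((TT G V (∅ : Finset (Sym2 Γ)) fun _ => true).filter P) / (tau G V ∅ : ℝ≥0∞) := by
  rw [ust, coe_TT hx, ProbabilityTheory.uniformOn,
    ProbabilityTheory.cond_apply (Finset.measurableSet _), Measure.count_apply_finset,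
    ENNReal.div_eq_inv_mul, ← Measure.count_apply_finset (filter _ _), coe_filter]
  rfl

lemma card_le_energy (hxy : G.Adj x y) (hx : x ∈ V) (hy : y ∈ V) (W : Set (Sym2 Γ)) {δ : ℝ}
    (hδ : 0 ≤ δ) (P : Cfg Γ → Prop) [DecidablePred P] [DecidableEq (Cfg Γ)]
    (hP : ∀ η, P η → ∃ f : Γ → ℝ, (∀ p q, s(p, q) ∈ W → η s(p, q) = true → f p = f q) ∧
      f x - f y = 1 ∧ En G V W f f ≤ δ) :
    (#((TT G V (∅ : Finset (Sym2 Γ)) fun _ => true).filter P) : ℝ) ≤ δ * tau G V ∅ := by
  have : DecidablePred (· ∈ W) := Classical.decPred _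
  have : DecidableEq (Sym2 Γ) := Classical.decEq _
  set S := (TT G V (∅ : Finset (Sym2 Γ)) fun _ => true).filter P with hS
  let π : Cfg Γ → Cfg Γ := fun η e => if e ∈ W then η e else false
  have hπ : ∀ η ξ, π η = π ξ ↔ ∀ e ∈ W, η e = π ξ e := fun η ξ =>
    ⟨fun h e he => by rw [← h]; exact (if_pos he).symm, fun h => funext fun e => by
      by_cases he : e ∈ W
      · rw [← h e he]; exact if_pos he
      · exact (if_neg he).trans (if_neg he).symm⟩
  set A := AA G V x y (∅ : Finset (Sym2 Γ)) fun _ => true with hA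
  have h1 : ∀ ξ ∈ S.image π, (#(S.filter fun η => π η = ξ) : ℝ) ≤
      δ * #(A.filter fun η => π η = ξ) := by
    intro ξ hξ
    obtain ⟨η, hη, rfl⟩ := mem_image.1 hξ
    obtain ⟨f, hf, hf1, hf2⟩ := hP η (mem_filter.1 hη).2
    have h := dirichlet (G := G) (W := W) (ξ := π η) hx hy (f := f) fun p q hW h =>
      hf p q hW (by rw [← h]; exact (if_pos hW).symm)
    have e1 : (#(S.filter fun η' => π η' = π η) : ℝ) ≤ #(TT G V W (π η)) := by
      refine Nat.cast_le.2 (card_le_card fun η' hη' => ?_)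
      obtain ⟨h2, h3⟩ := mem_filter.1 hη'
      exact mem_TT.2 ⟨(mem_TT.1 (mem_filter.1 h2).1).1, (hπ _ _).1 h3⟩
    have e2 : (#(AA G V x y W (π η)) : ℝ) ≤ #(A.filter fun η' => π η' = π η) := by
      refine Nat.cast_le.2 (card_le_card fun η' hη' => ?_)
      obtain ⟨h2, h3⟩ := mem_AA.1 hη'
      exact mem_filter.2 ⟨mem_AA.2 ⟨h2, by simp⟩, (hπ _ _).2 h3⟩
    rw [hf1] at h
    have e3 := mul_le_mul e2 hf2 (En_nonneg f) (Nat.cast_nonneg _)
    have e4 : (0 : ℝ) ≤ #(TT G V W (π η)) := Nat.cast_nonneg _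
    linarith
  have h2 : #A ≤ tau G V ∅ := by
    rw [hA, tau_insert hx hy hxy (notMem_empty _)]
    exact tau_anti (empty_subset _)
  rw [card_eq_sum_card_image π S, Nat.cast_sum]
  refine (sum_le_sum h1).trans ?_
  rw [← mul_sum, ← Nat.cast_sum, sum_card_fiberwise_eq_card_filter]
  exact mul_le_mul_of_nonneg_left (Nat.cast_le.2 ((card_filter_le _ _).trans h2)) hδ

end UF

theorem treeSet_finite (G : SimpleGraph Γ) (V : Finset Γ) : (treeSet G V).Finite :=
  (UF.sup_finite G V).subset fun _ h => h.1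

theorem treeSet_nonempty {G : SimpleGraph Γ} {V : Finset Γ}
    (hV : (G.induce (V : Set Γ)).Connected) : (treeSet G V).Nonempty := by
  classical
  obtain ⟨T, hT, hT'⟩ := hV.exists_isTree_le
  refine ⟨fun e => decide (∃ u v, T.Adj u v ∧ e = s(u.1, v.1)), fun e he => ?_, ?_⟩
  · obtain ⟨u, v, h, rfl⟩ := of_decide_eq_true he
    refine ⟨hT h, fun w hw => ?_⟩
    rcases Sym2.mem_iff.1 hw with rfl | rfl
    · exact u.2
    · exact v.2
  · have h : (graphOf fun e => decide (∃ u v, T.Adj u v ∧ e = s(u.1, v.1))).induce (V : Set Γ)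
        = T := by
      ext p q
      simp only [SimpleGraph.comap_adj, Function.Embedding.subtype_apply, graphOf_adj,
        decide_eq_true_eq]
      constructor
      · rintro ⟨⟨u, v, h, h'⟩, _⟩
        rcases Sym2.eq_iff.1 h' with ⟨h1, h2⟩ | ⟨h1, h2⟩
        · rwa [Subtype.ext h1, Subtype.ext h2]
        · rw [Subtype.ext h1, Subtype.ext h2]
          exact h.symm
      · exact fun h => ⟨⟨p, q, h, rfl⟩, fun h' => h.ne (Subtype.ext h')⟩
    rwa [h]

private lemma tau_pos {G : SimpleGraph Γ} {V : Finset Γ}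
    (hV : (G.induce (V : Set Γ)).Connected) : 0 < UF.tau G V ∅ := by
  obtain ⟨x, hx⟩ := hV.nonempty
  obtain ⟨η, hη⟩ := treeSet_nonempty hV
  rw [UF.coe_TT hx] at hη
  exact Finset.card_pos.2 ⟨η, hη⟩

/-- Rayleigh monotonicity. -/
theorem ust_mono [Countable Γ] {G : SimpleGraph Γ} {V V' : Finset Γ} (hVV' : V ⊆ V')
    (hV : (G.induce (V : Set Γ)).Connected) (hV' : (G.induce (V' : Set Γ)).Connected)
    (B : Finset (Sym2 Γ)) (hB : ∀ e ∈ B, ∀ v ∈ e, v ∈ V) :
    ust G V' {η | ∀ e ∈ B, η e = true} ≤ ust G V {η | ∀ e ∈ B, η e = true} := by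
  classical
  obtain ⟨x, hx⟩ := hV.nonempty
  have key : ∀ U : Finset Γ, x ∈ U → ust G U {η | ∀ e ∈ B, η e = true} =
      (UF.tau G U B : ℝ≥0∞) / (UF.tau G U ∅ : ℝ≥0∞) := fun U hU => by
    rw [UF.ust_apply hU]
    congr 3
    ext η
    simp [UF.mem_TT]
  have h := UF.tau_mono (G := G) hVV' B hB
  have p1 := tau_pos hV
  have p2 := tau_pos hV'
  rw [key V hx, key V' (hVV' hx), ENNReal.div_le_iff (by simpa using p2.ne') (by simp),
    ENNReal.div_eq_inv_mul, mul_assoc, ← ENNReal.div_eq_inv_mul,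
    ENNReal.le_div_iff_mul_le (Or.inl (by simpa using p1.ne')) (Or.inl (by simp))]
  exact_mod_cast h

open Classical in
/-- Conditional Dirichlet bound. -/
theorem ust_energy [Countable Γ] {G : SimpleGraph Γ} {V : Finset Γ}
    (hV : (G.induce (V : Set Γ)).Connected) {x y : Γ} (hxy : G.Adj x y) (hx : x ∈ V) (hy : y ∈ V)
    (W : Set (Sym2 Γ)) {δ : ℝ} (hδ : 0 ≤ δ) :
    ust G V {η | ∃ f : Γ → ℝ, (∀ p q, s(p, q) ∈ W → η s(p, q) = true → f p = f q) ∧
      f x - f y = 1 ∧
      ∑ p ∈ V, ∑ q ∈ V, (if G.Adj p q ∧ s(p, q) ∉ W then (f p - f q) ^ 2 else 0) ≤ δ}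
      ≤ ENNReal.ofReal δ := by
  have p1 := tau_pos hV
  rw [UF.ust_apply hx, ENNReal.div_le_iff (by simpa using p1.ne') (by simp),
    ← ENNReal.ofReal_natCast, ← ENNReal.ofReal_natCast, ← ENNReal.ofReal_mul hδ]
  refine ENNReal.ofReal_le_ofReal (UF.card_le_energy hxy hx hy W hδ _ ?_)
  rintro η ⟨f, h1, h2, h3⟩
  refine ⟨f, h1, h2, le_of_eq_of_le ?_ h3⟩
  rw [UF.En, Finset.sum_product]
  simp only [sq]

end Pool.Agent.FusfTree
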