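import Pool.Agent.P.MP_8fb1ed_pr.Basic

/-! Spanning trees and separating two-forests of a finite graph; the Kirchhoff identity. -/

open Relation Finset

namespace Pool.Agent.FusfTree.UF

variable {Γ : Type*}

/-- Reachability along the pairs present in `η`. -/
def Rc (η : Cfg Γ) : Γ → Γ → Prop := ReflTransGen fun p q => η s(p, q) = true

open Classical in
/-- Change the value of `η` at one pair. -/
noncomputable def put (η : Cfg Γ) (e : Sym2 Γ) (b : Bool) : Cfg Γ :=
  fun g => if g = e then b else η g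

/-- All pairs of `η` are edges of `G` inside `V`. -/
def Sup (G : SimpleGraph Γ) (V : Finset Γ) (η : Cfg Γ) : Prop :=
  ∀ e, η e = true → e ∈ G.edgeSet ∧ ∀ v ∈ e, v ∈ V

/-- Every pair of `η` is a bridge. -/
def Acy (η : Cfg Γ) : Prop := ∀ p q, η s(p, q) = true → ¬ Rc (put η s(p, q) false) p q

/-- Spanning trees. -/
def IsT (G : SimpleGraph Γ) (V : Finset Γ) (η : Cfg Γ) : Prop :=
  Sup G V η ∧ Acy η ∧ ∀ p ∈ V, ∀ q ∈ V, Rc η p q

/-- Spanning forests with two trees that separate `x` from `y`. -/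
def IsA (G : SimpleGraph Γ) (V : Finset Γ) (x y : Γ) (η : Cfg Γ) : Prop :=
  Sup G V η ∧ Acy η ∧ ¬ Rc η x y ∧ ∀ v ∈ V, Rc η x v ∨ Rc η y v

variable {G : SimpleGraph Γ} {V : Finset Γ} {η φ T : Cfg Γ} {e g : Sym2 Γ} {a b c p q x y : Γ}

@[simp] lemma put_self (η : Cfg Γ) (e : Sym2 Γ) (b : Bool) : put η e b e = b := if_pos rfl

lemma put_ne (η : Cfg Γ) (b : Bool) (h : g ≠ e) : put η e b g = η g := if_neg h

lemma put_put (η : Cfg Γ) (e : Sym2 Γ) (b b' : Bool) : put (put η e b) e b' = put η e b' := by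
  funext g
  by_cases h : g = e
  · subst h; simp
  · simp only [put_ne _ _ h]

lemma put_eq {b : Bool} (h : η e = b) : put η e b = η := by
  funext g
  by_cases h' : g = e
  · subst h'; simp [h]
  · exact put_ne _ _ h'

lemma put_comm (η : Cfg Γ) (h : g ≠ e) (b b' : Bool) :
    put (put η e b) g b' = put (put η g b') e b := by
  funext k
  by_cases h1 : k = g
  · subst h1; rw [put_self, put_ne _ _ h, put_self]
  · by_cases h2 : k = e
    · subst h2; rw [put_self, put_ne _ _ h1, put_self]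
    · rw [put_ne _ _ h1, put_ne _ _ h2, put_ne _ _ h2, put_ne _ _ h1]

lemma put_false_le (h : put η e false g = true) : η g = true := by
  by_cases h' : g = e
  · subst h'; simp at h
  · rwa [put_ne _ _ h'] at h

lemma le_put_true (h : η g = true) : put η e true g = true := by
  by_cases h' : g = e
  · subst h'; simp
  · rwa [put_ne _ _ h']

lemma Rc.refl (η : Cfg Γ) (a : Γ) : Rc η a a := ReflTransGen.refl

lemma Rc.single (h : η s(a, b) = true) : Rc η a b := ReflTransGen.single h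

lemma Rc.trans (h : Rc η a b) (h' : Rc η b c) : Rc η a c := ReflTransGen.trans h h'

lemma Rc.symm (h : Rc η a b) : Rc η b a :=
  rtg_symm (fun p q hpq => by rwa [Sym2.eq_swap]) h

lemma Rc.mono (hle : ∀ g, η g = true → φ g = true) (h : Rc η a b) : Rc φ a b :=
  rtg_mono (fun _ _ hpq => hle _ hpq) h

lemma rc_put_true (h : Rc (put φ s(p, q) true) a b) :
    Rc φ a b ∨ (Rc φ a p ∧ Rc φ q b) ∨ (Rc φ a q ∧ Rc φ p b) := by
  induction h with
  | refl => exact Or.inl (Rc.refl _ _)
  | @tail u w _ huw ih =>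
    by_cases he : s(u, w) = s(p, q)
    · rcases Sym2.eq_iff.1 he with ⟨rfl, rfl⟩ | ⟨rfl, rfl⟩
      · rcases ih with h | h | h
        · exact Or.inr (Or.inl ⟨h, Rc.refl _ _⟩)
        · exact Or.inr (Or.inl ⟨h.1, Rc.refl _ _⟩)
        · exact Or.inl h.1
      · rcases ih with h | h | h
        · exact Or.inr (Or.inr ⟨h, Rc.refl _ _⟩)
        · exact Or.inl h.1
        · exact Or.inr (Or.inr ⟨h.1, Rc.refl _ _⟩)
    · have h1 : Rc φ u w := Rc.single (by rwa [put_ne _ _ he] at huw)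
      rcases ih with h | h | h
      · exact Or.inl (h.trans h1)
      · exact Or.inr (Or.inl ⟨h.1, h.2.trans h1⟩)
      · exact Or.inr (Or.inr ⟨h.1, h.2.trans h1⟩)

lemma Acy.mono (h : Acy η) (hle : ∀ g, φ g = true → η g = true) : Acy φ := by
  intro p q hpq hr
  refine h p q (hle _ hpq) (hr.mono fun g hg => ?_)
  by_cases h' : g = s(p, q)
  · subst h'; simp at hg
  · rw [put_ne _ _ h'] at hg ⊢
    exact hle _ hg

lemma Acy.add (h : Acy φ) (hpq : ¬ Rc φ p q) : Acy (put φ s(p, q) true) := by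
  intro a b hab hr
  by_cases he : s(a, b) = s(p, q)
  · rw [he, put_put] at hr
    have h1 : Rc φ a b := hr.mono fun g hg => put_false_le hg
    rcases Sym2.eq_iff.1 he with ⟨rfl, rfl⟩ | ⟨rfl, rfl⟩
    · exact hpq h1
    · exact hpq h1.symm
  · rw [put_ne _ _ he] at hab
    rw [put_comm _ he] at hr
    have hm : ∀ {u w}, Rc (put φ s(a, b) false) u w → Rc φ u w :=
      fun h' => h'.mono fun g hg => put_false_le hg
    rcases rc_put_true hr with h1 | h1 | h1
    · exact h a b hab h1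
    · exact hpq (((hm h1.1).symm.trans (Rc.single hab)).trans (hm h1.2).symm)
    · exact hpq (((hm h1.2).trans (Rc.single hab).symm).trans (hm h1.1))

lemma Sup.mem (h : Sup G V η) (hpq : η s(p, q) = true) : G.Adj p q ∧ p ∈ V ∧ q ∈ V :=
  ⟨(h _ hpq).1, (h _ hpq).2 p (Sym2.mem_mk_left _ _), (h _ hpq).2 q (Sym2.mem_mk_right _ _)⟩

/-- Removing an edge from a tree. -/
lemma IsT.del (h : IsT G V T) (hpq : T s(p, q) = true) : IsA G V p q (put T s(p, q) false) := by
  refine ⟨fun e he => h.1 e (put_false_le he), h.2.1.mono fun g hg => put_false_le hg,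
    h.2.1 p q hpq, fun v hv => ?_⟩
  have h1 := h.2.2 p (h.1.mem hpq).2.1 v hv
  rw [← put_eq hpq, ← put_put T s(p, q) false true] at h1
  rcases rc_put_true h1 with h2 | h2 | h2
  · exact Or.inl h2
  · exact Or.inr h2.2
  · exact Or.inl h2.2

lemma IsA.change (h : IsA G V p q φ) (hx : x ∈ V) (hy : y ∈ V) (hxy : ¬ Rc φ x y) :
    IsA G V x y φ := by
  refine ⟨h.1, h.2.1, hxy, fun v hv => ?_⟩
  rcases h.2.2.2 x hx with h1 | h1 <;> rcases h.2.2.2 y hy with h2 | h2
  · exact absurd (h1.symm.trans h2) hxy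
  · exact (h.2.2.2 v hv).imp h1.symm.trans h2.symm.trans
  · exact (h.2.2.2 v hv).symm.imp h1.symm.trans h2.symm.trans
  · exact absurd (h1.symm.trans h2) hxy

lemma IsA.false (h : IsA G V x y φ) : φ s(x, y) = false := by
  by_contra h'
  exact h.2.2.1 (Rc.single (by simpa using h'))

/-- Joining the two trees of a forest. -/
lemma IsA.add (h : IsA G V p q φ) (hG : G.Adj p q) (hp : p ∈ V) (hq : q ∈ V) :
    IsT G V (put φ s(p, q) true) := by
  refine ⟨fun e he => ?_, h.2.1.add h.2.2.1, ?_⟩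
  · by_cases h' : e = s(p, q)
    · subst h'
      refine ⟨hG, fun v hv => ?_⟩
      rcases Sym2.mem_iff.1 hv with rfl | rfl <;> assumption
    · rw [put_ne _ _ h'] at he
      exact h.1 e he
  · have h1 : ∀ v ∈ V, Rc (put φ s(p, q) true) p v := fun v hv => by
      rcases h.2.2.2 v hv with h2 | h2
      · exact h2.mono fun g hg => le_put_true hg
      · exact (Rc.single (put_self _ _ _)).trans (h2.mono fun g hg => le_put_true hg)
    exact fun a ha b hb => (h1 a ha).symm.trans (h1 b hb)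

open Classical in
/-- The indicator of reachability. -/
noncomputable def io (η : Cfg Γ) (a b : Γ) : ℝ := if Rc η a b then 1 else 0

lemma io_pos (h : Rc η a b) : io η a b = 1 := if_pos h

lemma io_neg (h : ¬ Rc η a b) : io η a b = 0 := if_neg h

lemma io_left (h : Rc η a b) (c : Γ) : io η a c = io η b c := by
  by_cases h' : Rc η b c
  · rw [io_pos h', io_pos (h.trans h')]
  · rw [io_neg h', io_neg fun h'' => h' (h.symm.trans h'')]

lemma io_right (h : Rc η a b) (c : Γ) : io η c a = io η c b := by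
  by_cases h' : Rc η c a
  · rw [io_pos h', io_pos (h'.trans h)]
  · rw [io_neg h', io_neg fun h'' => h' (h''.trans h.symm)]

/-- The auxiliary potential of a tree. -/
noncomputable def DD (V : Finset Γ) (T : Cfg Γ) (f : Γ → ℝ) (z : Γ) : ℝ :=
  ∑ r ∈ V ×ˢ V, if T s(r.1, r.2) = true then io (put T s(r.1, r.2) false) z r.1 * (f r.1 - f r.2)
    else 0

lemma DD_step (h : IsT G V T) (f : Γ → ℝ) (hab : T s(a, b) = true) :
    DD V T f a - DD V T f b = 2 * (f a - f b) := by
  classical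
  obtain ⟨hG, ha, hb⟩ := h.1.mem hab
  have hne : a ≠ b := hG.ne
  have hn : ¬ Rc (put T s(a, b) false) a b := h.2.1 a b hab
  rw [DD, DD, ← sum_sub_distrib]
  have key : ∀ r ∈ V ×ˢ V,
      ((if T s(r.1, r.2) = true then io (put T s(r.1, r.2) false) a r.1 * (f r.1 - f r.2) else 0) -
        if T s(r.1, r.2) = true then io (put T s(r.1, r.2) false) b r.1 * (f r.1 - f r.2) else 0) =
      (if r = (a, b) then f a - f b else 0) + if r = (b, a) then f a - f b else 0 := by
    rintro ⟨u, w⟩ _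
    by_cases he : s(u, w) = s(a, b)
    · rcases Sym2.eq_iff.1 he with ⟨rfl, rfl⟩ | ⟨rfl, rfl⟩
      · simp [hab, io_pos (Rc.refl _ u), io_neg fun h' => hn (Rc.symm h'), hne]
      · simp only [he, io_pos (Rc.refl _ u), io_neg hn]
        simp [hne.symm, hab]
    · have h1 : (u, w) ≠ (a, b) := fun h' => he (by rw [Prod.mk.injEq] at h'; rw [h'.1, h'.2])
      have h2 : (u, w) ≠ (b, a) := fun h' =>
        he (by rw [Prod.mk.injEq] at h'; rw [h'.1, h'.2, Sym2.eq_swap])
      have h3 : Rc (put T s(u, w) false) a b :=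
        Rc.single (by rw [put_ne _ _ (Ne.symm he)]; exact hab)
      simp only [if_neg h1, if_neg h2, io_left h3, sub_self, add_zero]
  rw [sum_congr rfl key, sum_add_distrib, sum_ite_eq', sum_ite_eq', if_pos (mem_product.2 ⟨ha, hb⟩),
    if_pos (mem_product.2 ⟨hb, ha⟩)]
  ring

lemma DD_sub (h : IsT G V T) (f : Γ → ℝ) (hab : Rc T a b) :
    DD V T f a - DD V T f b = 2 * (f a - f b) := by
  induction hab with
  | refl => simp
  | tail _ huw ih => have := DD_step h f huw; linarith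

lemma sup_finite (G : SimpleGraph Γ) (V : Finset Γ) : {η | Sup G V η}.Finite := by
  classical
  refine ((V.sym2.powerset.image fun (S : Finset (Sym2 Γ)) (e : Sym2 Γ) =>
    decide (e ∈ S)).finite_toSet).subset fun η hη => ?_
  refine mem_coe.2 (mem_image.2 ⟨V.sym2.filter fun e => η e = true,
    mem_powerset.2 (filter_subset _ _), funext fun e => ?_⟩)
  by_cases he : η e = true
  · simp [he, mem_sym2_iff.2 (hη e he).2]
  · simp [he]

open Classical in
/-- Trees that agree with `ξ` on `W`. -/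
noncomputable def TT (G : SimpleGraph Γ) (V : Finset Γ) (W : Set (Sym2 Γ)) (ξ : Cfg Γ) :
    Finset (Cfg Γ) :=
  (sup_finite G V).toFinset.filter fun η => IsT G V η ∧ ∀ e ∈ W, η e = ξ e

open Classical in
/-- Separating forests that agree with `ξ` on `W`. -/
noncomputable def AA (G : SimpleGraph Γ) (V : Finset Γ) (x y : Γ) (W : Set (Sym2 Γ)) (ξ : Cfg Γ) :
    Finset (Cfg Γ) :=
  (sup_finite G V).toFinset.filter fun η => IsA G V x y η ∧ ∀ e ∈ W, η e = ξ e

variable {W : Set (Sym2 Γ)} {ξ : Cfg Γ}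

lemma mem_TT : η ∈ TT G V W ξ ↔ IsT G V η ∧ ∀ e ∈ W, η e = ξ e := by
  simp only [TT, mem_filter, Set.Finite.mem_toFinset, Set.mem_ofPred_eq]
  exact ⟨fun h => h.2, fun h => ⟨h.1.1, h⟩⟩

lemma mem_AA : η ∈ AA G V x y W ξ ↔ IsA G V x y η ∧ ∀ e ∈ W, η e = ξ e := by
  simp only [AA, mem_filter, Set.Finite.mem_toFinset, Set.mem_ofPred_eq]
  exact ⟨fun h => h.2, fun h => ⟨h.1.1, h⟩⟩

/-- The potential: the number of separating forests in which `p` is on the side of `x`. -/
noncomputable def uu (G : SimpleGraph Γ) (V : Finset Γ) (x y : Γ) (W : Set (Sym2 Γ)) (ξ : Cfg Γ)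
    (p : Γ) : ℝ := ∑ φ ∈ AA G V x y W ξ, io φ x p

lemma edge_sum (hx : x ∈ V) (hy : y ∈ V) (hp : p ∈ V) (hq : q ∈ V) (hG : G.Adj p q)
    (hW : s(p, q) ∉ W) :
    ∑ T ∈ TT G V W ξ, (if T s(p, q) = true then
      io (put T s(p, q) false) x p - io (put T s(p, q) false) y p else 0) =
      uu G V x y W ξ p - uu G V x y W ξ q := by
  classical
  rw [uu, uu, ← sum_sub_distrib,
    ← sum_filter_of_ne (p := fun T => T s(p, q) = true ∧ ¬ Rc (put T s(p, q) false) x y),
    ← sum_filter_of_ne (s := AA G V x y W ξ) (p := fun φ => ¬ Rc φ p q)]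
  · refine sum_nbij' (fun T => put T s(p, q) false) (fun φ => put φ s(p, q) true) ?_ ?_ ?_ ?_ ?_
    · intro T hT
      obtain ⟨hT, h1, h2⟩ := mem_filter.1 hT
      obtain ⟨hT, hA⟩ := mem_TT.1 hT
      refine mem_filter.2 ⟨mem_AA.2 ⟨(hT.del h1).change hx hy h2, fun e he => ?_⟩, hT.2.1 p q h1⟩
      rw [put_ne _ _ fun h : e = s(p, q) => hW (h ▸ he)]
      exact hA e he
    · intro φ hφ
      obtain ⟨hφ, h1⟩ := mem_filter.1 hφ
      obtain ⟨hφ, hA⟩ := mem_AA.1 hφ
      have h2 := hφ.change hp hq h1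
      refine mem_filter.2 ⟨mem_TT.2 ⟨h2.add hG hp hq, fun e he => ?_⟩, put_self _ _ _, ?_⟩
      · rw [put_ne _ _ fun h : e = s(p, q) => hW (h ▸ he)]
        exact hA e he
      · rw [put_put, put_eq h2.false]
        exact hφ.2.2.1
    · intro T hT
      rw [put_put, put_eq (mem_filter.1 hT).2.1]
    · intro φ hφ
      obtain ⟨hφ, h1⟩ := mem_filter.1 hφ
      rw [put_put, put_eq ((mem_AA.1 hφ).1.change hp hq h1).false]
    · intro T hT
      obtain ⟨hT, h1, h2⟩ := mem_filter.1 hT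
      have h3 := (mem_TT.1 hT).1.del h1
      rw [if_pos h1]
      congr 1
      rcases h3.2.2.2 x hx with h4 | h4 <;> rcases h3.2.2.2 y hy with h5 | h5
      · exact absurd (h4.symm.trans h5) h2
      · rw [io_neg fun h => h2 (h4.symm.trans h.symm),
          io_neg fun h => h2 (h.trans h5)]
      · rw [io_pos h5.symm, io_pos h4.symm]
      · exact absurd (h4.symm.trans h5) h2
  · intro φ _ h1 h2
    exact h1 (by rw [io_right h2, sub_self])
  · intro T _ h1
    by_cases h2 : T s(p, q) = true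
    · refine ⟨h2, fun h3 => h1 ?_⟩
      rw [if_pos h2, io_left h3, sub_self]
    · exact absurd (if_neg h2) h1

open Classical in
/-- The Dirichlet form off `W`, summed over ordered pairs. -/
noncomputable def En (G : SimpleGraph Γ) (V : Finset Γ) (W : Set (Sym2 Γ)) (f g : Γ → ℝ) : ℝ :=
  ∑ r ∈ V ×ˢ V, if G.Adj r.1 r.2 ∧ s(r.1, r.2) ∉ W then (f r.1 - f r.2) * (g r.1 - g r.2) else 0

/-- The Kirchhoff identity. -/
theorem kirchhoff (hx : x ∈ V) (hy : y ∈ V) {f : Γ → ℝ}
    (hf : ∀ p q, s(p, q) ∈ W → ξ s(p, q) = true → f p = f q) :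
    2 * (#(TT G V W ξ) : ℝ) * (f x - f y) = En G V W (uu G V x y W ξ) f := by
  classical
  have h1 : ∑ T ∈ TT G V W ξ, (DD V T f x - DD V T f y) =
      2 * (#(TT G V W ξ) : ℝ) * (f x - f y) := by
    rw [sum_congr rfl fun T hT => DD_sub (mem_TT.1 hT).1 f ((mem_TT.1 hT).1.2.2 x hx y hy),
      sum_const, nsmul_eq_mul]
    ring
  rw [← h1]
  simp only [DD, ← sum_sub_distrib]
  rw [sum_comm, En]
  refine sum_congr rfl fun r hr => ?_
  obtain ⟨hp, hq⟩ := mem_product.1 hr
  by_cases h : G.Adj r.1 r.2 ∧ s(r.1, r.2) ∉ W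
  · rw [if_pos h, ← edge_sum hx hy hp hq h.1 h.2, sum_mul]
    refine sum_congr rfl fun T _ => ?_
    split_ifs <;> ring
  · rw [if_neg h]
    refine sum_eq_zero fun T hT => ?_
    obtain ⟨hT, hA⟩ := mem_TT.1 hT
    by_cases h2 : T s(r.1, r.2) = true
    · have h3 : s(r.1, r.2) ∈ W := by
        by_contra h3
        exact h ⟨(hT.1.mem h2).1, h3⟩
      rw [hf _ _ h3 (by rw [← hA _ h3]; exact h2)]
      simp
    · simp [h2]

lemma uu_const (hW : s(p, q) ∈ W) (h : ξ s(p, q) = true) :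
    uu G V x y W ξ p = uu G V x y W ξ q :=
  sum_congr rfl fun φ hφ => io_right (Rc.single (by rw [(mem_AA.1 hφ).2 _ hW]; exact h)) x

lemma uu_sub : uu G V x y W ξ x - uu G V x y W ξ y = #(AA G V x y W ξ) := by
  rw [uu, uu, ← sum_sub_distrib, card_eq_sum_ones, Nat.cast_sum]
  refine sum_congr rfl fun φ hφ => ?_
  rw [io_pos (Rc.refl _ _), io_neg (mem_AA.1 hφ).1.2.2.1]
  simp

lemma En_uu (hx : x ∈ V) (hy : y ∈ V) : En G V W (uu G V x y W ξ) (uu G V x y W ξ) =
    2 * (#(TT G V W ξ) : ℝ) * #(AA G V x y W ξ) := by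
  rw [← kirchhoff hx hy fun p q => uu_const, uu_sub]

lemma En_mono {V' : Finset Γ} (h : V ⊆ V') (f : Γ → ℝ) : En G V W f f ≤ En G V' W f f := by
  refine sum_le_sum_of_subset_of_nonneg (product_subset_product h h) fun r _ _ => ?_
  split_ifs
  · exact mul_self_nonneg _
  · exact le_rfl

lemma En_nonneg (f : Γ → ℝ) : 0 ≤ En G V W f f := by
  refine sum_nonneg fun r _ => ?_
  split_ifs
  · exact mul_self_nonneg _
  · exact le_rfl

lemma En_sq_le (f g : Γ → ℝ) : En G V W f g ^ 2 ≤ En G V W f f * En G V W g g := by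
  refine sum_sq_le_sum_mul_sum_of_sq_le_mul _ (fun r _ => ?_) (fun r _ => ?_) fun r _ => ?_
  · split_ifs
    · exact mul_self_nonneg _
    · exact le_rfl
  · split_ifs
    · exact mul_self_nonneg _
    · exact le_rfl
  · split_ifs
    · exact le_of_eq (by ring)
    · simp

/-- The Dirichlet bound. -/
theorem dirichlet (hx : x ∈ V) (hy : y ∈ V) {f : Γ → ℝ}
    (hf : ∀ p q, s(p, q) ∈ W → ξ s(p, q) = true → f p = f q) :
    2 * (#(TT G V W ξ) : ℝ) * (f x - f y) ^ 2 ≤ #(AA G V x y W ξ) * En G V W f f := by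
  have h := En_sq_le (G := G) (V := V) (W := W) (uu G V x y W ξ) f
  rw [← kirchhoff hx hy hf, En_uu hx hy] at h
  rcases (Nat.cast_nonneg (α := ℝ) #(TT G V W ξ)).eq_or_lt with h0 | h0
  · rw [← h0]
    simpa using mul_nonneg (Nat.cast_nonneg _) (En_nonneg f)
  · refine le_of_mul_le_mul_left ?_ (mul_pos two_pos h0)
    linarith

end Pool.Agent.FusfTree.UF
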