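import Pool.Agent.P.MP_8fb1ed_pr.UstFin

/-! Existence, uniqueness and invariance of the free uniform spanning forest. -/

open MeasureTheory Filter Topology
open scoped ENNReal

namespace Pool.Agent.FusfTree

theorem exists_exhaustion {Γ : Type*} [Countable Γ] {G : SimpleGraph Γ} (hG : G.Connected) :
    ∃ V, IsExhaustion G V := by
  classical
  have := hG.nonempty
  obtain ⟨u, hu⟩ := exists_surjective_nat Γ
  have w : ∀ x, G.Walk (u 0) x := fun x => (hG.preconnected (u 0) x).some
  refine ⟨fun n => (Finset.range (n + 1)).biUnion fun k => (w (u k)).support.toFinset,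
    fun n m hnm => Finset.biUnion_subset_biUnion_of_subset_left _
      (Finset.range_mono (Nat.succ_le_succ hnm)), fun x => ?_, fun n => ?_⟩
  · obtain ⟨k, rfl⟩ := hu x
    exact ⟨k, Finset.mem_biUnion.2 ⟨k, Finset.self_mem_range_succ k,
      List.mem_toFinset.2 (w (u k)).end_mem_support⟩⟩
  · refine G.induce_connected_of_patches (u 0) ?_ fun {v} hv => ?_
    · exact Finset.mem_coe.2 (Finset.mem_biUnion.2 ⟨0, by simp,
        List.mem_toFinset.2 (w (u 0)).start_mem_support⟩)
    · obtain ⟨k, hk, hv'⟩ := Finset.mem_biUnion.1 (Finset.mem_coe.1 hv)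
      exact ⟨{v | v ∈ (w (u k)).support},
        fun z hz => Finset.mem_coe.2 (Finset.mem_biUnion.2 ⟨k, hk, List.mem_toFinset.2 hz⟩),
        (w (u k)).start_mem_support, List.mem_toFinset.1 hv',
        (w (u k)).connected_induce_support _ _⟩

namespace UstLim

variable {Γ : Type*}

/-- The configurations containing `B`. -/
def cyl (B : Finset (Sym2 Γ)) : Set (Cfg Γ) := {η | ∀ e ∈ B, η e = true}

lemma isClopen_cyl (B : Finset (Sym2 Γ)) : IsClopen (cyl B) := by
  have : cyl B = ⋂ e ∈ B, (fun η : Cfg Γ => η e) ⁻¹' {true} := by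
    ext η
    simp [cyl]
  rw [this]
  exact isClopen_biInter_finset fun e _ => (isClopen_discrete _).preimage (continuous_apply e)

lemma measurableSet_cyl (B : Finset (Sym2 Γ)) : MeasurableSet (cyl B) := by
  have : cyl B = ⋂ e ∈ B, (fun η : Cfg Γ => η e) ⁻¹' {true} := by
    ext η
    simp [cyl]
  rw [this]
  exact B.measurableSet_biInter fun e _ => measurable_pi_apply e (measurableSet_singleton _)

lemma ext_cyl {μ ν : Measure (Cfg Γ)} [IsProbabilityMeasure μ] [IsProbabilityMeasure ν]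
    (h : ∀ B, μ (cyl B) = ν (cyl B)) : μ = ν := by
  classical
  refine ext_of_generate_finite (Set.range cyl) ?_ ?_ ?_ (by simp)
  · refine le_antisymm ?_ (MeasurableSpace.generateFrom_le ?_)
    · refine iSup_le fun e => ?_
      refine measurable_iff_comap_le.1
        (@measurable_to_bool _ (MeasurableSpace.generateFrom (Set.range cyl)) _ ?_)
      refine MeasurableSpace.measurableSet_generateFrom ⟨{e}, ?_⟩
      ext η
      simp [cyl]
    · rintro _ ⟨B, rfl⟩
      exact measurableSet_cyl B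
  · rintro _ ⟨B, rfl⟩ _ ⟨B', rfl⟩ _
    refine ⟨B ∪ B', ?_⟩
    ext η
    simp only [cyl, Finset.mem_union, Set.mem_inter_iff, Set.mem_ofPred_eq]
    exact ⟨fun h => ⟨fun e he => h e (Or.inl he), fun e he => h e (Or.inr he)⟩,
      fun h e he => he.elim (h.1 e) (h.2 e)⟩
  · rintro _ ⟨B, rfl⟩
    exact h B

/-- The limit probability of containing `B`. -/
noncomputable def lim (G : SimpleGraph Γ) (B : Finset (Sym2 Γ)) : ℝ≥0∞ :=
  ⨅ (V : Finset Γ) (_ : (G.induce (V : Set Γ)).Connected) (_ : ∀ e ∈ B, ∀ v ∈ e, v ∈ V),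
    ust G V (cyl B)

lemma eventually_mem {G : SimpleGraph Γ} {V : ℕ → Finset Γ} (hV : IsExhaustion G V) (x : Γ) :
    ∀ᶠ n in atTop, x ∈ V n := by
  obtain ⟨k, hk⟩ := hV.2.1 x
  exact (eventually_ge_atTop k).mono fun n hn => hV.1 hn hk

lemma tendsto_lim [Countable Γ] {G : SimpleGraph Γ} {V : ℕ → Finset Γ} (hV : IsExhaustion G V)
    (B : Finset (Sym2 Γ)) : Tendsto (fun n => ust G (V n) (cyl B)) atTop (𝓝 (lim G B)) := by
  refine tendsto_order.2 ⟨fun a ha => ?_, fun a ha => ?_⟩
  · have h : ∀ᶠ n in atTop, ∀ e ∈ B, ∀ v ∈ e, v ∈ V n := by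
      refine (eventually_all_finset B).2 fun e _ => ?_
      induction e using Sym2.ind with
      | _ x y =>
        filter_upwards [eventually_mem hV x, eventually_mem hV y] with n hx hy v hv
        rcases Sym2.mem_iff.1 hv with rfl | rfl
        · exact hx
        · exact hy
    filter_upwards [h] with n hn
    exact ha.trans_le (iInf_le_of_le (V n) (iInf_le_of_le (hV.2.2 n) (iInf_le _ hn)))
  · simp only [lim, gt_iff_lt, iInf_lt_iff] at ha
    obtain ⟨W, hW, hB, ha⟩ := ha
    filter_upwards [(eventually_all_finset W).2 fun x _ => eventually_mem hV x] with n hn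
    exact (ust_mono hn hW (hV.2.2 n) B hB).trans_lt ha

lemma isProb [Countable Γ] {G : SimpleGraph Γ} {V : Finset Γ}
    (hV : (G.induce (V : Set Γ)).Connected) : IsProbabilityMeasure (ust G V) :=
  ProbabilityTheory.isProbabilityMeasure_uniformOn (treeSet_finite G V) (treeSet_nonempty hV)

/-- The uniform spanning trees along an exhaustion, as probability measures. -/
noncomputable def seq [Countable Γ] {G : SimpleGraph Γ} {V : ℕ → Finset Γ}
    (hV : IsExhaustion G V) (n : ℕ) : ProbabilityMeasure (Cfg Γ) :=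
  ⟨ust G (V n), isProb (hV.2.2 n)⟩

lemma cluster_cyl [Countable Γ] {G : SimpleGraph Γ} {V : ℕ → Finset Γ} (hV : IsExhaustion G V)
    {μ : ProbabilityMeasure (Cfg Γ)} (h : MapClusterPt μ atTop (seq hV)) (B : Finset (Sym2 Γ)) :
    (μ : Measure (Cfg Γ)) (cyl B) = lim G B := by
  have hc : ContinuousAt (fun ν : ProbabilityMeasure (Cfg Γ) => (ν : Measure (Cfg Γ)) (cyl B)) μ :=
    ProbabilityMeasure.tendsto_measure_of_null_frontier_of_tendsto' tendsto_id
      (by rw [(isClopen_cyl B).frontier_eq, measure_empty])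
  have h1 := h.continuousAt_comp hc
  exact eq_of_nhds_neBot (ClusterPt.mono h1 (tendsto_lim hV B))

section shift
variable [Group Γ]

lemma shift_shift (g : Γ) (η : Cfg Γ) : shift g (shift g⁻¹ η) = η := by
  funext e
  induction e using Sym2.ind with
  | _ x y => simp [shift]

lemma shift_injective (g : Γ) : Function.Injective (shift g : Cfg Γ → Cfg Γ) := by
  intro η η' h
  have := congrArg (shift g⁻¹) h
  have h2 := fun η : Cfg Γ => shift_shift g⁻¹ η
  rw [inv_inv] at h2
  rwa [h2, h2] at this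

/-- Translation as an isomorphism of induced graphs. -/
def iso (g : Γ) {H H' : SimpleGraph Γ} (h : ∀ x y, H'.Adj (g * x) (g * y) ↔ H.Adj x y)
    {V V' : Finset Γ} (hV : ∀ x, x ∈ V ↔ g * x ∈ V') :
    H.induce (V : Set Γ) ≃g H'.induce (V' : Set Γ) where
  toEquiv := (Equiv.mulLeft g).subtypeEquiv hV
  map_rel_iff' := h _ _

lemma shift_mem_treeSet {G : SimpleGraph Γ} (hG : Cay G) (g : Γ) {V V' : Finset Γ}
    (hV : ∀ x, x ∈ V ↔ g * x ∈ V') {η : Cfg Γ} (hη : η ∈ treeSet G V) :
    shift g η ∈ treeSet G V' := by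
  refine ⟨fun e he => ?_, (iso g (graphOf_shift_adj g η) hV).isTree_iff.1 hη.2⟩
  induction e using Sym2.ind with
  | _ x y =>
    rw [shift_apply'] at he
    obtain ⟨h1, h2⟩ := hη.1 _ he
    refine ⟨(hG.inv g⁻¹ x y).1 h1, fun v hv => ?_⟩
    have : g⁻¹ * v ∈ V := h2 _ (by
      rcases Sym2.mem_iff.1 hv with rfl | rfl
      · exact Sym2.mem_mk_left _ _
      · exact Sym2.mem_mk_right _ _)
    simpa using (hV _).1 this

lemma treeSet_shift {G : SimpleGraph Γ} (hG : Cay G) (g : Γ) {V V' : Finset Γ}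
    (hV : ∀ x, x ∈ V ↔ g * x ∈ V') : treeSet G V' = shift g '' treeSet G V := by
  refine Set.Subset.antisymm (fun η hη => ⟨shift g⁻¹ η, ?_, shift_shift g η⟩) ?_
  · exact shift_mem_treeSet hG g⁻¹ (fun x => by simpa using (hV (g⁻¹ * x)).symm) hη
  · rintro _ ⟨η, hη, rfl⟩
    exact shift_mem_treeSet hG g hV hη

lemma ust_shift [Countable Γ] {G : SimpleGraph Γ} (hG : Cay G) (g : Γ) {V V' : Finset Γ}
    (hV : ∀ x, x ∈ V ↔ g * x ∈ V') : (ust G V).map (shift g) = ust G V' := by
  ext S hS
  rw [Measure.map_apply (measurable_shift g) hS, ust, ust, ProbabilityTheory.uniformOn,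
    ProbabilityTheory.uniformOn,
    ProbabilityTheory.cond_apply (treeSet_finite G V).measurableSet,
    ProbabilityTheory.cond_apply (treeSet_finite G V').measurableSet, treeSet_shift hG g hV,
    ← Set.image_inter_preimage, Measure.count_injective_image (shift_injective g),
    Measure.count_injective_image (shift_injective g)]

lemma isFUSF_map [Countable Γ] {G : SimpleGraph Γ} (hG : Cay G) {μ : Measure (Cfg Γ)}
    (hμ : IsFUSF G μ) (g : Γ) : IsFUSF G (μ.map (shift g)) := by
  classical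
  have := hμ.1
  refine ⟨Measure.isProbabilityMeasure_map (measurable_shift g).aemeasurable, fun V hV f => ?_⟩
  have hm : ∀ n x, x ∈ (V n).image (fun z => g⁻¹ * z) ↔ g * x ∈ V n := fun n x => by
    rw [Finset.mem_image]
    exact ⟨fun ⟨z, hz, h⟩ => by simpa [← h] using hz, fun h => ⟨_, h, by simp⟩⟩
  have hV' : IsExhaustion G fun n => (V n).image fun z => g⁻¹ * z :=
    ⟨fun n m h => Finset.image_subset_image (hV.1 h),
      fun x => (hV.2.1 (g * x)).imp fun n hn => (hm n x).2 hn,
      fun n => (iso g (hG.inv g) (hm n)).connected_iff.2 (hV.2.2 n)⟩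
  have h := hμ.2 _ hV' (f.compContinuous ⟨shift g, continuous_shift g⟩)
  have hi : ∀ ν : Measure (Cfg Γ), ∫ η, f η ∂(ν.map (shift g)) = ∫ η, f (shift g η) ∂ν :=
    fun ν => integral_map (measurable_shift g).aemeasurable f.continuous.aestronglyMeasurable
  rw [hi]
  refine h.congr fun n => ?_
  rw [← ust_shift hG g (hm n), hi]
  rfl

end shift

end UstLim

open UstLim in
theorem exists_fusf {Γ : Type*} [Group Γ] [Countable Γ] {G : SimpleGraph Γ} (hG : Cay G) :
    ∃ μ : Measure (Cfg Γ), IsFUSF G μ ∧ (∀ μ', IsFUSF G μ' → μ' = μ) ∧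
      (∀ g : Γ, μ.map (shift g) = μ) ∧ ∀ᵐ η ∂μ, ∀ e, η e = true → e ∈ G.edgeSet := by
  obtain ⟨V₀, hV₀⟩ := exists_exhaustion hG.conn
  obtain ⟨μ, hμ⟩ : ∃ μ, MapClusterPt μ atTop (seq hV₀) :=
    exists_clusterPt_of_compactSpace (map (seq hV₀) atTop)
  have hF : IsFUSF G (μ : Measure (Cfg Γ)) := by
    refine ⟨inferInstance, fun V hV => ?_⟩
    have ht : Tendsto (seq hV) atTop (𝓝 μ) :=
      tendsto_nhds_of_unique_mapClusterPt fun ν hν => ProbabilityMeasure.toMeasure_injective
        (ext_cyl fun B => (cluster_cyl hV hν B).trans (cluster_cyl hV₀ hμ B).symm)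
    exact ProbabilityMeasure.tendsto_iff_forall_integral_tendsto.1 ht
  have hU : ∀ μ', IsFUSF G μ' → μ' = (μ : Measure (Cfg Γ)) := fun μ' hμ' => by
    have := hμ'.1
    exact ext_of_forall_integral_eq_of_IsFiniteMeasure fun f =>
      tendsto_nhds_unique (hμ'.2 V₀ hV₀ f) (hF.2 V₀ hV₀ f)
  refine ⟨μ, hF, hU, fun g => hU _ (isFUSF_map hG hF g), ae_all_iff.2 fun e => ?_⟩
  by_cases he : e ∈ G.edgeSet
  · exact Eventually.of_forall fun _ _ => he
  · have h0 : ∀ n, ust G (V₀ n) (cyl {e}) = 0 := fun n =>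
      (ProbabilityTheory.uniformOn_eq_zero_iff (treeSet_finite G _)).2
        (Set.eq_empty_of_forall_notMem fun η hη =>
          he (hη.1.1 e (hη.2 e (Finset.mem_singleton_self e))).1)
    have h1 := tendsto_lim hV₀ {e}
    simp only [h0] at h1
    have h2 : (μ : Measure (Cfg Γ)) (cyl {e}) = 0 :=
      (cluster_cyl hV₀ hμ {e}).trans (tendsto_nhds_unique h1 tendsto_const_nhds)
    refine measure_mono_null (fun η hη => ?_) h2
    intro e' he'
    rw [Finset.mem_singleton.1 he']
    by_contra hc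
    exact hη fun h => absurd h hc

end Pool.Agent.FusfTree
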